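import Mathlib

set_option autoImplicit false

namespace Pool.Agent.H974R3

open Finset Function

variable {n : ℕ}

/-- Flip coordinate `j`. -/
def flp (j : Fin n) (x : Fin n → Bool) : Fin n → Bool := update x j (!x j)

lemma flp_flp (j : Fin n) (x : Fin n → Bool) : flp j (flp j x) = x := by
  unfold flp
  simp

lemma sum_flp (φ : (Fin n → Bool) → ℝ) (j : Fin n) :
    ∑ x, φ (flp j x) = ∑ x, φ x := by
  have hinv : Function.Involutive (flp (n := n) j) := flp_flp j
  exact Equiv.sum_comp hinv.toPerm φ

lemma sum_double (φ : (Fin n → Bool) → ℝ) (j : Fin n) :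
    ∑ x, (φ (update x j false) + φ (update x j true)) = 2 * ∑ x, φ x := by
  have h : ∀ x : Fin n → Bool,
      φ (update x j false) + φ (update x j true) = φ x + φ (flp j x) := by
    intro x
    unfold flp
    cases hx : x j with
    | false =>
      have h1 : update x j false = x := by rw [← hx]; exact update_eq_self j x
      simp [h1]
    | true =>
      have h1 : update x j true = x := by rw [← hx]; exact update_eq_self j x
      simp [h1]; ring
  rw [Finset.sum_congr rfl (fun x _ => h x), Finset.sum_add_distrib, sum_flp]
  ring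

/-- signed value -/
noncomputable def sg (b : Bool) : ℝ := if b then 1 else -1

lemma sg_true : sg true = 1 := rfl
lemma sg_false : sg false = -1 := by simp [sg]

lemma abs_sg (b : Bool) : |sg b| = 1 := by cases b <;> simp [sg]

/-- sum of signs -/
noncomputable def SS (g : (Fin n → Bool) → Bool) : ℝ := ∑ x, sg (g x)

/-- first level coefficient -/
noncomputable def HH (g : (Fin n → Bool) → Bool) (i : Fin n) : ℝ :=
  ∑ x, (sg (g (update x i true)) - sg (g (update x i false))) / 2

def rs (g : (Fin n → Bool) → Bool) (i : Fin n) (b : Bool) : (Fin n → Bool) → Bool :=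
  fun x => g (update x i b)

lemma SS_split (g : (Fin n → Bool) → Bool) (i : Fin n) :
    2 * SS g = SS (rs g i false) + SS (rs g i true) := by
  unfold SS rs
  rw [← Finset.sum_add_distrib]
  exact (sum_double (fun x => sg (g x)) i).symm

lemma HH_self (g : (Fin n → Bool) → Bool) (i : Fin n) :
    2 * HH g i = SS (rs g i true) - SS (rs g i false) := by
  unfold SS HH rs
  rw [← Finset.sum_sub_distrib, Finset.mul_sum]
  apply Finset.sum_congr rfl
  intro x _
  ring

lemma HH_rs_self (g : (Fin n → Bool) → Bool) (i : Fin n) (b : Bool) :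
    HH (rs g i b) i = 0 := by
  unfold HH rs
  simp

lemma HH_split (g : (Fin n → Bool) → Bool) (i j : Fin n) (h : j ≠ i) :
    2 * HH g j = HH (rs g i false) j + HH (rs g i true) j := by
  unfold HH rs
  rw [← Finset.sum_add_distrib]
  rw [← sum_double (fun x => (sg (g (update x j true)) - sg (g (update x j false))) / 2) i]
  apply Finset.sum_congr rfl
  intro x _
  simp only [update_comm h]

lemma HHsum_split (g : (Fin n → Bool) → Bool) (i : Fin n) :
    2 * ∑ j, HH g j = ∑ j, HH (rs g i false) j + ∑ j, HH (rs g i true) j
      + (SS (rs g i true) - SS (rs g i false)) := by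
  classical
  rw [← HH_self g i, Finset.mul_sum, ← Finset.sum_add_distrib]
  rw [← Finset.add_sum_erase _ _ (Finset.mem_univ i)]
  rw [← Finset.add_sum_erase univ (fun j => HH (rs g i false) j + HH (rs g i true) j)
    (Finset.mem_univ i)]
  have : ∑ x ∈ univ.erase i, 2 * HH g x
      = ∑ x ∈ univ.erase i, (HH (rs g i false) x + HH (rs g i true) x) := by
    apply Finset.sum_congr rfl
    intro j hj
    exact HH_split g i j (Finset.ne_of_mem_erase hj)
  rw [this, HH_rs_self, HH_rs_self]
  ring

lemma sqrt_avg (c k : ℝ) (hk : 0 ≤ k) :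
    Real.sqrt ((c + 1) ^ 2 + k) + Real.sqrt ((c - 1) ^ 2 + k)
      ≤ 2 * Real.sqrt (c ^ 2 + (k + 1)) := by
  have h1 : 0 ≤ (c + 1) ^ 2 + k := by positivity
  have h2 : 0 ≤ (c - 1) ^ 2 + k := by positivity
  have h3 : 0 ≤ c ^ 2 + (k + 1) := by positivity
  have e1 := Real.sq_sqrt h1
  have e2 := Real.sq_sqrt h2
  have e3 := Real.sq_sqrt h3
  have p3 := Real.sqrt_nonneg (c ^ 2 + (k + 1))
  apply le_of_sq_le_sq _ (by positivity)
  nlinarith [sq_nonneg (Real.sqrt ((c + 1) ^ 2 + k) - Real.sqrt ((c - 1) ^ 2 + k))]

/-- decision trees -/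
inductive DT (n : ℕ) : Type
  | leaf : DT n
  | node : Fin n → DT n → DT n → DT n

def DT.depth : DT n → ℕ
  | .leaf => 0
  | .node _ l r => max l.depth r.depth + 1

def Comp : DT n → ((Fin n → Bool) → Bool) → Prop
  | .leaf, g => ∀ x y, g x = g y
  | .node i l r, g => (∃ x, g (update x i true) ≠ g (update x i false)) ∧
      Comp l (rs g i false) ∧ Comp r (rs g i true)

lemma infl_bound (T : DT n) : ∀ (g : (Fin n → Bool) → Bool), Comp T g →
    ∀ (k : ℕ), T.depth ≤ k → ∀ c : ℝ,
    c * SS g + ∑ j, HH g j ≤ 2 ^ n * Real.sqrt (c ^ 2 + k) := by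
  induction T with
  | leaf =>
    intro g hg k _ c
    have h0 : ∀ j, HH g j = 0 := by
      intro j
      unfold HH
      apply Finset.sum_eq_zero
      intro x _
      rw [hg (update x j true) (update x j false)]
      ring
    simp only [h0, Finset.sum_const_zero, add_zero]
    have h1 : |c * SS g| ≤ 2 ^ n * |c| := by
      rw [abs_mul, mul_comm]
      apply mul_le_mul_of_nonneg_right _ (abs_nonneg c)
      unfold SS
      calc |∑ x, sg (g x)| ≤ ∑ x : Fin n → Bool, |sg (g x)| := Finset.abs_sum_le_sum_abs _ _
        _ = ∑ x : Fin n → Bool, (1 : ℝ) := by simp only [abs_sg]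
        _ = 2 ^ n := by simp
    have h2 : |c| ≤ Real.sqrt (c ^ 2 + k) := by
      rw [← Real.sqrt_sq_eq_abs]
      apply Real.sqrt_le_sqrt
      have : (0 : ℝ) ≤ k := Nat.cast_nonneg k
      linarith
    calc c * SS g ≤ |c * SS g| := le_abs_self _
      _ ≤ 2 ^ n * |c| := h1
      _ ≤ _ := by
        apply mul_le_mul_of_nonneg_left h2 (by positivity)
  | node i l r ihl ihr =>
    intro g hg k hk c
    obtain ⟨_, hl, hr⟩ := hg
    simp only [DT.depth] at hk
    obtain ⟨m, rfl⟩ : ∃ m, k = m + 1 := ⟨k - 1, by omega⟩
    have hl' := ihl _ hl m (by omega) (c - 1)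
    have hr' := ihr _ hr m (by omega) (c + 1)
    have e1 := HHsum_split g i
    have e2 := SS_split g i
    have e3 := sqrt_avg c m (Nat.cast_nonneg m)
    have e4 : (0 : ℝ) < 2 ^ n := by positivity
    push_cast
    have e5 : (2 : ℝ) ^ n * Real.sqrt ((c + 1) ^ 2 + m) + 2 ^ n * Real.sqrt ((c - 1) ^ 2 + m)
      ≤ 2 ^ n * (2 * Real.sqrt (c ^ 2 + (m + 1))) := by
      rw [← mul_add]
      exact mul_le_mul_of_nonneg_left e3 e4.le
    nlinarith

/-- pivotality -/
def piv (g : (Fin n → Bool) → Bool) (i : Fin n) (x : Fin n → Bool) : Prop :=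
  g (update x i true) ≠ g (update x i false)

instance (g : (Fin n → Bool) → Bool) (i : Fin n) (x : Fin n → Bool) : Decidable (piv g i x) := by
  unfold piv; infer_instance

lemma piv_update (g : (Fin n → Bool) → Bool) (i : Fin n) (x : Fin n → Bool) (b : Bool) :
    piv g i (update x i b) ↔ piv g i x := by
  unfold piv
  simp

lemma mono_rs {g : (Fin n → Bool) → Bool} (hg : Monotone g) (i : Fin n) (b : Bool) :
    Monotone (rs g i b) := by
  intro x y hxy
  apply hg
  intro j
  by_cases h : j = i
  · subst h; simp
  · simp [h, hxy j]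

lemma upd_le (i : Fin n) (x : Fin n → Bool) : update x i false ≤ update x i true := by
  intro j
  by_cases h : j = i
  · subst h; simp
  · simp [h]

lemma piv_iff {g : (Fin n → Bool) → Bool} (hg : Monotone g) (i : Fin n) (x : Fin n → Bool) :
    piv g i x ↔ g (update x i true) = true ∧ g (update x i false) = false := by
  have h := hg (upd_le i x)
  unfold piv
  cases h1 : g (update x i true) <;> cases h2 : g (update x i false)
  · simp
  · rw [h1, h2] at h; exact absurd h (by decide)
  · simp
  · simp

def pset (b : Bool) : DT n → (Fin n → Bool) → Fin n → Finset (Fin n)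
  | .leaf, _, _ => ∅
  | .node j l r, x, i =>
    if j = i then ∅ else
      if x j = true then
        (if b = true then insert j (pset b r x i) else pset b r x i)
      else
        (if b = false then insert j (pset b l x i) else pset b l x i)

lemma pset_val (b : Bool) (T : DT n) (x : Fin n → Bool) (i : Fin n) :
    ∀ k ∈ pset b T x i, x k = b := by
  induction T with
  | leaf => simp [pset]
  | node j l r ihl ihr =>
    intro k hk
    simp only [pset] at hk
    split_ifs at hk with h1 h2 h3 h3
    · simp at hk
    · rw [Finset.mem_insert] at hk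
      rcases hk with rfl | hk
      · rw [h2, h3]
      · exact ihr k hk
    · exact ihr k hk
    · rw [Finset.mem_insert] at hk
      rcases hk with rfl | hk
      · rw [h3]; simpa using h2
      · exact ihl k hk
    · exact ihl k hk

lemma pset_ne (b : Bool) (T : DT n) (x : Fin n → Bool) (i : Fin n) :
    i ∉ pset b T x i := by
  induction T with
  | leaf => simp [pset]
  | node j l r ihl ihr =>
    simp only [pset]
    split_ifs with h1 h2 h3 h3
    · simp
    · rw [Finset.mem_insert]; push Not; exact ⟨fun h => h1 h.symm, ihr⟩
    · exact ihr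
    · rw [Finset.mem_insert]; push Not; exact ⟨fun h => h1 h.symm, ihl⟩
    · exact ihl

/-- variables on the path are relevant -/
lemma pset_rel (b : Bool) (T : DT n) (x : Fin n → Bool) (i : Fin n) :
    ∀ g : (Fin n → Bool) → Bool, Comp T g → ∀ k ∈ pset b T x i, ∃ y, piv g k y := by
  induction T with
  | leaf => simp [pset]
  | node j l r ihl ihr =>
    intro g hg k hk
    obtain ⟨hu, hl, hr⟩ := hg
    have key : ∀ c : Bool, (∃ y, piv (rs g j c) k y) → ∃ y, piv g k y := by
      rintro c ⟨y, hy⟩
      unfold piv rs at hy
      by_cases hkj : k = j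
      · subst hkj; simp at hy
      · refine ⟨update y j c, ?_⟩
        unfold piv
        rw [update_comm (Ne.symm hkj), update_comm (Ne.symm hkj)]
        exact hy
    simp only [pset] at hk
    split_ifs at hk with h1 h2 h3 h3
    · simp at hk
    · rw [Finset.mem_insert] at hk
      rcases hk with rfl | hk
      · exact hu
      · exact key _ (ihr _ hr k hk)
    · exact key _ (ihr _ hr k hk)
    · rw [Finset.mem_insert] at hk
      rcases hk with rfl | hk
      · exact hu
      · exact key _ (ihl _ hl k hk)
    · exact key _ (ihl _ hl k hk)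

/-- `y` follows the path of `x` up to the node querying `i` -/
def inC (T : DT n) (x : Fin n → Bool) (i : Fin n) (y : Fin n → Bool) : Prop :=
  ∀ b, ∀ k ∈ pset b T x i, y k = b

instance (T : DT n) (x : Fin n → Bool) (i : Fin n) (y : Fin n → Bool) :
    Decidable (inC T x i y) := by unfold inC; infer_instance

lemma inC_self (T : DT n) (x : Fin n → Bool) (i : Fin n) : inC T x i x :=
  fun b k hk => pset_val b T x i k hk

lemma inC_pset (T : DT n) (x : Fin n → Bool) (i : Fin n) :
    ∀ y, inC T x i y → ∀ b, pset b T y i = pset b T x i := by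
  induction T with
  | leaf => intro y _ b; simp [pset]
  | node j l r ihl ihr =>
    intro y hy b
    by_cases h1 : j = i
    · simp [pset, h1]
    · cases hx : x j with
      | true =>
        have hyj : y j = true := by
          apply hy true j
          simp [pset, h1, hx]
        have hC : inC r x i y := by
          intro b' k hk
          apply hy b' k
          simp only [pset, h1, hx, if_true, if_false]
          split_ifs
          · exact Finset.mem_insert_of_mem hk
          · exact hk
        have := ihr y hC b
        simp [pset, h1, hx, hyj, this]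
      | false =>
        have hyj : y j = false := by
          apply hy false j
          simp [pset, h1, hx]
        have hC : inC l x i y := by
          intro b' k hk
          apply hy b' k
          cases b' <;> simp [pset, h1, hx, hk]
        have := ihl y hC b
        simp [pset, h1, hx, hyj, this]

lemma pset_update (b c : Bool) (T : DT n) (x : Fin n → Bool) (i : Fin n) :
    pset b T (update x i c) i = pset b T x i := by
  induction T with
  | leaf => simp [pset]
  | node j l r ihl ihr =>
    by_cases h1 : j = i
    · simp [pset, h1]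
    · simp only [pset, h1, if_false, ihl, ihr]
      rw [update_of_ne h1]

end Pool.Agent.H974R3
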