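import Pool.Agent.H974R3.Fiber

set_option autoImplicit false

namespace Pool.Agent.H974R3

open Finset Function

variable {n : ℕ}

lemma rs_piv_of_ne (g : (Fin n → Bool) → Bool) (i j : Fin n) (h : i ≠ j) (x : Fin n → Bool)
    (c : Bool) (hc : x j = c) : piv (rs g j c) i x ↔ piv g i x := by
  unfold piv rs
  rw [update_comm h, update_comm h]
  have : update x j c = x := by rw [← hc]; exact update_eq_self j x
  rw [this]

lemma pset_node (b c : Bool) (j : Fin n) (l r : DT n) (x : Fin n → Bool) (i : Fin n)
    (hji : j ≠ i) (hc : x j = c) :
    pset b (DT.node j l r) x i = if b = c then insert j (pset b (cond c r l) x i)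
      else pset b (cond c r l) x i := by
  cases c with
  | true =>
    simp only [pset, hji, if_false, hc, if_true, cond_true]
  | false =>
    simp [pset, hji, hc]

lemma comp_cond {j : Fin n} {l r : DT n} {g : (Fin n → Bool) → Bool}
    (h : Comp (DT.node j l r) g) (c : Bool) : Comp (cond c r l) (rs g j c) := by
  cases c with
  | true => exact h.2.2
  | false => exact h.2.1

lemma charge (T : DT n) (b : Bool) : ∀ (g : (Fin n → Bool) → Bool), Comp T g →
    ∀ (x : Fin n → Bool) (J : Finset (Fin n)), J.Nonempty →
    (∀ i ∈ J, piv g i x ∧ x i = b) → ∃ i ∈ J, J.erase i ⊆ pset b T x i := by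
  induction T with
  | leaf =>
    intro g hg x J hJ h
    obtain ⟨i, hi⟩ := hJ
    exact absurd (hg _ _) (h i hi).1
  | node j l r ihl ihr =>
    intro g hg x J hJ h
    by_cases hE : (J.erase j).Nonempty
    · have hIH : ∃ i ∈ J.erase j, (J.erase j).erase i ⊆ pset b (cond (x j) r l) x i := by
        have h1 := comp_cond hg (x j)
        have h2 : ∀ i ∈ J.erase j, piv (rs g j (x j)) i x ∧ x i = b := by
          intro i hi
          have hi' := Finset.mem_erase.mp hi
          exact ⟨(rs_piv_of_ne g i j hi'.1 x _ rfl).mpr (h i hi'.2).1, (h i hi'.2).2⟩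
        cases hx : x j with
        | true =>
          rw [hx] at h1 h2
          exact ihr _ h1 x _ hE h2
        | false =>
          rw [hx] at h1 h2
          exact ihl _ h1 x _ hE h2
      obtain ⟨i, hi, hsub⟩ := hIH
      have hi' := Finset.mem_erase.mp hi
      refine ⟨i, hi'.2, ?_⟩
      intro k hk
      have hk' := Finset.mem_erase.mp hk
      rw [pset_node b (x j) j l r x i (Ne.symm hi'.1) rfl]
      by_cases hkj : k = j
      · subst hkj
        have := (h k hk'.2).2
        rw [if_pos this.symm]
        exact Finset.mem_insert_self _ _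
      · have : k ∈ (J.erase j).erase i :=
          Finset.mem_erase.mpr ⟨hk'.1, Finset.mem_erase.mpr ⟨hkj, hk'.2⟩⟩
        have := hsub this
        split_ifs
        · exact Finset.mem_insert_of_mem this
        · exact this
    · rw [Finset.not_nonempty_iff_eq_empty] at hE
      have hj : j ∈ J := by
        by_contra hcon
        rw [Finset.erase_eq_of_notMem hcon] at hE
        rw [hE] at hJ
        exact Finset.not_nonempty_empty hJ
      refine ⟨j, hj, ?_⟩
      rw [hE]
      exact Finset.empty_subset _

/-- discarded variables: few answers `b` before the node querying `i` -/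
noncomputable def Low (b : Bool) (q : ℕ) (T : DT n) (g : (Fin n → Bool) → Bool) :
    Finset (Fin n) := by
  classical
  exact univ.filter (fun i => ∃ x, piv g i x ∧ (pset b T x i).card < q)

lemma mem_Low (b : Bool) (q : ℕ) (T : DT n) (g : (Fin n → Bool) → Bool) (i : Fin n) :
    i ∈ Low b q T g ↔ ∃ x, piv g i x ∧ (pset b T x i).card < q := by
  classical
  unfold Low
  simp

lemma Low_card (b : Bool) (T : DT n) : ∀ (g : (Fin n → Bool) → Bool), Comp T g →
    ∀ (q k : ℕ), T.depth ≤ k → ((Low b q T g).card : ℝ) + 1 ≤ (5 / 4) ^ k * 4 ^ q := by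
  induction T with
  | leaf =>
    intro g hg q k _
    have : Low b q DT.leaf g = ∅ := by
      rw [Finset.eq_empty_iff_forall_notMem]
      intro i hi
      rw [mem_Low] at hi
      obtain ⟨x, hx, _⟩ := hi
      exact hx (hg _ _)
    rw [this]
    have h1 : (1 : ℝ) ≤ (5 / 4) ^ k := one_le_pow₀ (by norm_num)
    have h2 : (1 : ℝ) ≤ 4 ^ q := one_le_pow₀ (by norm_num)
    simp only [Finset.card_empty, Nat.cast_zero, zero_add]
    nlinarith
  | node j l r ihl ihr =>
    intro g hg q k hk
    simp only [DT.depth] at hk
    obtain ⟨m, rfl⟩ : ∃ m, k = m + 1 := ⟨k - 1, by omega⟩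
    cases q with
    | zero =>
      have : Low b 0 (DT.node j l r) g = ∅ := by
        rw [Finset.eq_empty_iff_forall_notMem]
        intro i hi
        rw [mem_Low] at hi
        obtain ⟨x, _, hx⟩ := hi
        omega
      rw [this]
      have h1 : (1 : ℝ) ≤ (5 / 4) ^ (m + 1) := one_le_pow₀ (by norm_num)
      simp only [Finset.card_empty, Nat.cast_zero, zero_add, pow_zero, mul_one]
      exact h1
    | succ q =>
      have ih : ∀ (c : Bool) (q' : ℕ),
          ((Low b q' (cond c r l) (rs g j c)).card : ℝ) + 1 ≤ (5 / 4) ^ m * 4 ^ q' := by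
        intro c q'
        have hc := comp_cond hg c
        cases c with
        | true => exact ihr _ hc q' m (by omega)
        | false => exact ihl _ hc q' m (by omega)
      have hsub : Low b (q + 1) (DT.node j l r) g ⊆
          insert j (Low b q (cond b r l) (rs g j b) ∪ Low b (q + 1) (cond (!b) r l) (rs g j (!b))) := by
        intro i hi
        rw [mem_Low] at hi
        obtain ⟨x, hx, hcard⟩ := hi
        rw [Finset.mem_insert, Finset.mem_union]
        by_cases hij : i = j
        · left; exact hij
        right
        have hp := (rs_piv_of_ne g i j hij x (x j) rfl).mpr hx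
        rw [pset_node b (x j) j l r x i (Ne.symm hij) rfl] at hcard
        by_cases hb : b = x j
        · left
          rw [mem_Low]
          rw [if_pos hb, Finset.card_insert_of_notMem] at hcard
          · rw [← hb] at hcard hp
            exact ⟨x, hp, by omega⟩
          · intro hmem
            obtain ⟨y, hy⟩ := pset_rel b _ x i _ (comp_cond hg (x j)) j hmem
            unfold piv rs at hy
            simp at hy
        · right
          rw [mem_Low]
          rw [if_neg hb] at hcard
          have hb' : x j = !b := by
            cases hx1 : x j <;> cases b <;> simp_all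
          rw [hb'] at hcard hp
          exact ⟨x, hp, hcard⟩
      have h1 := ih b q
      have h2 := ih (!b) (q + 1)
      have h3 : ((Low b (q + 1) (DT.node j l r) g).card : ℝ) ≤
          ((Low b q (cond b r l) (rs g j b)).card : ℝ)
          + ((Low b (q + 1) (cond (!b) r l) (rs g j (!b))).card : ℝ) + 1 := by
        have e1 := Finset.card_le_card hsub
        have e2 := Finset.card_insert_le j
          (Low b q (cond b r l) (rs g j b) ∪ Low b (q + 1) (cond (!b) r l) (rs g j (!b)))
        have e3 := Finset.card_union_le (Low b q (cond b r l) (rs g j b))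
          (Low b (q + 1) (cond (!b) r l) (rs g j (!b)))
        have e4 : (Low b (q + 1) (DT.node j l r) g).card ≤
          (Low b q (cond b r l) (rs g j b)).card
          + (Low b (q + 1) (cond (!b) r l) (rs g j (!b))).card + 1 := by omega
        exact_mod_cast e4
      have h4 : (5 / 4 : ℝ) ^ m * 4 ^ q + (5 / 4) ^ m * 4 ^ (q + 1) = (5 / 4) ^ (m + 1) * 4 ^ (q + 1) := by
        rw [pow_succ, pow_succ]; ring
      linarith

lemma flip_piv {g : (Fin n → Bool) → Bool} (hm : Monotone g) (i j : Fin n) (hij : j ≠ i)
    (x : Fin n → Bool) (b : Bool) (hi : x i = b) (hj : x j = b) (hp : piv g i x)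
    (hnp : ¬ piv g j x) : piv g i (flp j x) := by
  rw [piv_iff hm] at hp ⊢
  unfold piv at hnp
  push Not at hnp
  unfold flp
  have hxi : update x i b = x := by rw [← hi]; exact update_eq_self i x
  have hxj : update x j b = x := by rw [← hj]; exact update_eq_self j x
  rw [hj]
  cases b with
  | false =>
    simp only [Bool.not_false]
    constructor
    · have h1 : update x i true ≤ update (update x j true) i true := by
        intro k
        by_cases hk : k = i
        · subst hk; simp
        · by_cases hk2 : k = j
          · subst hk2; simp [hij]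
          · simp [hk, hk2]
      have := hm h1
      rw [hp.1] at this
      cases h : g (update (update x j true) i true)
      · rw [h] at this; exact absurd this (by decide)
      · rfl
    · rw [update_comm hij, hxi, hnp, hxj, ← hxi]; exact hp.2
  | true =>
    simp only [Bool.not_true]
    constructor
    · rw [update_comm hij, hxi, ← hnp, hxj, ← hxi]; exact hp.1
    · have h1 : update (update x j false) i false ≤ update x i false := by
        intro k
        by_cases hk : k = i
        · subst hk; simp
        · by_cases hk2 : k = j
          · subst hk2; simp [hij]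
          · simp [hk, hk2]
      have := hm h1
      rw [hp.2] at this
      cases h : g (update (update x j false) i false)
      · rfl
      · rw [h] at this; exact absurd this (by decide)

def GG (g : (Fin n → Bool) → Bool) (i : Fin n) : Finset (Fin n → Bool) := univ.filter (piv g i)

lemma mem_GG (g : (Fin n → Bool) → Bool) (i : Fin n) (x : Fin n → Bool) :
    x ∈ GG g i ↔ piv g i x := by unfold GG; simp

def dfc (b : Bool) (T : DT n) (g : (Fin n → Bool) → Bool) (i : Fin n) (x : Fin n → Bool) : ℕ :=
  ((pset b T x i).filter (fun j => piv g i (flp j x))).card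

lemma dfc_sum (b : Bool) (T : DT n) (g : (Fin n → Bool) → Bool) (hT : Comp T g)
    (hm : Monotone g) (k : ℕ) (hk : T.depth ≤ k) (i : Fin n) :
    (2 * 2 ^ n : ℝ) * ∑ x ∈ GG g i, (dfc b T g i x : ℝ)
      ≤ 2 ^ k * ((GG g i).card : ℝ) ^ 2 := by
  classical
  set key : (Fin n → Bool) → Finset (Fin n) × Finset (Fin n) :=
    fun x => (pset true T x i, pset false T x i) with hkey
  set N := (GG g i).image key with hN
  have h1 : ((2 * 2 ^ n : ℝ)) * (N.card : ℝ) ≤ 2 ^ k * ((GG g i).card : ℝ) := by
    have e1 : (GG g i).card = ∑ y ∈ N, ((GG g i).filter (fun x => key x = y)).card :=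
      Finset.card_eq_sum_card_image key (GG g i)
    have e2 : ∀ y ∈ N, (2 * 2 ^ n : ℝ) ≤ 2 ^ k * (((GG g i).filter (fun x => key x = y)).card : ℝ) := by
      intro y hy
      rw [hN, Finset.mem_image] at hy
      obtain ⟨x, hx, rfl⟩ := hy
      rw [mem_GG] at hx
      have e3 := fib_card T g hT hm k hk x i hx
      have e4 : fib g T x i ⊆ (GG g i).filter (fun z => key z = key x) := by
        intro z hz
        unfold fib at hz
        simp only [Finset.mem_filter, Finset.mem_univ, true_and] at hz
        rw [Finset.mem_filter, mem_GG]
        refine ⟨hz.1, ?_⟩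
        rw [hkey]
        simp only [inC_pset T x i z hz.2]
      have e5 : ((fib g T x i).card : ℝ) ≤ (((GG g i).filter (fun z => key z = key x)).card : ℝ) := by
        exact_mod_cast Finset.card_le_card e4
      have : (0 : ℝ) < 2 ^ k := by positivity
      nlinarith
    rw [e1]
    push_cast
    rw [Finset.mul_sum, mul_comm, ← nsmul_eq_mul, ← Finset.sum_const]
    exact Finset.sum_le_sum e2
  have h2 : ∑ x ∈ GG g i, (dfc b T g i x : ℝ) ≤ (N.card : ℝ) * ((GG g i).card : ℝ) := by
    rw [← Finset.sum_fiberwise_of_maps_to (g := key) (t := N)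
      (fun x hx => Finset.mem_image_of_mem key hx)]
    rw [← nsmul_eq_mul, ← Finset.sum_const]
    apply Finset.sum_le_sum
    intro y _
    have e1 : ∑ x ∈ (GG g i).filter (fun x => key x = y), dfc b T g i x
      = (((GG g i).filter (fun x => key x = y)).sigma
          (fun x => (pset b T x i).filter (fun j => piv g i (flp j x)))).card := by
      rw [Finset.card_sigma]; rfl
    have e2 : (((GG g i).filter (fun x => key x = y)).sigma
          (fun x => (pset b T x i).filter (fun j => piv g i (flp j x)))).card ≤ (GG g i).card := by
      apply Finset.card_le_card_of_injOn (fun p => flp p.2 p.1)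
      · intro p hp
        simp only [Finset.coe_sigma, Set.mem_sigma_iff, Finset.mem_coe, Finset.mem_filter] at hp
        simp only [Finset.mem_coe]
        rw [mem_GG]
        exact hp.2.2
      · intro p hp p' hp' heq
        simp only [Finset.coe_sigma, Set.mem_sigma_iff, Finset.mem_coe, Finset.mem_filter] at hp hp'
        simp only at heq
        have hps : ∀ c, pset c T p.1 i = pset c T p'.1 i := by
          intro c
          have a1 := hp.1.2
          have a2 := hp'.1.2
          rw [← a2] at a1
          rw [hkey] at a1
          simp only [Prod.mk.injEq] at a1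
          cases c
          · exact a1.2
          · exact a1.1
        have hj : p.2 = p'.2 := by
          by_contra hne
          have b1 : (flp p.2 p.1) p.2 = !(p.1 p.2) := by unfold flp; simp
          have b2 : (flp p'.2 p'.1) p.2 = p'.1 p.2 := by unfold flp; simp [hne]
          rw [heq, b2] at b1
          have b3 : p.1 p.2 = b := pset_val b T p.1 i p.2 hp.2.1
          have b4 : p'.1 p.2 = b := by
            apply pset_val b T p'.1 i p.2
            rw [← hps b]; exact hp.2.1
          rw [b3, b4] at b1
          cases b <;> simp at b1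
        have hx : p.1 = p'.1 := by
          rw [← flp_flp p.2 p.1, heq, hj, flp_flp]
        exact Sigma.ext hx (heq_of_eq hj)
    have e3 : ∑ x ∈ (GG g i).filter (fun x => key x = y), dfc b T g i x ≤ (GG g i).card := by
      rw [e1]; exact e2
    exact_mod_cast e3
  have h3 : (0 : ℝ) ≤ ((GG g i).card : ℝ) := Nat.cast_nonneg _
  have h4 : (0 : ℝ) < 2 * 2 ^ n := by positivity
  calc (2 * 2 ^ n : ℝ) * ∑ x ∈ GG g i, (dfc b T g i x : ℝ)
      ≤ (2 * 2 ^ n) * ((N.card : ℝ) * ((GG g i).card : ℝ)) :=
        mul_le_mul_of_nonneg_left h2 h4.le
    _ = ((2 * 2 ^ n) * (N.card : ℝ)) * ((GG g i).card : ℝ) := by ring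
    _ ≤ (2 ^ k * ((GG g i).card : ℝ)) * ((GG g i).card : ℝ) :=
        mul_le_mul_of_nonneg_right h1 h3
    _ = _ := by ring

end Pool.Agent.H974R3
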