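import Pool.Agent.H974R3.Dich

set_option autoImplicit false

namespace Pool.Agent.H974R3

open Finset Function

variable {n : ℕ}

lemma HH_eq (g : (Fin n → Bool) → Bool) (hm : Monotone g) (j : Fin n) :
    HH g j = ((GG g j).card : ℝ) := by
  rw [← dd_ind g hm j]
  unfold HH dd ind sg
  apply Finset.sum_congr rfl
  intro x _
  split_ifs <;> norm_num

lemma total (T : DT n) (g : (Fin n → Bool) → Bool) (hT : Comp T g) (hm : Monotone g)
    (d : ℕ) (hd : T.depth ≤ d) :
    ∑ j, ((GG g j).card : ℝ) ≤ 2 ^ n * Real.sqrt d := by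
  have h := infl_bound T g hT d hd 0
  simp only [zero_mul, zero_add] at h
  have h2 : ∑ j, HH g j = ∑ j, ((GG g j).card : ℝ) :=
    Finset.sum_congr rfl (fun j _ => HH_eq g hm j)
  rw [h2] at h
  simpa using h

def Sens (g : (Fin n → Bool) → Bool) (b : Bool) (x : Fin n → Bool) : Finset (Fin n) :=
  univ.filter (fun j => piv g j x ∧ x j = b)

lemma Sens_sum (g : (Fin n → Bool) → Bool) :
    ∑ x, ((Sens g false x).card : ℝ) + ∑ x, ((Sens g true x).card : ℝ)
      = ∑ j, ((GG g j).card : ℝ) := by
  have h1 : ∀ x, ((Sens g false x).card : ℝ) + ((Sens g true x).card : ℝ)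
      = ∑ j, if piv g j x then (1 : ℝ) else 0 := by
    intro x
    unfold Sens
    rw [← Finset.sum_boole, ← Finset.sum_boole, ← Finset.sum_add_distrib]
    apply Finset.sum_congr rfl
    intro j _
    by_cases hp : piv g j x
    · cases hx : x j <;> simp [hp]
    · simp [hp]
  rw [← Finset.sum_add_distrib, Finset.sum_congr rfl (fun x _ => h1 x), Finset.sum_comm]
  apply Finset.sum_congr rfl
  intro j _
  unfold GG
  rw [card_filter_real]

def Small (g : (Fin n → Bool) → Bool) (b : Bool) (q : ℕ) (i : Fin n) :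
    Finset (Fin n → Bool) :=
  (GG g i).filter (fun x => x i = b ∧ 2 * (Sens g b x).card < q)

lemma Small_le (T : DT n) (g : (Fin n → Bool) → Bool) (hT : Comp T g) (hm : Monotone g)
    (d : ℕ) (hd : T.depth ≤ d) (b : Bool) (q : ℕ) (i : Fin n) (hi : i ∉ Low b q T g)
    (K : ℝ) (hK : 2 ^ d * ((GG g i).card : ℝ) ≤ K * (2 * 2 ^ n)) :
    (q : ℝ) * ((Small g b q i).card : ℝ) ≤ 2 * K * ((GG g i).card : ℝ) := by
  have h1 : ∀ x ∈ Small g b q i, q ≤ 2 * dfc b T g i x := by
    intro x hx
    unfold Small at hx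
    rw [Finset.mem_filter, mem_GG] at hx
    obtain ⟨hp, hxi, hs⟩ := hx
    have h2 : q ≤ (pset b T x i).card := by
      by_contra hcon
      push Not at hcon
      exact hi ((mem_Low b q T g i).mpr ⟨x, hp, hcon⟩)
    have h3 : pset b T x i ⊆ Sens g b x ∪ (pset b T x i).filter (fun j => piv g i (flp j x)) := by
      intro j hj
      rw [Finset.mem_union]
      have hxj := pset_val b T x i j hj
      by_cases hpj : piv g j x
      · left
        unfold Sens
        simp [hpj, hxj]
      · right
        rw [Finset.mem_filter]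
        refine ⟨hj, flip_piv hm i j ?_ x b hxi hxj hp hpj⟩
        rintro rfl
        exact pset_ne _ _ _ _ hj
    have h4 := le_trans (Finset.card_le_card h3) (Finset.card_union_le _ _)
    unfold dfc
    omega
  have h2 : (q : ℝ) * ((Small g b q i).card : ℝ) ≤ 2 * ∑ x ∈ GG g i, (dfc b T g i x : ℝ) := by
    have h3 : (q : ℝ) * ((Small g b q i).card : ℝ) ≤ ∑ x ∈ Small g b q i, 2 * (dfc b T g i x : ℝ) := by
      rw [mul_comm, ← nsmul_eq_mul, ← Finset.sum_const]
      apply Finset.sum_le_sum
      intro x hx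
      exact_mod_cast h1 x hx
    refine le_trans h3 ?_
    rw [← Finset.mul_sum]
    apply mul_le_mul_of_nonneg_left _ (by norm_num)
    apply Finset.sum_le_sum_of_subset_of_nonneg
    · exact Finset.filter_subset _ _
    · intro x _ _; positivity
  have h3 := dfc_sum b T g hT hm d hd i
  have h4 : (2 * 2 ^ n : ℝ) * ∑ x ∈ GG g i, (dfc b T g i x : ℝ)
      ≤ (2 * 2 ^ n) * (K * ((GG g i).card : ℝ)) := by
    refine le_trans h3 ?_
    have h5 : (0 : ℝ) ≤ ((GG g i).card : ℝ) := Nat.cast_nonneg _
    calc 2 ^ d * ((GG g i).card : ℝ) ^ 2 = (2 ^ d * ((GG g i).card : ℝ)) * ((GG g i).card : ℝ) := by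
          ring
      _ ≤ (K * (2 * 2 ^ n)) * ((GG g i).card : ℝ) := mul_le_mul_of_nonneg_right hK h5
      _ = _ := by ring
  have h5 := le_of_mul_le_mul_left h4 (by positivity)
  linarith

/-- the key estimate for light variables -/
theorem light (T : DT n) (g : (Fin n → Bool) → Bool) (hT : Comp T g) (hm : Monotone g)
    (d : ℕ) (hd : T.depth ≤ d) (q κ : ℕ) (K : ℝ) (hK0 : 0 ≤ K)
    (hκ : (2 * κ + 1) * K < 2 ^ κ) (hq : 16 * K ≤ q) (L L' : Finset (Fin n))
    (hL : ∀ j ∈ L, 2 ^ d * ((GG g j).card : ℝ) ≤ K * (2 * 2 ^ n))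
    (hL' : L' ⊆ L) (hlow : ∀ b, ∀ i ∈ L', i ∉ Low b q T g) :
    (q : ℝ) * ∑ i ∈ L', ((GG g i).card : ℝ) ≤ 8 * κ * (2 ^ n * Real.sqrt d) := by
  classical
  set E : Bool → (Fin n → Bool) → Finset (Fin n) :=
    fun b x => L'.filter (fun i => piv g i x ∧ x i = b ∧ (pset b T x i ∩ L).card < κ) with hE
  have hEcard : ∀ b x, (E b x).card ≤ κ := by
    intro b x
    by_cases hne : (E b x).Nonempty
    · obtain ⟨i, hi, hsub⟩ := charge T b g hT x (E b x) hne (by
        intro i hi
        simp only [hE, Finset.mem_filter] at hi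
        exact ⟨hi.2.1, hi.2.2.1⟩)
      have hi' := hi
      simp only [hE, Finset.mem_filter] at hi'
      have h1 : (E b x).erase i ⊆ pset b T x i ∩ L := by
        intro k hk
        rw [Finset.mem_inter]
        refine ⟨hsub hk, ?_⟩
        have := Finset.mem_of_mem_erase hk
        simp only [hE, Finset.mem_filter] at this
        exact hL' this.1
      have h2 := Finset.card_le_card h1
      have h3 := Finset.card_erase_of_mem hi
      omega
    · rw [Finset.not_nonempty_iff_eq_empty] at hne
      rw [hne]; simp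
  -- step 1
  have step1 : ∀ i ∈ L', ((GG g i).card : ℝ) ≤
      2 * (∑ x, (if i ∈ E false x then (1 : ℝ) else 0) + ∑ x, (if i ∈ E true x then (1 : ℝ) else 0)) := by
    intro i hi
    rw [mul_add, ← sum_double (fun x => if i ∈ E false x then (1 : ℝ) else 0) i,
      ← sum_double (fun x => if i ∈ E true x then (1 : ℝ) else 0) i, ← Finset.sum_add_distrib]
    unfold GG
    rw [card_filter_real]
    apply Finset.sum_le_sum
    intro x _
    have nn : ∀ (p : Prop) [Decidable p], (0 : ℝ) ≤ if p then (1 : ℝ) else 0 := by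
      intro p _; split_ifs <;> norm_num
    by_cases hp : piv g i x
    · rw [if_pos hp]
      rcases dich T g hT hm d hd K L hL κ hκ x i (hL' hi) hp with h | h
      · have : i ∈ E false (update x i false) := by
          simp only [hE, Finset.mem_filter, piv_update, update_self, pset_update]
          exact ⟨hi, hp, trivial, h⟩
        simp only [if_pos this]
        linarith [nn (i ∈ E false (update x i true)), nn (i ∈ E true (update x i false)),
          nn (i ∈ E true (update x i true))]
      · have : i ∈ E true (update x i true) := by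
          simp only [hE, Finset.mem_filter, piv_update, update_self, pset_update]
          exact ⟨hi, hp, trivial, h⟩
        simp only [if_pos this]
        linarith [nn (i ∈ E false (update x i true)), nn (i ∈ E true (update x i false)),
          nn (i ∈ E false (update x i false))]
    · rw [if_neg hp]
      linarith [nn (i ∈ E false (update x i true)), nn (i ∈ E true (update x i false)),
          nn (i ∈ E false (update x i false)), nn (i ∈ E true (update x i true))]
  -- step 2
  have step2 : ∀ b x, (q : ℝ) * ((E b x).card : ℝ) ≤ 2 * κ * ((Sens g b x).card : ℝ)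
      + q * ∑ i ∈ L', (if x ∈ Small g b q i then (1 : ℝ) else 0) := by
    intro b x
    have hk1 : ((E b x).card : ℝ) ≤ κ := by exact_mod_cast hEcard b x
    have hq0 : (0 : ℝ) ≤ q := Nat.cast_nonneg q
    have hs0 : (0 : ℝ) ≤ ∑ i ∈ L', (if x ∈ Small g b q i then (1 : ℝ) else 0) := by
      apply Finset.sum_nonneg
      intro i _; split_ifs <;> norm_num
    by_cases hc : q ≤ 2 * (Sens g b x).card
    · have hc' : (q : ℝ) ≤ 2 * ((Sens g b x).card : ℝ) := by exact_mod_cast hc
      have hκ0 : (0 : ℝ) ≤ κ := Nat.cast_nonneg κ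
      calc (q : ℝ) * ((E b x).card : ℝ) ≤ q * κ := mul_le_mul_of_nonneg_left hk1 hq0
        _ ≤ (2 * ((Sens g b x).card : ℝ)) * κ := mul_le_mul_of_nonneg_right hc' hκ0
        _ = 2 * κ * ((Sens g b x).card : ℝ) := by ring
        _ ≤ _ := by
          have := mul_nonneg hq0 hs0
          linarith
    · push Not at hc
      have h1 : ((E b x).card : ℝ) ≤ ∑ i ∈ L', (if x ∈ Small g b q i then (1 : ℝ) else 0) := by
        simp only [hE]
        rw [← Finset.sum_boole]
        apply Finset.sum_le_sum
        intro i _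
        by_cases h2 : piv g i x ∧ x i = b ∧ (pset b T x i ∩ L).card < κ
        · have h3 : x ∈ Small g b q i := by
            unfold Small
            rw [Finset.mem_filter, mem_GG]
            exact ⟨h2.1, h2.2.1, hc⟩
          rw [if_pos h2, if_pos h3]
        · rw [if_neg h2]; split_ifs <;> norm_num
      have h2 := mul_le_mul_of_nonneg_left h1 hq0
      have : (0 : ℝ) ≤ 2 * κ * ((Sens g b x).card : ℝ) := by positivity
      linarith
  have step3 : ∀ b, (q : ℝ) * ∑ x, ((E b x).card : ℝ) ≤ 2 * κ * ∑ x, ((Sens g b x).card : ℝ)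
      + 2 * K * ∑ i ∈ L', ((GG g i).card : ℝ) := by
    intro b
    have h1 : (q : ℝ) * ∑ x, ((E b x).card : ℝ) ≤ ∑ x, (2 * κ * ((Sens g b x).card : ℝ)
      + q * ∑ i ∈ L', (if x ∈ Small g b q i then (1 : ℝ) else 0)) := by
      rw [Finset.mul_sum]
      exact Finset.sum_le_sum (fun x _ => step2 b x)
    rw [Finset.sum_add_distrib, ← Finset.mul_sum, ← Finset.mul_sum, Finset.sum_comm] at h1
    refine le_trans h1 ?_
    have h2 : (q : ℝ) * ∑ i ∈ L', ∑ x, (if x ∈ Small g b q i then (1 : ℝ) else 0)
        ≤ 2 * K * ∑ i ∈ L', ((GG g i).card : ℝ) := by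
      rw [Finset.mul_sum, Finset.mul_sum]
      apply Finset.sum_le_sum
      intro i hi
      have h3 : ∑ x, (if x ∈ Small g b q i then (1 : ℝ) else 0) = ((Small g b q i).card : ℝ) := by
        rw [Finset.sum_boole]
        simp
      rw [h3]
      exact Small_le T g hT hm d hd b q i (hlow b i hi) K (hL i (hL' hi))
    linarith
  have hswap : ∀ b, ∑ i ∈ L', ∑ x, (if i ∈ E b x then (1 : ℝ) else 0) = ∑ x, ((E b x).card : ℝ) := by
    intro b
    rw [Finset.sum_comm]
    apply Finset.sum_congr rfl
    intro x _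
    rw [Finset.sum_boole]
    congr 2
    ext i
    rw [Finset.mem_filter]
    constructor
    · exact fun h => h.2
    · intro h
      refine ⟨?_, h⟩
      simp only [hE, Finset.mem_filter] at h
      exact h.1
  have hsum1 : ∑ i ∈ L', ((GG g i).card : ℝ) ≤
      2 * (∑ x, ((E false x).card : ℝ) + ∑ x, ((E true x).card : ℝ)) := by
    rw [← hswap false, ← hswap true, ← Finset.sum_add_distrib, Finset.mul_sum]
    exact Finset.sum_le_sum step1
  have hS := Sens_sum g
  have htot := total T g hT hm d hd
  have s3f := step3 false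
  have s3t := step3 true
  have hq0 : (0 : ℝ) ≤ q := Nat.cast_nonneg q
  have hκ0 : (0 : ℝ) ≤ κ := Nat.cast_nonneg κ
  set W := ∑ i ∈ L', ((GG g i).card : ℝ) with hW
  have hWnn : 0 ≤ W := by
    rw [hW]; apply Finset.sum_nonneg; intro i _; positivity
  have h5 : (q : ℝ) * W ≤ 2 * (2 * κ * (2 ^ n * Real.sqrt d) + 4 * K * W) := by
    have h6 := mul_le_mul_of_nonneg_left hsum1 hq0
    have h7 : 2 * (κ : ℝ) * (∑ x, ((Sens g false x).card : ℝ) + ∑ x, ((Sens g true x).card : ℝ))
        ≤ 2 * κ * (2 ^ n * Real.sqrt d) := by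
      rw [hS]
      exact mul_le_mul_of_nonneg_left htot (by positivity)
    nlinarith
  have h6 : 16 * K * W ≤ q * W := mul_le_mul_of_nonneg_right hq hWnn
  linarith

end Pool.Agent.H974R3
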