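import Pool.Agent.H974R3.Charge

set_option autoImplicit false

namespace Pool.Agent.H974R3

open Finset Function

variable {n : ℕ}

/-- average over one coordinate -/
noncomputable def av (j : Fin n) (F : (Fin n → Bool) → ℝ) : (Fin n → Bool) → ℝ :=
  fun x => (F (update x j false) + F (update x j true)) / 2

noncomputable def avl : List (Fin n) → ((Fin n → Bool) → ℝ) → (Fin n → Bool) → ℝ
  | [], F => F
  | j :: l, F => av j (avl l F)

structure Nice (F : (Fin n → Bool) → ℝ) : Prop where
  nn : ∀ x, 0 ≤ F x
  le1 : ∀ x, F x ≤ 1
  mono : Monotone F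

lemma upd_mono (j : Fin n) (b : Bool) {x y : Fin n → Bool} (h : x ≤ y) :
    update x j b ≤ update y j b := by
  intro k
  by_cases hk : k = j
  · subst hk; simp
  · simp [hk, h k]

lemma nice_av (j : Fin n) {F : (Fin n → Bool) → ℝ} (h : Nice F) : Nice (av j F) := by
  refine ⟨?_, ?_, ?_⟩
  · intro x; unfold av; have := h.nn (update x j false); have := h.nn (update x j true); linarith
  · intro x; unfold av; have := h.le1 (update x j false); have := h.le1 (update x j true); linarith
  · intro x y hxy
    unfold av
    have := h.mono (upd_mono j false hxy)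
    have := h.mono (upd_mono j true hxy)
    linarith

lemma nice_avl (l : List (Fin n)) {F : (Fin n → Bool) → ℝ} (h : Nice F) : Nice (avl l F) := by
  induction l with
  | nil => exact h
  | cons j l ih => exact nice_av j ih

/-- total discrete derivative -/
noncomputable def dd (F : (Fin n → Bool) → ℝ) (j : Fin n) : ℝ :=
  ∑ x, (F (update x j true) - F (update x j false))

lemma sum_avl_upd (l : List (Fin n)) (F : (Fin n → Bool) → ℝ) (j : Fin n) (b : Bool)
    (hj : j ∉ l) : ∑ x, avl l F (update x j b) = ∑ x, F (update x j b) := by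
  induction l with
  | nil => rfl
  | cons k l ih =>
    rw [List.mem_cons] at hj
    push Not at hj
    rw [← ih hj.2]
    have h := sum_double (fun x => avl l F (update x j b)) k
    have h2 : ∀ x, avl (k :: l) F (update x j b)
        = ((fun x => avl l F (update x j b)) (update x k false)
          + (fun x => avl l F (update x j b)) (update x k true)) / 2 := by
      intro x
      simp only [avl, av]
      rw [update_comm hj.1, update_comm hj.1]
    rw [Finset.sum_congr rfl (fun x _ => h2 x), ← Finset.sum_div, h]
    ring

lemma dd_avl (l : List (Fin n)) (F : (Fin n → Bool) → ℝ) (j : Fin n) (hj : j ∉ l) :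
    dd (avl l F) j = dd F j := by
  unfold dd
  rw [Finset.sum_sub_distrib, Finset.sum_sub_distrib, sum_avl_upd l F j true hj,
    sum_avl_upd l F j false hj]

noncomputable def VV (F : (Fin n → Bool) → ℝ) : ℝ := ∑ x, F x * (1 - F x)

lemma VV_av (j : Fin n) {F : (Fin n → Bool) → ℝ} (h : Nice F) :
    VV (av j F) ≤ VV F + dd F j / 4 := by
  unfold VV dd
  have h1 := sum_double (fun x => F x * (1 - F x)) j
  have h2 : ∑ x, av j F x * (1 - av j F x)
      = (∑ x, ((fun x => F x * (1 - F x)) (update x j false)
          + (fun x => F x * (1 - F x)) (update x j true))) / 2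
        + (∑ x, (F (update x j true) - F (update x j false)) ^ 2) / 4 := by
    rw [Finset.sum_div, Finset.sum_div, ← Finset.sum_add_distrib]
    apply Finset.sum_congr rfl
    intro x _
    simp only [av]
    ring
  rw [h2, h1]
  have h3 : ∑ x, (F (update x j true) - F (update x j false)) ^ 2
      ≤ ∑ x, (F (update x j true) - F (update x j false)) := by
    apply Finset.sum_le_sum
    intro x _
    have a1 := h.mono (upd_le j x)
    have a2 := h.le1 (update x j true)
    have a3 := h.nn (update x j false)
    nlinarith
  linarith

lemma poincare (l : List (Fin n)) (hl : l.Nodup) {F : (Fin n → Bool) → ℝ} (h : Nice F) :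
    VV (avl l F) ≤ VV F + (l.map (dd F)).sum / 4 := by
  induction l with
  | nil => simp [avl]
  | cons j l ih =>
    rw [List.nodup_cons] at hl
    have h1 := ih hl.2
    have h2 := VV_av j (nice_avl l h)
    rw [dd_avl l F j hl.1] at h2
    simp only [List.map_cons, List.sum_cons, avl]
    linarith

lemma avl_lower (l : List (Fin n)) {F : (Fin n → Bool) → ℝ} (h : Nice F)
    (z : Fin n → Bool) : ∀ y, (∀ k, k ∉ l → y k = z k) →
    (1 / 2 : ℝ) ^ (l.countP (fun j => z j)) * F z ≤ avl l F y := by
  induction l with
  | nil =>
    intro y hy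
    have : y = z := by funext k; exact hy k (by simp)
    subst this
    simp [avl]
  | cons j l ih =>
    intro y hy
    have hy' : ∀ k, k ∉ l → (update y j (z j)) k = z k := by
      intro k hk
      by_cases hkj : k = j
      · subst hkj; simp
      · rw [update_of_ne hkj]
        exact hy k (by simp [hkj, hk])
    have h1 := ih _ hy'
    rw [List.countP_cons]
    simp only [avl, av]
    have hn0 := (nice_avl l h).nn (update y j false)
    have hmono := (nice_avl l h).mono (upd_le j y)
    cases hz : z j with
    | true =>
      rw [hz] at h1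
      simp only [if_true]
      rw [pow_succ]
      nlinarith
    | false =>
      rw [hz] at h1
      simp only [Bool.false_eq_true, if_false, add_zero]
      linarith

lemma avl_upper (l : List (Fin n)) {F : (Fin n → Bool) → ℝ} (h : Nice F)
    (z : Fin n → Bool) : ∀ y, (∀ k, k ∉ l → y k = z k) →
    (1 / 2 : ℝ) ^ (l.countP (fun j => !z j)) * (1 - F z) ≤ 1 - avl l F y := by
  induction l with
  | nil =>
    intro y hy
    have : y = z := by funext k; exact hy k (by simp)
    subst this
    simp [avl]
  | cons j l ih =>
    intro y hy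
    have hy' : ∀ k, k ∉ l → (update y j (z j)) k = z k := by
      intro k hk
      by_cases hkj : k = j
      · subst hkj; simp
      · rw [update_of_ne hkj]
        exact hy k (by simp [hkj, hk])
    have h1 := ih _ hy'
    rw [List.countP_cons]
    simp only [avl, av]
    have hn0 := (nice_avl l h).le1 (update y j true)
    have hmono := (nice_avl l h).mono (upd_le j y)
    cases hz : z j with
    | true =>
      rw [hz] at h1
      simp only [Bool.not_true, Bool.false_eq_true, if_false, add_zero]
      linarith
    | false =>
      rw [hz] at h1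
      simp only [Bool.not_false, if_true]
      rw [pow_succ]
      nlinarith

/-- indicator -/
def ind (g : (Fin n → Bool) → Bool) : (Fin n → Bool) → ℝ := fun x => if g x = true then 1 else 0

lemma nice_ind {g : (Fin n → Bool) → Bool} (hm : Monotone g) : Nice (ind g) := by
  refine ⟨?_, ?_, ?_⟩
  · intro x; unfold ind; split_ifs <;> norm_num
  · intro x; unfold ind; split_ifs <;> norm_num
  · intro x y hxy
    have := hm hxy
    unfold ind
    split_ifs with h1 h2 h2
    · norm_num
    · rw [h1] at this
      exact absurd (this rfl) h2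
    · norm_num
    · norm_num

lemma VV_ind (g : (Fin n → Bool) → Bool) : VV (ind g) = 0 := by
  unfold VV ind
  apply Finset.sum_eq_zero
  intro x _
  split_ifs <;> norm_num

lemma dd_ind (g : (Fin n → Bool) → Bool) (hm : Monotone g) (j : Fin n) :
    dd (ind g) j = ((GG g j).card : ℝ) := by
  unfold GG
  rw [piv_card g hm j]
  unfold dd ind cnt rs
  rw [Finset.sum_sub_distrib]

/-- fixing free coordinates -/
lemma sum_fix (S : Finset (Fin n)) (σ : Fin n → Bool) (φ : (Fin n → Bool) → ℝ)
    (hφ : ∀ j ∈ S, ∀ y b, φ (update y j b) = φ y) :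
    ∑ y, φ y = 2 ^ S.card * ∑ y, (if ∀ j ∈ S, y j = σ j then φ y else 0) := by
  induction S using Finset.induction_on with
  | empty => simp
  | insert k S hk ih =>
    rw [ih (fun j hj => hφ j (Finset.mem_insert_of_mem hj)), Finset.card_insert_of_notMem hk,
      pow_succ, mul_assoc]
    congr 1
    rw [← sum_double _ k]
    apply Finset.sum_congr rfl
    intro y _
    have hk1 : ∀ b : Bool, (∀ j ∈ insert k S, (update y k b) j = σ j) ↔
        (b = σ k ∧ ∀ j ∈ S, y j = σ j) := by
      intro b
      rw [Finset.forall_mem_insert]
      simp only [update_self]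
      apply and_congr_right
      intro _
      apply forall₂_congr
      intro j hj
      rw [update_of_ne (show j ≠ k by rintro rfl; exact hk hj)]
    simp only [hk1, hφ k (Finset.mem_insert_self k S)]
    cases hσ : σ k with
    | true => simp
    | false => simp

lemma countP_toList_le (s t : Finset (Fin n)) (p : Fin n → Bool)
    (h : ∀ j ∈ s, p j = true → j ∈ t) : s.toList.countP p ≤ t.card := by
  classical
  rw [List.countP_eq_length_filter]
  rw [← List.toFinset_card_of_nodup (s.nodup_toList.filter p)]
  apply Finset.card_le_card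
  intro j hj
  rw [List.mem_toFinset, List.mem_filter, Finset.mem_toList] at hj
  exact h j hj.1 hj.2

theorem dich (T : DT n) (g : (Fin n → Bool) → Bool) (hT : Comp T g) (hm : Monotone g)
    (d : ℕ) (hd : T.depth ≤ d) (K : ℝ) (L : Finset (Fin n))
    (hL : ∀ j ∈ L, 2 ^ d * ((GG g j).card : ℝ) ≤ K * (2 * 2 ^ n))
    (κ : ℕ) (hκ : (2 * κ + 1) * K < 2 ^ κ) (x : Fin n → Bool) (i : Fin n) (hi : i ∈ L)
    (hp : piv g i x) :
    (pset false T x i ∩ L).card < κ ∨ (pset true T x i ∩ L).card < κ := by
  classical
  by_contra hcon
  push Not at hcon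
  obtain ⟨LB, hLB, hLBc⟩ := Finset.exists_subset_card_eq hcon.1
  obtain ⟨LA, hLA, hLAc⟩ := Finset.exists_subset_card_eq hcon.2
  have hA : ∀ j ∈ LA, x j = true ∧ j ∈ L ∧ j ≠ i ∧ j ∈ pset true T x i := by
    intro j hj
    have := Finset.mem_inter.mp (hLA hj)
    refine ⟨pset_val _ _ _ _ _ this.1, this.2, ?_, this.1⟩
    rintro rfl
    exact pset_ne _ _ _ _ this.1
  have hB : ∀ j ∈ LB, x j = false ∧ j ∈ L ∧ j ≠ i ∧ j ∈ pset false T x i := by
    intro j hj
    have := Finset.mem_inter.mp (hLB hj)
    refine ⟨pset_val _ _ _ _ _ this.1, this.2, ?_, this.1⟩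
    rintro rfl
    exact pset_ne _ _ _ _ this.1
  have hAB : ∀ j ∈ LB, j ∉ LA := by
    intro j hj hj'
    have h1 := (hA j hj').1
    have h2 := (hB j hj).1
    rw [h1] at h2
    exact absurd h2 (by decide)
  set D := fib g T x i with hD
  have hDc : (2 : ℝ) * 2 ^ n ≤ 2 ^ d * (D.card : ℝ) := fib_card T g hT hm d hd x i hp
  set op : (Fin n → Bool) → (Fin n → Bool) :=
    fun y j => if j ∈ LA then true else if j ∈ LB then false else y j with hop
  set φ : (Fin n → Bool) → ℝ := fun y => if op y ∈ D then 1 else 0 with hφ
  have hcardU : (LA ∪ LB).card = 2 * κ := by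
    rw [Finset.card_union_of_disjoint, hLAc, hLBc]
    · ring
    · rw [Finset.disjoint_left]
      intro j hj hj'
      exact hAB j hj' hj
  have hsum := sum_fix (LA ∪ LB) x φ (by
    intro j hj y b
    have : op (update y j b) = op y := by
      funext k
      simp only [hop]
      by_cases hk : k = j
      · subst hk
        rcases Finset.mem_union.mp hj with h | h
        · simp [h]
        · simp [h]
      · rw [update_of_ne hk]
    simp only [hφ, this])
  have hDle : (D.card : ℝ) ≤ ∑ y, (if ∀ j ∈ LA ∪ LB, y j = x j then φ y else 0) := by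
    have : (D.card : ℝ) = ∑ y, if y ∈ D then (1 : ℝ) else 0 := by
      rw [Finset.sum_boole]
      simp
    rw [this]
    apply Finset.sum_le_sum
    intro y _
    by_cases hy : y ∈ D
    · have hyC : inC T x i y := by
        rw [hD] at hy
        unfold fib at hy
        exact (Finset.mem_filter.mp hy).2.2
      have hag : ∀ j ∈ LA ∪ LB, y j = x j := by
        intro j hj
        rcases Finset.mem_union.mp hj with h | h
        · rw [(hA j h).1]; exact hyC true j (hA j h).2.2.2
        · rw [(hB j h).1]; exact hyC false j (hB j h).2.2.2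
      have hopy : op y = y := by
        funext k
        simp only [hop]
        by_cases h1 : k ∈ LA
        · rw [if_pos h1, hag k (Finset.mem_union_left _ h1), (hA k h1).1]
        · rw [if_neg h1]
          by_cases h2 : k ∈ LB
          · rw [if_pos h2, hag k (Finset.mem_union_right _ h2), (hB k h2).1]
          · rw [if_neg h2]
      rw [if_pos hy, if_pos hag]
      simp only [hφ, hopy, if_pos hy]
      exact le_refl _
    · rw [if_neg hy]
      split_ifs
      · simp only [hφ]; split_ifs <;> norm_num
      · exact le_refl _
  have hφsum : 2 ^ (2 * κ) * (D.card : ℝ) ≤ ∑ y, φ y := by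
    rw [hsum, hcardU]
    exact mul_le_mul_of_nonneg_left hDle (by positivity)
  set s := insert i (LA ∪ LB) with hs
  set ε : ℝ := (1 / 2) ^ (κ + 1) with hε
  have hεpos : 0 < ε := by positivity
  have hεle : ε ≤ 1 / 2 := by
    rw [hε, pow_succ]
    have : ((1 : ℝ) / 2) ^ κ ≤ 1 := pow_le_one₀ (by norm_num) (by norm_num)
    linarith
  have hnice := nice_ind hm
  have hlow : ∑ y, φ y * (ε / 2) ≤ VV (avl s.toList (ind g)) := by
    unfold VV
    apply Finset.sum_le_sum
    intro y _
    have hn := nice_avl s.toList hnice
    have hn0 := hn.nn y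
    have hn1 := hn.le1 y
    by_cases hy : op y ∈ D
    · have hpz : piv g i (op y) := by
        rw [hD] at hy
        unfold fib at hy
        exact (Finset.mem_filter.mp hy).2.1
      rw [piv_iff hm] at hpz
      have hoff : ∀ b : Bool, ∀ k, k ∉ s.toList → y k = (update (op y) i b) k := by
        intro b k hk
        rw [Finset.mem_toList, hs, Finset.mem_insert, Finset.mem_union] at hk
        push Not at hk
        rw [update_of_ne hk.1]
        simp [hop, hk.2.1, hk.2.2]
      have hlo := avl_lower s.toList hnice (update (op y) i true) y (hoff true)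
      have hup := avl_upper s.toList hnice (update (op y) i false) y (hoff false)
      have hc1 : s.toList.countP (fun j => update (op y) i true j) ≤ κ + 1 := by
        refine le_trans (countP_toList_le s (insert i LA) _ ?_) ?_
        · intro j hj hv
          rw [Finset.mem_insert]
          by_cases hji : j = i
          · left; exact hji
          · right
            rw [update_of_ne hji] at hv
            by_contra hjA
            rw [hs, Finset.mem_insert, Finset.mem_union] at hj
            rcases hj with h | h | h
            · exact hji h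
            · exact hjA h
            · simp [hop, hjA, h] at hv
        · exact le_trans (Finset.card_insert_le _ _) (by rw [hLAc])
      have hc2 : s.toList.countP (fun j => !(update (op y) i false j)) ≤ κ + 1 := by
        refine le_trans (countP_toList_le s (insert i LB) _ ?_) ?_
        · intro j hj hv
          rw [Finset.mem_insert]
          by_cases hji : j = i
          · left; exact hji
          · right
            simp only [update_of_ne hji] at hv
            by_contra hjB
            rw [hs, Finset.mem_insert, Finset.mem_union] at hj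
            rcases hj with h | h | h
            · exact hji h
            · simp [hop, h] at hv
            · exact hjB h
        · exact le_trans (Finset.card_insert_le _ _) (by rw [hLBc])
      have e1 : ε ≤ (1 / 2 : ℝ) ^ (s.toList.countP (fun j => update (op y) i true j)) := by
        rw [hε]
        exact pow_le_pow_of_le_one (by norm_num) (by norm_num) hc1
      have e2 : ε ≤ (1 / 2 : ℝ) ^ (s.toList.countP (fun j => !(update (op y) i false j))) := by
        rw [hε]
        exact pow_le_pow_of_le_one (by norm_num) (by norm_num) hc2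
      have i1 : ind g (update (op y) i true) = 1 := by unfold ind; rw [if_pos hpz.1]
      have i2 : ind g (update (op y) i false) = 0 := by
        unfold ind; rw [if_neg]; rw [hpz.2]; decide
      rw [i1, mul_one] at hlo
      rw [i2, sub_zero, mul_one] at hup
      simp only [hφ, if_pos hy, one_mul]
      nlinarith
    · simp only [hφ, if_neg hy, zero_mul]
      exact mul_nonneg hn0 (by linarith)
  have hpo := poincare s.toList s.nodup_toList hnice
  rw [VV_ind, Finset.sum_map_toList, zero_add] at hpo
  rw [← Finset.sum_mul] at hlow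
  have hGs : 2 ^ d * ∑ j ∈ s, dd (ind g) j ≤ (2 * κ + 1) * (K * (2 * 2 ^ n)) := by
    rw [Finset.mul_sum]
    have h1 : ∀ j ∈ s, 2 ^ d * dd (ind g) j ≤ K * (2 * 2 ^ n) := by
      intro j hj
      rw [dd_ind g hm]
      apply hL
      rw [hs, Finset.mem_insert, Finset.mem_union] at hj
      rcases hj with h | h | h
      · rw [h]; exact hi
      · exact (hA j h).2.1
      · exact (hB j h).2.1
    have h2 := Finset.sum_le_card_nsmul s _ _ h1
    refine le_trans h2 ?_
    rw [nsmul_eq_mul]
    have h3 : (s.card : ℝ) ≤ 2 * κ + 1 := by
      have : s.card ≤ 2 * κ + 1 := by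
        rw [hs]
        exact le_trans (Finset.card_insert_le _ _) (by rw [hcardU])
      exact_mod_cast this
    have h4 : 0 ≤ K * (2 * 2 ^ n) := by
      refine le_trans ?_ (hL i hi)
      positivity
    exact mul_le_mul_of_nonneg_right h3 h4
  have hfin : (2 : ℝ) ^ κ * (2 * 2 ^ n) ≤ ((2 * κ + 1) * K) * (2 * 2 ^ n) := by
    have t1 : 2 ^ (2 * κ) * (D.card : ℝ) * (ε / 2) ≤ (∑ j ∈ s, dd (ind g) j) / 4 := by
      refine le_trans (mul_le_mul_of_nonneg_right hφsum (by positivity)) (le_trans hlow hpo)
    have t2 : (2 : ℝ) ^ (2 * κ) * (ε / 2) = 2 ^ κ / 4 := by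
      have h4 : (2 : ℝ) ^ (2 * κ) = 2 ^ κ * 2 ^ κ := by
        rw [two_mul, pow_add]
      have h5 : ε = 1 / (2 ^ κ * 2) := by
        rw [hε, ← pow_succ, one_div_pow]
      rw [h4, h5]
      have : (2 : ℝ) ^ κ ≠ 0 := by positivity
      field_simp
      norm_num
    have t3 : 2 ^ κ * (D.card : ℝ) ≤ ∑ j ∈ s, dd (ind g) j := by
      have : 2 ^ (2 * κ) * (D.card : ℝ) * (ε / 2) = (2 ^ κ * (D.card : ℝ)) / 4 := by
        rw [mul_assoc, mul_comm (D.card : ℝ), ← mul_assoc, t2]; ring
      rw [this] at t1
      linarith
    have hd0 : (0 : ℝ) < 2 ^ d := by positivity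
    have hκ0 : (0 : ℝ) < 2 ^ κ := by positivity
    calc (2 : ℝ) ^ κ * (2 * 2 ^ n) ≤ 2 ^ κ * (2 ^ d * (D.card : ℝ)) :=
          mul_le_mul_of_nonneg_left hDc hκ0.le
      _ = 2 ^ d * (2 ^ κ * (D.card : ℝ)) := by ring
      _ ≤ 2 ^ d * ∑ j ∈ s, dd (ind g) j := mul_le_mul_of_nonneg_left t3 hd0.le
      _ ≤ (2 * κ + 1) * (K * (2 * 2 ^ n)) := hGs
      _ = _ := by ring
  have hpos : (0 : ℝ) < 2 * 2 ^ n := by positivity
  have := le_of_mul_le_mul_right hfin hpos
  linarith

end Pool.Agent.H974R3
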