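import Pool.Agent.H974R3.Basic

set_option autoImplicit false

namespace Pool.Agent.H974R3

open Finset Function

variable {n : ℕ}

noncomputable def cnt (h : (Fin n → Bool) → Bool) : ℝ := ∑ x, if h x = true then (1 : ℝ) else 0

lemma cnt_split (g : (Fin n → Bool) → Bool) (i : Fin n) :
    2 * cnt g = cnt (rs g i false) + cnt (rs g i true) := by
  unfold cnt rs
  rw [← Finset.sum_add_distrib]
  exact (sum_double (fun x => if g x = true then (1 : ℝ) else 0) i).symm

lemma gran (T : DT n) : ∀ (g : (Fin n → Bool) → Bool), Comp T g → ∀ k : ℕ, T.depth ≤ k →
    ∃ m : ℤ, cnt g * 2 ^ k = m * 2 ^ n := by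
  induction T with
  | leaf =>
    intro g hg k _
    cases h : g (fun _ => false) with
    | true =>
      refine ⟨2 ^ k, ?_⟩
      have : cnt g = 2 ^ n := by
        unfold cnt
        have : ∀ x, g x = true := fun x => by rw [hg x (fun _ => false), h]
        simp [this]
      rw [this]; push_cast; ring
    | false =>
      refine ⟨0, ?_⟩
      have : cnt g = 0 := by
        unfold cnt
        have : ∀ x, g x = false := fun x => by rw [hg x (fun _ => false), h]
        simp [this]
      rw [this]; simp
  | node i l r ihl ihr =>
    intro g hg k hk
    obtain ⟨_, hl, hr⟩ := hg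
    simp only [DT.depth] at hk
    obtain ⟨m, rfl⟩ : ∃ m, k = m + 1 := ⟨k - 1, by omega⟩
    obtain ⟨m0, h0⟩ := ihl _ hl m (by omega)
    obtain ⟨m1, h1⟩ := ihr _ hr m (by omega)
    refine ⟨m0 + m1, ?_⟩
    have := cnt_split g i
    push_cast
    rw [pow_succ]
    linear_combination (2 ^ m : ℝ) * this + h0 + h1

def fib (g : (Fin n → Bool) → Bool) (T : DT n) (x : Fin n → Bool) (i : Fin n) :
    Finset (Fin n → Bool) := univ.filter (fun y => piv g i y ∧ inC T x i y)

lemma card_filter_real (p : (Fin n → Bool) → Prop) [DecidablePred p] :
    ((univ.filter p).card : ℝ) = ∑ y, if p y then (1 : ℝ) else 0 := by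
  rw [Finset.sum_boole]

lemma piv_card (g : (Fin n → Bool) → Bool) (hg : Monotone g) (i : Fin n) :
    ((univ.filter (piv g i)).card : ℝ) = cnt (rs g i true) - cnt (rs g i false) := by
  rw [card_filter_real]
  unfold cnt
  rw [← Finset.sum_sub_distrib]
  apply Finset.sum_congr rfl
  intro x _
  have h := piv_iff hg i x
  have h2 := hg (upd_le i x)
  unfold rs
  by_cases hp : piv g i x
  · rw [if_pos hp]
    rw [h] at hp
    simp [hp.1, hp.2]
  · rw [if_neg hp]
    unfold piv at hp
    push Not at hp
    rw [hp]; ring

lemma fib_card (T : DT n) : ∀ (g : (Fin n → Bool) → Bool), Comp T g → Monotone g →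
    ∀ k : ℕ, T.depth ≤ k → ∀ x i, piv g i x →
    (2 : ℝ) * 2 ^ n ≤ 2 ^ k * ((fib g T x i).card : ℝ) := by
  induction T with
  | leaf =>
    intro g hg _ k _ x i hp
    exact absurd (hg _ _) hp
  | node j l r ihl ihr =>
    intro g hg hm k hk x i hp
    obtain ⟨_, hl, hr⟩ := hg
    simp only [DT.depth] at hk
    obtain ⟨m, rfl⟩ : ∃ m, k = m + 1 := ⟨k - 1, by omega⟩
    by_cases hji : j = i
    · subst hji
      have e1 : fib g (DT.node j l r) x j = univ.filter (piv g j) := by
        unfold fib
        apply Finset.filter_congr
        intro y _
        simp [inC, pset]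
      rw [e1, piv_card g hm j]
      obtain ⟨m0, h0⟩ := gran _ _ hl m (by omega)
      obtain ⟨m1, h1⟩ := gran _ _ hr m (by omega)
      have hpos : (0 : ℝ) < cnt (rs g j true) - cnt (rs g j false) := by
        rw [← piv_card g hm j]
        have : x ∈ univ.filter (piv g j) := by simp [hp]
        exact_mod_cast Finset.card_pos.mpr ⟨x, this⟩
      have h2 : ((m1 - m0 : ℤ) : ℝ) * 2 ^ n = (cnt (rs g j true) - cnt (rs g j false)) * 2 ^ m := by
        push_cast
        linarith
      have h3 : (0 : ℝ) < ((m1 - m0 : ℤ) : ℝ) := by
        by_contra hcon
        push Not at hcon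
        have : ((m1 - m0 : ℤ) : ℝ) * 2 ^ n ≤ 0 :=
          mul_nonpos_of_nonpos_of_nonneg hcon (by positivity)
        rw [h2] at this
        have : 0 < (cnt (rs g j true) - cnt (rs g j false)) * 2 ^ m := by positivity
        linarith
      have h4 : (1 : ℝ) ≤ ((m1 - m0 : ℤ) : ℝ) := by
        have : (0 : ℤ) < m1 - m0 := by exact_mod_cast h3
        exact_mod_cast this
      have h5 : (2 : ℝ) ^ n ≤ ((m1 - m0 : ℤ) : ℝ) * 2 ^ n := by
        nlinarith [pow_pos (show (0 : ℝ) < 2 by norm_num) n]
      rw [pow_succ]
      nlinarith
    · -- general step
      have step : ∀ (c : Bool) (T' : DT n), x j = c →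
          (∀ b, pset b (DT.node j l r) x i = if b = c then insert j (pset b T' x i)
            else pset b T' x i) →
          (2 : ℝ) * 2 ^ n ≤ 2 ^ m * ((fib (rs g j c) T' x i).card : ℝ) →
          (2 : ℝ) * 2 ^ n ≤ 2 ^ (m + 1) * ((fib g (DT.node j l r) x i).card : ℝ) := by
        intro c T' hxc hps hih
        have hle : ((fib (rs g j c) T' x i).card : ℝ) ≤ 2 * ((fib g (DT.node j l r) x i).card : ℝ) := by
          unfold fib
          rw [card_filter_real, card_filter_real, ← sum_double _ j]
          apply Finset.sum_le_sum
          intro y _
          split_ifs with hA hB hC hC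
          all_goals try norm_num
          -- y in the small fibre but neither update is in the big one
          have hgood : piv g i (update y j c) ∧ inC (DT.node j l r) x i (update y j c) := by
            constructor
            · have := hA.1
              unfold piv rs at this
              unfold piv
              rw [update_comm hji, update_comm hji]
              exact this
            · intro b k hk
              rw [hps b] at hk
              by_cases hkj : k = j
              · subst hkj
                by_cases hbc : b = c
                · simp [hbc]
                · rw [if_neg hbc] at hk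
                  have := pset_val b T' x i k hk
                  rw [hxc] at this
                  exact absurd this.symm hbc
              · rw [update_of_ne hkj]
                apply hA.2 b k
                split_ifs at hk
                · exact (Finset.mem_insert.mp hk).resolve_left hkj
                · exact hk
          cases c
          · exact absurd hgood hB
          · exact absurd hgood hC
        have : (0 : ℝ) < 2 ^ m := by positivity
        rw [pow_succ]
        nlinarith
      cases hx : x j with
      | true =>
        apply step true r hx
        · intro b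
          simp only [pset, hji, if_false, hx, if_true]
        · apply ihr _ hr (mono_rs hm j true) m (by omega) x i
          unfold piv rs
          rw [update_comm (Ne.symm hji), update_comm (Ne.symm hji)]
          have : update x j true = x := by rw [← hx]; exact update_eq_self j x
          rw [this]; exact hp
      | false =>
        apply step false l hx
        · intro b
          simp [pset, hji, hx]
        · apply ihl _ hl (mono_rs hm j false) m (by omega) x i
          unfold piv rs
          rw [update_comm (Ne.symm hji), update_comm (Ne.symm hji)]
          have : update x j false = x := by rw [← hx]; exact update_eq_self j x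
          rw [this]; exact hp

end Pool.Agent.H974R3
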