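import Pool.Agent.H974R3.Count

set_option autoImplicit false

namespace Pool.Agent.H974R3

open Finset Function

variable {n : ℕ}

lemma exists_tree (f : (Fin n → Bool) → Bool) (d : ℕ)
    (hP : ∀ P : ℕ → ((Fin n → Bool) → Bool) → Prop,
          (∀ (k : ℕ) (b : Bool), P k (fun _ => b)) →
          (∀ (k : ℕ) (g : (Fin n → Bool) → Bool) (i : Fin n),
            P k (fun x => g (Function.update x i false)) →
            P k (fun x => g (Function.update x i true)) → P (k + 1) g) →
          P d f) : ∃ T : DT n, T.depth ≤ d ∧ Comp T f := by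
  apply hP (fun k g => ∃ T : DT n, T.depth ≤ k ∧ Comp T g)
  · intro k b
    exact ⟨DT.leaf, Nat.zero_le _, fun _ _ => rfl⟩
  · rintro k g i ⟨T0, hd0, hc0⟩ ⟨T1, hd1, hc1⟩
    by_cases hu : ∃ x, g (update x i true) ≠ g (update x i false)
    · refine ⟨DT.node i T0 T1, ?_, hu, hc0, hc1⟩
      simp only [DT.depth]
      omega
    · push Not at hu
      refine ⟨T0, by omega, ?_⟩
      have : (fun x => g (update x i false)) = g := by
        funext x
        cases hx : x i with
        | false =>
          have : update x i false = x := by rw [← hx]; exact update_eq_self i x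
          rw [this]
        | true =>
          have : update x i true = x := by rw [← hx]; exact update_eq_self i x
          rw [← hu x, this]
      rw [this] at hc0
      exact hc0

lemma layer (K : ℝ) (hK : 1 ≤ K) (J : ℕ) :
    (1 : ℝ) ≤ ∑ j ∈ range (J + 1), (if K ≤ 2 ^ j then 2 * K / 2 ^ j else 0) + K / 2 ^ J := by
  induction J with
  | zero =>
    simp only [zero_add, Finset.sum_range_one, pow_zero, div_one]
    split_ifs <;> linarith
  | succ J ih =>
    rw [Finset.sum_range_succ]
    by_cases h : K ≤ 2 ^ (J + 1)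
    · rw [if_pos h]
      have h1 : 2 * K / 2 ^ (J + 1) = K / 2 ^ J := by
        rw [pow_succ]
        have : (2 : ℝ) ^ J ≠ 0 := by positivity
        field_simp
      rw [h1]
      have : 0 ≤ K / 2 ^ (J + 1) := by positivity
      linarith
    · rw [if_neg h]
      push Not at h
      have h1 : 1 ≤ K / 2 ^ (J + 1) := by
        rw [le_div_iff₀ (by positivity)]
        linarith
      have h2 : 0 ≤ ∑ j ∈ range (J + 1), (if K ≤ 2 ^ j then 2 * K / 2 ^ j else 0) := by
        apply Finset.sum_nonneg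
        intro j _
        split_ifs
        · positivity
        · exact le_refl _
      linarith

lemma geo (m : ℕ) : ∑ j ∈ range m, ((2 * j + 6 : ℝ) / 2 ^ j) = 16 - (4 * m + 16) / 2 ^ m := by
  induction m with
  | zero => simp
  | succ m ih =>
    rw [Finset.sum_range_succ, ih, pow_succ]
    have : (2 : ℝ) ^ m ≠ 0 := by positivity
    push_cast
    field_simp
    ring

lemma kap (j : ℕ) : (2 * ((2 * j + 6 : ℕ) : ℝ) + 1) * 2 ^ j < 2 ^ (2 * j + 6) := by
  have h1 : (2 : ℝ) ^ (2 * j + 6) = (64 * 2 ^ j) * 2 ^ j := by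
    rw [pow_add, two_mul, pow_add]; norm_num; ring
  rw [h1]
  apply mul_lt_mul_of_pos_right _ (by positivity)
  have h2 : ((j : ℝ) + 1) ≤ 2 ^ j := by
    have : j + 1 ≤ 2 ^ j := Nat.lt_two_pow_self
    exact_mod_cast this
  push_cast
  linarith

lemma low_est (d : ℕ) : Real.sqrt d * ((5 / 4) ^ d * 4 ^ (d / 8)) ≤ 8 * 2 ^ d := by
  set q := d / 8 with hq
  have h0 : d ≤ 8 * q + 8 := by omega
  have h1 : 8 * q ≤ d := by omega
  have h2 : Real.sqrt d ≤ 8 * 2 ^ q := by
    have e1 : Real.sqrt d ≤ (d : ℝ) ∨ d = 0 := by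
      rcases Nat.eq_zero_or_pos d with h | h
      · right; exact h
      · left
        rw [Real.sqrt_le_left (Nat.cast_nonneg d)]
        have : (1 : ℝ) ≤ d := by exact_mod_cast h
        nlinarith
    rcases e1 with e1 | e1
    · have e2 : (q : ℝ) + 1 ≤ 2 ^ q := by
        have : q + 1 ≤ 2 ^ q := Nat.lt_two_pow_self
        exact_mod_cast this
      have e3 : (d : ℝ) ≤ 8 * q + 8 := by exact_mod_cast h0
      linarith
    · rw [e1]; simp
  have h3 : ((5 / 4 : ℝ)) ^ d * 8 ^ q ≤ 2 ^ d := by
    have e1 : (8 : ℝ) ^ q ≤ ((8 / 5 : ℝ)) ^ d := by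
      calc (8 : ℝ) ^ q ≤ ((8 / 5 : ℝ) ^ 8) ^ q := by
            apply pow_le_pow_left₀ (by norm_num)
            norm_num
        _ = (8 / 5 : ℝ) ^ (8 * q) := by rw [pow_mul]
        _ ≤ (8 / 5 : ℝ) ^ d := pow_le_pow_right₀ (by norm_num) h1
    calc ((5 / 4 : ℝ)) ^ d * 8 ^ q ≤ (5 / 4 : ℝ) ^ d * (8 / 5 : ℝ) ^ d :=
          mul_le_mul_of_nonneg_left e1 (by positivity)
      _ = 2 ^ d := by rw [← mul_pow]; norm_num
  calc Real.sqrt d * ((5 / 4) ^ d * 4 ^ q) ≤ (8 * 2 ^ q) * ((5 / 4) ^ d * 4 ^ q) :=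
        mul_le_mul_of_nonneg_right h2 (by positivity)
    _ = 8 * ((5 / 4) ^ d * 8 ^ q) := by
        have : (8 : ℝ) ^ q = 2 ^ q * 4 ^ q := by rw [← mul_pow]; norm_num
        rw [this]; ring
    _ ≤ _ := by linarith

lemma alg (q D N P W c s : ℝ) (hN : 0 < N) (hP : 0 < P) (hD : 0 < D)
    (h : q * W ≤ 8 * c * (N * s)) :
    q * (2 / P * (D / (2 * N) * W)) ≤ 8 * (c / P) * (D * s) := by
  have h1 : q * (2 / P * (D / (2 * N) * W)) = (D / (P * N)) * (q * W) := by
    field_simp
  have h2 : 8 * (c / P) * (D * s) = (D / (P * N)) * (8 * c * (N * s)) := by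
    field_simp
  rw [h1, h2]
  exact mul_le_mul_of_nonneg_left h (by positivity)

theorem tree_bound (T : DT n) (g : (Fin n → Bool) → Bool) (hT : Comp T g) (hm : Monotone g)
    (d : ℕ) (hd : T.depth ≤ d) (R : Finset (Fin n)) (hR : ∀ i ∈ R, ∃ x, piv g i x) :
    (R.card : ℝ) * Real.sqrt d ≤ 2400 * 2 ^ d := by
  classical
  set K : Fin n → ℝ := fun i => 2 ^ d * ((GG g i).card : ℝ) / (2 * 2 ^ n) with hK
  have hn0 : (0 : ℝ) < 2 * 2 ^ n := by positivity
  have hd0 : (0 : ℝ) < 2 ^ d := by positivity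
  have hs0 : 0 ≤ Real.sqrt d := Real.sqrt_nonneg _
  have hss : Real.sqrt d * Real.sqrt d = d := Real.mul_self_sqrt (Nat.cast_nonneg d)
  have hK0 : ∀ i, 0 ≤ K i := fun i => by positivity
  have hK1 : ∀ i ∈ R, 1 ≤ K i := by
    intro i hi
    obtain ⟨x, hx⟩ := hR i hi
    have h1 := fib_card T g hT hm d hd x i hx
    have h2 : ((fib g T x i).card : ℝ) ≤ ((GG g i).card : ℝ) := by
      have : fib g T x i ⊆ GG g i := by
        intro y hy
        unfold fib at hy
        rw [mem_GG]
        exact (Finset.mem_filter.mp hy).2.1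
      exact_mod_cast Finset.card_le_card this
    simp only [hK]
    rw [le_div_iff₀ hn0]
    nlinarith
  have hKsum : ∀ S : Finset (Fin n), ∑ i ∈ S, K i = 2 ^ d / (2 * 2 ^ n) * ∑ i ∈ S, ((GG g i).card : ℝ) := by
    intro S
    rw [Finset.mul_sum]
    apply Finset.sum_congr rfl
    intro i _
    simp only [hK]
    ring
  have hKtot : ∀ S : Finset (Fin n), ∑ i ∈ S, K i ≤ 2 ^ d * Real.sqrt d / 2 := by
    intro S
    have h1 : ∑ i ∈ S, K i ≤ ∑ i, K i :=
      Finset.sum_le_sum_of_subset_of_nonneg (Finset.subset_univ S) (fun i _ _ => hK0 i)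
    refine le_trans h1 ?_
    rw [hKsum]
    have h2 := total T g hT hm d hd
    calc 2 ^ d / (2 * 2 ^ n) * ∑ i, ((GG g i).card : ℝ)
        ≤ 2 ^ d / (2 * 2 ^ n) * (2 ^ n * Real.sqrt d) :=
          mul_le_mul_of_nonneg_left h2 (by positivity)
      _ = 2 ^ d * Real.sqrt d / 2 := by
          have : (2 : ℝ) ^ n ≠ 0 := by positivity
          field_simp
  by_cases hsmall : d < 128
  · have h1 : (R.card : ℝ) ≤ 2 ^ d * Real.sqrt d / 2 := by
      refine le_trans ?_ (hKtot R)
      have h2 := Finset.card_nsmul_le_sum R K 1 hK1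
      simpa using h2
    have h2 : (d : ℝ) ≤ 128 := by exact_mod_cast hsmall.le
    calc (R.card : ℝ) * Real.sqrt d ≤ (2 ^ d * Real.sqrt d / 2) * Real.sqrt d :=
          mul_le_mul_of_nonneg_right h1 hs0
      _ = 2 ^ d * (Real.sqrt d * Real.sqrt d) / 2 := by ring
      _ = 2 ^ d * d / 2 := by rw [hss]
      _ ≤ 2400 * 2 ^ d := by nlinarith
  · push Not at hsmall
    set q := d / 8 with hq
    have hq16 : 16 ≤ q := by omega
    set J := Nat.log 2 (q / 16) with hJ
    have hJ1 : 2 ^ J ≤ q / 16 := Nat.pow_log_le_self 2 (by omega)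
    have hJ2 : q / 16 < 2 ^ (J + 1) := Nat.lt_pow_succ_log_self (by norm_num) _
    have hJ3 : (16 : ℝ) * 2 ^ J ≤ q := by
      have : 16 * 2 ^ J ≤ q := by omega
      exact_mod_cast this
    have hJ4 : (q : ℝ) ≤ 32 * 2 ^ J := by
      have : q ≤ 32 * 2 ^ J := by
        rw [pow_succ] at hJ2
        omega
      exact_mod_cast this
    have hqpos : (0 : ℝ) < q := by
      have : 0 < q := by omega
      exact_mod_cast this
    set R' := R \ (Low true q T g ∪ Low false q T g) with hR'
    have hlowb : ∀ b, ∀ i ∈ R', i ∉ Low b q T g := by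
      intro b i hi
      rw [hR', Finset.mem_sdiff, Finset.mem_union] at hi
      push Not at hi
      cases b
      · exact hi.2.2
      · exact hi.2.1
    have hRcard : (R.card : ℝ) ≤ R'.card + (Low true q T g).card + (Low false q T g).card := by
      have h1 : R ⊆ R' ∪ (Low true q T g ∪ Low false q T g) := by
        intro i hi
        rw [hR', Finset.sdiff_union_self_eq_union]
        exact Finset.mem_union_left _ hi
      have h2 := le_trans (Finset.card_le_card h1) (Finset.card_union_le _ _)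
      have h3 := Finset.card_union_le (Low true q T g) (Low false q T g)
      have h4 : R.card ≤ R'.card + (Low true q T g).card + (Low false q T g).card := by omega
      exact_mod_cast h4
    have hlight : ∀ j ∈ range (J + 1),
        (q : ℝ) * ∑ i ∈ R', (if K i ≤ 2 ^ j then 2 * K i / 2 ^ j else 0)
          ≤ 8 * ((2 * j + 6 : ℝ) / 2 ^ j) * (2 ^ d * Real.sqrt d) := by
      intro j hj
      have hjJ : j ≤ J := by
        rw [Finset.mem_range] at hj; omega
      have h1 : (16 : ℝ) * 2 ^ j ≤ q := by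
        have : (2 : ℝ) ^ j ≤ 2 ^ J := pow_le_pow_right₀ (by norm_num) hjJ
        linarith
      set L := univ.filter (fun i => K i ≤ 2 ^ j) with hL
      set L' := R'.filter (fun i => K i ≤ 2 ^ j) with hL'
      have h2 := light T g hT hm d hd q (2 * j + 6) (2 ^ j) (by positivity) (kap j) h1 L L'
        (by
          intro i hi
          rw [hL, Finset.mem_filter] at hi
          have h3 := hi.2
          simp only [hK] at h3
          rw [div_le_iff₀ hn0] at h3
          exact h3)
        (by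
          intro i hi
          rw [hL', Finset.mem_filter] at hi
          rw [hL, Finset.mem_filter]
          exact ⟨Finset.mem_univ _, hi.2⟩)
        (by
          intro b i hi
          rw [hL', Finset.mem_filter] at hi
          exact hlowb b i hi.1)
      have h3 : ∑ i ∈ R', (if K i ≤ 2 ^ j then 2 * K i / 2 ^ j else 0)
          = 2 / 2 ^ j * ∑ i ∈ L', K i := by
        rw [hL', Finset.sum_filter, Finset.mul_sum]
        apply Finset.sum_congr rfl
        intro i _
        split_ifs
        · ring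
        · ring
      rw [h3, hKsum]
      have h4 : ((2 * j + 6 : ℕ) : ℝ) = 2 * j + 6 := by push_cast; ring
      rw [h4] at h2
      exact alg _ _ _ _ _ _ _ (by positivity) (by positivity) (by positivity) h2
    have hR'card : (q : ℝ) * R'.card ≤ 144 * (2 ^ d * Real.sqrt d) := by
      have h1 : (R'.card : ℝ) ≤ ∑ i ∈ R', (∑ j ∈ range (J + 1),
          (if K i ≤ 2 ^ j then 2 * K i / 2 ^ j else 0) + K i / 2 ^ J) := by
        have h2 := Finset.card_nsmul_le_sum R' (fun i => ∑ j ∈ range (J + 1),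
          (if K i ≤ 2 ^ j then 2 * K i / 2 ^ j else 0) + K i / 2 ^ J) 1 (by
            intro i hi
            have : i ∈ R := (Finset.mem_sdiff.mp hi).1
            exact layer (K i) (hK1 i this) J)
        simpa using h2
      rw [Finset.sum_add_distrib, Finset.sum_comm, ← Finset.sum_div] at h1
      have h2 : (q : ℝ) * ∑ j ∈ range (J + 1), ∑ i ∈ R', (if K i ≤ 2 ^ j then 2 * K i / 2 ^ j else 0)
          ≤ 128 * (2 ^ d * Real.sqrt d) := by
        rw [Finset.mul_sum]
        refine le_trans (Finset.sum_le_sum hlight) ?_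
        rw [← Finset.sum_mul, ← Finset.mul_sum, geo]
        have h3 : (0 : ℝ) ≤ (4 * ((J + 1 : ℕ) : ℝ) + 16) / 2 ^ (J + 1) := by positivity
        have h4 : 0 ≤ 2 ^ d * Real.sqrt d := by positivity
        nlinarith
      have h3 : (q : ℝ) * ((∑ i ∈ R', K i) / 2 ^ J) ≤ 16 * (2 ^ d * Real.sqrt d) := by
        have h4 := hKtot R'
        have hJ0 : (0 : ℝ) < 2 ^ J := by positivity
        rw [← mul_div_assoc, div_le_iff₀ hJ0]
        have h5 : 0 ≤ ∑ i ∈ R', K i := Finset.sum_nonneg (fun i _ => hK0 i)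
        calc (q : ℝ) * ∑ i ∈ R', K i ≤ (32 * 2 ^ J) * ∑ i ∈ R', K i :=
              mul_le_mul_of_nonneg_right hJ4 h5
          _ ≤ (32 * 2 ^ J) * (2 ^ d * Real.sqrt d / 2) :=
              mul_le_mul_of_nonneg_left h4 (by positivity)
          _ = _ := by ring
      have h4 := mul_le_mul_of_nonneg_left h1 hqpos.le
      rw [mul_add] at h4
      linarith
    have hR'fin : (R'.card : ℝ) * Real.sqrt d ≤ 2304 * 2 ^ d := by
      have h1 : (d : ℝ) ≤ 16 * q := by
        have : d ≤ 16 * q := by omega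
        exact_mod_cast this
      have h2 : (q : ℝ) * ((R'.card : ℝ) * Real.sqrt d) ≤ q * (2304 * 2 ^ d) := by
        calc (q : ℝ) * ((R'.card : ℝ) * Real.sqrt d) = (q * R'.card) * Real.sqrt d := by ring
          _ ≤ (144 * (2 ^ d * Real.sqrt d)) * Real.sqrt d := mul_le_mul_of_nonneg_right hR'card hs0
          _ = 144 * 2 ^ d * (Real.sqrt d * Real.sqrt d) := by ring
          _ = 144 * 2 ^ d * d := by rw [hss]
          _ ≤ 144 * 2 ^ d * (16 * q) := mul_le_mul_of_nonneg_left h1 (by positivity)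
          _ = _ := by ring
      exact le_of_mul_le_mul_left h2 hqpos
    have hLow : ∀ b, ((Low b q T g).card : ℝ) * Real.sqrt d ≤ 8 * 2 ^ d := by
      intro b
      have h1 := Low_card b T g hT q d hd
      have h2 := low_est d
      have h3 : ((Low b q T g).card : ℝ) ≤ (5 / 4) ^ d * 4 ^ q := by linarith
      calc ((Low b q T g).card : ℝ) * Real.sqrt d ≤ ((5 / 4) ^ d * 4 ^ q) * Real.sqrt d :=
            mul_le_mul_of_nonneg_right h3 hs0
        _ = Real.sqrt d * ((5 / 4) ^ d * 4 ^ q) := by ring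
        _ ≤ _ := h2
    have h1 := mul_le_mul_of_nonneg_right hRcard hs0
    have h2 := hLow true
    have h3 := hLow false
    nlinarith

end Pool.Agent.H974R3
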