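import Pool.Agent.H101R3.FullExc
import Pool.Agent.H373R2.T7.SupLiou
import Pool.Agent.H974R3.LCore

/-!
Bounded functions with small exponential sums (for instance the Liouville function) along the values
of almost all integer polynomials of bounded height, in residue classes.
-/

set_option autoImplicit false

namespace Pool.Agent.H974R3.LA

open Finset Polynomial Filter
open Pool.Agent.H469R2.NK (e)
open Pool.Agent.H442R2.EHI (evt_log_pow evt_log_ge)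
open Pool.Agent.H300R2.BH Pool.Agent.H300R2.FB
open Pool.Agent.H101R3.FullAbs (po bo po_neg po_eq sum_pos_box sum_box_le bo_card bx_card gr grid)
open Pool.Agent.H373R2.T7 (SupSmall)
open Pool.Agent.H807R2.Dav (ee ee_eq)
open Pool.Agent.H974R3.LC (coreF_ap)

/-- the truncation of `g` -/
noncomputable def gx (g : ℕ → ℂ) (x n : ℕ) : ℂ := if n ≤ x then g n else 0

lemma gx_zero_of_gt {g : ℕ → ℂ} {x n : ℕ} (h : x < n) : gx g x n = 0 := by
  unfold gx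
  rw [if_neg (by omega)]

lemma fz_gx {g : ℕ → ℂ} (h0 : g 0 = 0) {x : ℕ} {m : ℤ} (hm0 : 0 ≤ m) (hmx : m ≤ x) :
    fz (gx g x) m = g m.natAbs := by
  unfold fz gx
  have h1 : m.toNat = m.natAbs := by omega
  rw [h1]
  by_cases h : 1 ≤ m
  · rw [if_pos h, if_pos (by omega)]
  · rw [if_neg h]
    have h2 : m.natAbs = 0 := by omega
    rw [h2, h0]

/-- the hypotheses of the core theorem -/
lemma gx_ok (g : ℕ → ℂ) (h1 : ∀ n, ‖g n‖ ≤ 1) (hsup : SupSmall g) (E1 E3 : ℕ) :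
    ∃ x0 : ℕ, ∀ x : ℕ, x0 ≤ x → FourierHyp (gx g x) x E1 E3 ∧
    ∑ n ∈ Icc 1 x, ‖gx g x n‖ ^ 2 ≤ x * Real.log x ^ 2 := by
  obtain ⟨N0, hN⟩ := hsup (2 * E3)
  have hev : ∀ᶠ x : ℕ in atTop, N0 ≤ x ∧ 1 ≤ Real.log x := by
    filter_upwards [eventually_ge_atTop N0, evt_log_ge 1] with x a b
    exact ⟨a, b⟩
  obtain ⟨x0, hx0⟩ := eventually_atTop.mp hev
  refine ⟨x0, fun x hx => ?_⟩
  obtain ⟨hx1, hL⟩ := hx0 x hx
  constructor
  · intro q _ _ b _ β _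
    refine le_trans (le_of_eq ?_) (hN x hx1 β)
    congr 1
    refine sum_congr rfl fun n hn => ?_
    rw [mem_Icc] at hn
    unfold gx
    rw [if_pos hn.2, ee_eq]
    rfl
  · have h2 : ∑ n ∈ Icc 1 x, ‖gx g x n‖ ^ 2 ≤ ∑ n ∈ Icc 1 x, (1:ℝ) := by
      refine sum_le_sum fun n hn => ?_
      rw [mem_Icc] at hn
      unfold gx
      rw [if_pos hn.2]
      have := h1 n
      exact pow_le_one₀ (norm_nonneg _) this
    refine h2.trans ?_
    rw [sum_const, Nat.card_Icc, Nat.add_sub_cancel, nsmul_eq_mul, mul_one]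
    have hx0r : (0:ℝ) ≤ x := Nat.cast_nonneg _
    have h3 : (1:ℝ) ≤ Real.log x ^ 2 := one_le_pow₀ hL
    nlinarith

/-- the absolute value of the sum of `g (|F(k)|)` over `1 ≤ k ≤ K`, `k % m = c` -/
noncomputable def sg (g : ℕ → ℂ) (m c : ℕ) (F : ℤ[X]) (K : ℕ) : ℝ :=
  ‖∑ k ∈ (Icc 1 K).filter (fun k => k % m = c), g (F.eval (k : ℤ)).natAbs‖

lemma sg_nonneg (g : ℕ → ℂ) (m c : ℕ) (F : ℤ[X]) (K : ℕ) : 0 ≤ sg g m c F K := norm_nonneg _

lemma sg_neg (g : ℕ → ℂ) (m c : ℕ) (F : ℤ[X]) (K : ℕ) : sg g m c (-F) K = sg g m c F K := by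
  unfold sg
  simp [eval_neg]

lemma sg_le (g : ℕ → ℂ) (h1 : ∀ n, ‖g n‖ ≤ 1) (m c : ℕ) (F : ℤ[X]) (K : ℕ) :
    sg g m c F K ≤ K := by
  unfold sg
  calc _ ≤ ∑ k ∈ (Icc 1 K).filter (fun k => k % m = c), ‖g (F.eval (k : ℤ)).natAbs‖ :=
        norm_sum_le _ _
    _ ≤ ∑ k ∈ (Icc 1 K).filter (fun k => k % m = c), (1:ℝ) := sum_le_sum fun k _ => h1 _
    _ ≤ ∑ k ∈ Icc 1 K, (1:ℝ) :=
        sum_le_sum_of_subset_of_nonneg (filter_subset _ _) fun _ _ _ => by norm_num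
    _ = K := by rw [sum_const, Nat.card_Icc, Nat.add_sub_cancel, nsmul_eq_mul, mul_one]

lemma filter_split (m c : ℕ) {K K' : ℕ} (h : K' ≤ K) (f : ℕ → ℂ) :
    ∑ k ∈ (Icc 1 K).filter (fun k => k % m = c), f k =
      ∑ k ∈ (Icc 1 K').filter (fun k => k % m = c), f k +
      ∑ k ∈ (Ioc K' K).filter (fun k => k % m = c), f k := by
  have hIcc : Icc 1 K = Icc 1 K' ∪ Ioc K' K := by
    ext k
    simp only [mem_union, mem_Icc, mem_Ioc]
    omega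
  have hdis : Disjoint ((Icc 1 K').filter (fun k => k % m = c))
      ((Ioc K' K).filter (fun k => k % m = c)) := by
    rw [disjoint_left]
    intro k h2 h3
    rw [mem_filter, mem_Icc] at h2
    rw [mem_filter, mem_Ioc] at h3
    omega
  rw [hIcc, filter_union, sum_union hdis]

lemma sg_diff (g : ℕ → ℂ) (h1 : ∀ n, ‖g n‖ ≤ 1) (m c : ℕ) (F : ℤ[X]) {K K' : ℕ} (h : K' ≤ K) :
    sg g m c F K ≤ sg g m c F K' + ((K:ℝ) - K') := by
  unfold sg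
  rw [filter_split m c h]
  refine (norm_add_le _ _).trans ?_
  have h2 : ‖∑ k ∈ (Ioc K' K).filter (fun k => k % m = c), g (F.eval (k : ℤ)).natAbs‖ ≤
      (K:ℝ) - K' := by
    calc _ ≤ ∑ k ∈ (Ioc K' K).filter (fun k => k % m = c), ‖g (F.eval (k : ℤ)).natAbs‖ :=
          norm_sum_le _ _
      _ ≤ ∑ k ∈ (Ioc K' K).filter (fun k => k % m = c), (1:ℝ) := sum_le_sum fun k _ => h1 _
      _ ≤ ∑ k ∈ Ioc K' K, (1:ℝ) :=
          sum_le_sum_of_subset_of_nonneg (filter_subset _ _) fun _ _ _ => by norm_num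
      _ = (K:ℝ) - K' := by
          rw [sum_const, Nat.card_Ioc, nsmul_eq_mul, mul_one, Nat.cast_sub h]
  linarith

lemma alg0 (bc A D K2 Kj x L : ℝ) (U E0 : ℕ) (hbc : 0 ≤ bc) (hA : 0 ≤ A) (hD : 0 ≤ D)
    (hK2 : 0 ≤ K2) (hKj : 0 < Kj) (hL : 4 ≤ L) (hx : x ≤ D * Kj * L ^ E0) :
    2 * (bc * (A * x * (K2 / Kj) / L ^ (U + E0 + 8))) +
      bc * (A * (D * (2 * (K2 / (L ^ (U + 4)) ^ 2)))) ≤ bc * (A * D * K2 / L ^ U) := by
  have hL0 : 0 < L := by linarith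
  have hL1 : 1 ≤ L := by linarith
  have hLmono : ∀ m n : ℕ, m ≤ n → L ^ m ≤ L ^ n := fun m n h => pow_le_pow_right₀ hL1 h
  have hLp0 : ∀ n : ℕ, 0 < L ^ n := fun n => pow_pos hL0 n
  have hX : 0 ≤ bc * (A * D * K2 / L ^ U) := by positivity
  have h2 : ∀ n : ℕ, 1 ≤ n → 2 / L ^ n ≤ 1 / 2 := by
    intro n hn
    rw [div_le_div_iff₀ (hLp0 n) (by norm_num)]
    have h3 : L ^ 1 ≤ L ^ n := hLmono _ _ hn
    rw [pow_one] at h3
    linarith
  calc 2 * (bc * (A * x * (K2 / Kj) / L ^ (U + E0 + 8))) +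
      bc * (A * (D * (2 * (K2 / (L ^ (U + 4)) ^ 2))))
      ≤ 2 * (bc * (A * (D * Kj * L ^ E0) * (K2 / Kj) / L ^ (U + E0 + 8))) +
      bc * (A * (D * (2 * (K2 / (L ^ (U + 4)) ^ 2)))) := by gcongr
    _ = bc * (A * D * K2 / L ^ U) * (2 / L ^ 8 + 2 / L ^ (U + 8)) := by
        rw [show U + E0 + 8 = U + 8 + E0 by ring, pow_add L (U + 8) E0, pow_add L U 4,
          pow_add L U 8]
        field_simp
    _ ≤ bc * (A * D * K2 / L ^ U) * 1 := by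
        apply mul_le_mul_of_nonneg_left _ hX
        have h3 := h2 8 (by norm_num)
        have h4 := h2 (U + 8) (by omega)
        linarith
    _ = _ := mul_one _

theorem meanD (g : ℕ → ℂ) (h0 : g 0 = 0) (h1 : ∀ n, ‖g n‖ ≤ 1) (hsup : SupSmall g)
    (j : ℕ) (hj : 1 ≤ j) (ε : ℝ) (hε : 0 < ε) (E0 E6 E7 U : ℕ) :
    ∃ B x0 : ℕ, ∀ x : ℕ, x0 ≤ x → ∀ (m c : ℕ), 1 ≤ m → (m : ℝ) ≤ Real.log x ^ E7 →
    ∀ (K D A a0 : ℕ) (m0 : ℤ)
    (H : Fin (j - 1) → ℕ), BoxF j K D A a0 m0 1 x (Real.log x ^ B) →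
    (x : ℝ) ≤ D * (K : ℝ) ^ j * Real.log x ^ E0 → (x : ℝ) ^ ε ≤ K →
    (K : ℝ) * Real.log x ^ B ≤ A → (∀ i, A ≤ 2 * H i + 1) →
    (A : ℝ) ≤ D * Real.log x ^ E6 → A ≤ x →
    (∀ i, (H i : ℝ) * Real.log x ^ B ≤ D * (K : ℝ) ^ (j - 1 - (i : ℕ))) →
    ∑ r ∈ bx j H, ∑ a ∈ Ioc a0 (a0 + A), ∑ d ∈ Ioc D (2 * D),
      sg g m c (FF (C m0 + 0 + Rr j r) j 1 a d) K ^ 2 ≤
      ((bx j H).card : ℝ) * (A * D * (K:ℝ) ^ 2 / Real.log x ^ U) := by
  classical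
  set E2 := U + 5 with hE2
  obtain ⟨E1, E3, B1, x1, hE1, hcore⟩ := coreF_ap j hj ε hε E0 E2 E6 E7 (U + E0 + 8) 0
  obtain ⟨x3, hff⟩ := gx_ok g h1 hsup E1 E3
  set B := B1 + E6 + j * E2 + 2 with hB
  have hev : ∀ᶠ x : ℕ in atTop, x1 ≤ x ∧ x3 ≤ x ∧ 3 ≤ x ∧
      1000 * (j + 2) ≤ Real.log x ∧ Real.log x ^ (B + E2 + 1) ≤ (x : ℝ) ^ ε := by
    filter_upwards [eventually_ge_atTop x1, eventually_ge_atTop x3,
      eventually_ge_atTop 3, evt_log_ge (1000 * (j + 2)), evt_log_pow (B + E2 + 1) ε hε]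
      with x h1 h3 h4 h5 h6
    exact ⟨h1, h3, h4, h5, h6⟩
  obtain ⟨x0, hx0⟩ := eventually_atTop.mp hev
  refine ⟨B, x0, fun x hx m c hm1 hmL K D A a0 m0 H hbox hxDK hxK hKA1 hA1H hA1D hAx hH => ?_⟩
  obtain ⟨hx1, hx3, hx3', hL, hLε⟩ := hx0 x hx
  set L := Real.log x with hLdef
  have hj1 : (1:ℝ) ≤ j := by exact_mod_cast hj
  have hL1000 : (1000:ℝ) ≤ L := by nlinarith
  have hL0 : 0 < L := by linarith
  have hL1 : 1 ≤ L := by linarith
  have hLp0 : ∀ n : ℕ, 0 < L ^ n := fun n => by positivity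
  have hLp : ∀ n : ℕ, 1 ≤ L ^ n := fun n => one_le_pow₀ hL1
  have hLmono : ∀ m n : ℕ, m ≤ n → L ^ m ≤ L ^ n := fun m n h => pow_le_pow_right₀ hL1 h
  have hxr : (3:ℝ) ≤ x := by exact_mod_cast hx3'
  have hx0' : (0:ℝ) < x := by linarith
  obtain ⟨hDK, hσ⟩ := boxF_facts (hLp B) hbox
  have hK1r : (1:ℝ) ≤ K := ((hLp _).trans hLε).trans hxK
  have hKpos : (0:ℝ) < K := by linarith
  have hK1n : 1 ≤ K := by exact_mod_cast hK1r
  have hKj : (0:ℝ) < (K:ℝ) ^ j := by positivity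
  have hKA : (K:ℝ) ≤ A := by
    calc (K:ℝ) ≤ K * L ^ B := le_mul_of_one_le_right hKpos.le (hLp B)
      _ ≤ A := hKA1
  have hA0 : (0:ℝ) < A := by linarith
  have hKD : (K:ℝ) ≤ D := by
    have h1 : (K:ℝ) * L ^ B ≤ D * L ^ E6 := hKA1.trans hA1D
    have h2 : (K:ℝ) * L ^ E6 ≤ D * L ^ E6 := by
      refine le_trans ?_ h1
      gcongr
      omega
    exact le_of_mul_le_mul_right h2 (hLp0 _)
  have hLBK : L ^ (B + E2 + 1) ≤ K := hLε.trans hxK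
  have hLBD : L ^ B ≤ D := (hLmono _ _ (by omega)).trans (hLBK.trans hKD)
  have hD0 : (0:ℝ) < D := by linarith [hLp B]
  -- `K1`
  set K1 := ⌊(K:ℝ) / L ^ (U + 4)⌋₊ with hK1
  have hK1le : (K1:ℝ) ≤ K / L ^ (U + 4) := Nat.floor_le (by positivity)
  have hK1K : K1 ≤ K := by
    have : (K1:ℝ) ≤ K := hK1le.trans (div_le_self (by positivity) (hLp _))
    exact_mod_cast this
  have hKK1 : (K:ℝ) ≤ K1 * L ^ E2 := by
    have h1 : (K:ℝ) / L ^ (U + 4) < K1 + 1 := Nat.lt_floor_add_one _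
    have h2 : L ≤ (K:ℝ) / L ^ (U + 4) := by
      rw [le_div_iff₀ (hLp0 _)]
      calc L * L ^ (U + 4) = L ^ (U + 5) := by ring
        _ ≤ _ := hLmono _ _ (by omega)
        _ ≤ _ := hLBK
    have h3 : (K:ℝ) / L ^ (U + 4) ≤ K1 * L := by nlinarith
    calc (K:ℝ) = (K / L ^ (U + 4)) * L ^ (U + 4) := by field_simp
      _ ≤ (K1 * L) * L ^ (U + 4) := by gcongr
      _ = K1 * L ^ E2 := by rw [hE2]; ring
  have hDKn : 2 * D * K ^ j ≤ x := by exact_mod_cast hDK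
  obtain ⟨hfour, hsq⟩ := hff x hx3
  have hR0 : ∀ (B0 : ℕ) (k : ℕ), |(((0 : ℤ[X]).eval (k : ℤ) : ℤ) : ℝ)| ≤ (K : ℝ) ^ j / L ^ B0 := by
    intro B0 k
    rw [eval_zero, Int.cast_zero, abs_zero]
    positivity
  have hHB : ∀ B0 : ℕ, B0 ≤ B → ∀ i, (H i : ℝ) * L ^ B0 ≤ D * (K : ℝ) ^ (j - 1 - (i : ℕ)) := by
    intro B0 hB0 i
    refine le_trans ?_ (hH i)
    gcongr
  -- values
  have hvals := fun r hr a d ha hd => fam_vals j hj x (L ^ B) L E0 E2 K K1 D A a0 0 m0 1 H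
    (by linarith) hLBD (by
      calc 16 * ((j:ℝ) + 2) * L ^ (j * E2) ≤ L * L ^ (j * E2) := by
            gcongr
            linarith
        _ = L ^ (j * E2 + 1) := by ring
        _ ≤ L ^ B := hLmono _ _ (by omega)) hK1K hK1n hKK1 hxDK hbox (fun k _ => hR0 B k) hH
        r hr a d ha hd
  have hval2 : ∀ r ∈ bx j H, ∀ a ∈ Ioc a0 (a0 + A), ∀ d ∈ Ioc D (2 * D), ∀ k ∈ Ioc K1 K,
      0 ≤ (FF (C m0 + 0 + Rr j r) j 1 a d).eval (k : ℤ) ∧
      (FF (C m0 + 0 + Rr j r) j 1 a d).eval (k : ℤ) ≤ (x : ℤ) := by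
    intro r hr a ha d hd k hk
    obtain ⟨v1, v2, -⟩ := hvals r hr a d ha hd
    have h1 := v1 k (by rw [mem_Ioc] at hk; rw [mem_Icc]; omega)
    have h2 := v2 k hk
    have h3 : (0:ℝ) ≤ x / L ^ (E0 + j * E2 + 1) := by positivity
    constructor
    · have : (0:ℝ) ≤ (((FF (C m0 + 0 + Rr j r) j 1 a d).eval (k : ℤ) : ℤ) : ℝ) := h3.trans h2
      exact_mod_cast this
    · exact_mod_cast h1
  have hmain := hcore x hx1 (gx g x) (fun n hn => gx_zero_of_gt hn) hfour hsq m c hm1 hmL D K K1 A A a0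
    0 m0 H 1 hDKn hxDK hxK hK1K hKK1 (le_trans (by gcongr; omega) hKA1) le_rfl hA1H hA1D hAx
    (fun k _ => hR0 B1 k)
    (hHB B1 (by omega)) (by
      intro r hr a ha d hd k hk
      obtain ⟨v1, v2⟩ := hval2 r hr a ha d hd k hk
      rw [abs_le]
      constructor <;> omega) hσ
  -- pointwise
  have hpt : ∀ r ∈ bx j H, ∀ a ∈ Ioc a0 (a0 + A), ∀ d ∈ Ioc D (2 * D),
      sg g m c (FF (C m0 + 0 + Rr j r) j 1 a d) K ^ 2 ≤
      2 * ‖∑ k ∈ (Ioc K1 K).filter (fun k => k % m = c), fz (gx g x) ((FF (C m0 + 0 + Rr j r) j 1 a d).eval (k : ℤ))‖ ^ 2 +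
      2 * ((K:ℝ) / L ^ (U + 4)) ^ 2 := by
    intro r hr a ha d hd
    have e1 : ∑ k ∈ (Ioc K1 K).filter (fun k => k % m = c), fz (gx g x) ((FF (C m0 + 0 + Rr j r) j 1 a d).eval (k : ℤ)) =
        ∑ k ∈ (Ioc K1 K).filter (fun k => k % m = c), g ((FF (C m0 + 0 + Rr j r) j 1 a d).eval (k : ℤ)).natAbs := by
      refine sum_congr rfl fun k hk => ?_
      obtain ⟨v1, v2⟩ := hval2 r hr a ha d hd k (mem_filter.mp hk).1
      exact fz_gx h0 v1 v2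
    rw [e1]
    unfold sg
    rw [filter_split m c hK1K]
    have h5 := sg_le g h1 m c (FF (C m0 + 0 + Rr j r) j 1 a d) K1
    unfold sg at h5
    set u := ∑ k ∈ (Icc 1 K1).filter (fun k => k % m = c), g ((FF (C m0 + 0 + Rr j r) j 1 a d).eval (k : ℤ)).natAbs
    set v := ∑ k ∈ (Ioc K1 K).filter (fun k => k % m = c), g ((FF (C m0 + 0 + Rr j r) j 1 a d).eval (k : ℤ)).natAbs
    have h6 : ‖u + v‖ ≤ ‖u‖ + ‖v‖ := norm_add_le _ _
    have h7 : ‖u‖ ≤ K / L ^ (U + 4) := h5.trans hK1le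
    have h8 : ‖u + v‖ ^ 2 ≤ (‖u‖ + ‖v‖) ^ 2 := by gcongr
    have h9 : ‖u‖ ^ 2 ≤ ((K:ℝ) / L ^ (U + 4)) ^ 2 := by gcongr
    nlinarith [sq_nonneg (‖u‖ - ‖v‖)]
  set bc : ℝ := ((bx j H).card : ℝ) with hbc
  have hbc0 : 0 ≤ bc := Nat.cast_nonneg _
  calc ∑ r ∈ bx j H, ∑ a ∈ Ioc a0 (a0 + A), ∑ d ∈ Ioc D (2 * D),
        sg g m c (FF (C m0 + 0 + Rr j r) j 1 a d) K ^ 2
      ≤ ∑ r ∈ bx j H, ∑ a ∈ Ioc a0 (a0 + A), ∑ d ∈ Ioc D (2 * D),
        (2 * ‖∑ k ∈ (Ioc K1 K).filter (fun k => k % m = c), fz (gx g x) ((FF (C m0 + 0 + Rr j r) j 1 a d).eval (k : ℤ))‖ ^ 2 +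
      2 * ((K:ℝ) / L ^ (U + 4)) ^ 2) :=
        sum_le_sum fun r hr => sum_le_sum fun a ha => sum_le_sum fun d hd => hpt r hr a ha d hd
    _ = 2 * (∑ r ∈ bx j H, ∑ a ∈ Ioc a0 (a0 + A), ∑ d ∈ Ioc D (2 * D),
        ‖∑ k ∈ (Ioc K1 K).filter (fun k => k % m = c), fz (gx g x) ((FF (C m0 + 0 + Rr j r) j 1 a d).eval (k : ℤ))‖ ^ 2) +
        bc * (A * (D * (2 * ((K:ℝ) / L ^ (U + 4)) ^ 2))) := by
        simp only [sum_add_distrib, sum_const, nsmul_eq_mul, mul_sum, Nat.card_Ioc]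
        rw [show a0 + A - a0 = A by omega, show 2 * D - D = D by omega]
    _ ≤ 2 * (bc * (A * x * ((K : ℝ) ^ 2 / (K : ℝ) ^ j) / L ^ (U + E0 + 8))) +
        bc * (A * (D * (2 * ((K:ℝ) / L ^ (U + 4)) ^ 2))) := by gcongr
    _ ≤ _ := by
        rw [div_pow]
        exact alg0 bc A D ((K:ℝ) ^ 2) ((K:ℝ) ^ j) x L U E0 hbc0 hA0.le hD0.le (sq_nonneg _) hKj
          (by linarith) hxDK

/-- the mean square over the polynomials with positive leading coefficient -/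
theorem mean_pos (g : ℕ → ℂ) (h0 : g 0 = 0) (h1 : ∀ n, ‖g n‖ ≤ 1) (hsup : SupSmall g)
    (j : ℕ) (hj : 1 ≤ j) (ε : ℝ) (hε : 0 < ε) (E7 U : ℕ) :
    ∃ B H0 : ℕ, ∀ H : ℕ, H0 ≤ H → ∀ (m c : ℕ), 1 ≤ m → (m : ℝ) ≤ Real.log H ^ E7 →
    ∀ K : ℕ, (H : ℝ) ^ ε ≤ K → (K : ℝ) * Real.log H ^ B ≤ H →
    ∑ r ∈ bx j (fun _ => H), ∑ a ∈ Ioc 0 (0 + (2 * H + 1)), ∑ d ∈ Ioc 0 H,
      sg g m c (FP j H r a d) K ^ 2 ≤
      ((bx j (fun _ => H)).card : ℝ) * ((2 * H + 1 : ℕ) : ℝ) * H * (K:ℝ) ^ 2 / Real.log H ^ U := by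
  classical
  obtain ⟨B1, x1, hb⟩ := meanD g h0 h1 hsup j hj (ε / (j + 2)) (by positivity) (U + 3) (U + 3) E7
    (U + 2)
  obtain ⟨H1, hpar⟩ := params j hj ε hε U B1
  have hev : ∀ᶠ H : ℕ in atTop, H1 ≤ H ∧ x1 ≤ H ∧ 8 ≤ Real.log H ∧
      Real.log H ^ (U + 2) ≤ (H:ℝ) ^ (1:ℝ) ∧ 1 ≤ H := by
    filter_upwards [eventually_ge_atTop H1, eventually_ge_atTop x1,
      evt_log_ge 8, evt_log_pow (U + 2) 1 (by norm_num), eventually_ge_atTop 1]
      with H h1 h3 h4 h5 h6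
    exact ⟨h1, h3, h4, h5, h6⟩
  obtain ⟨H0, hH0⟩ := eventually_atTop.mp hev
  refine ⟨B1 + 1, H0, fun H hH m c hm1 hmL K hK hKH => ?_⟩
  obtain ⟨hH1, hHx1, hL8, hLH, hHn⟩ := hH0 H hH
  rw [Real.rpow_one] at hLH
  set L := Real.log H with hLdef
  have hL0 : 0 < L := by linarith
  have hL1 : 1 ≤ L := by linarith
  have hLp0 : ∀ n : ℕ, 0 < L ^ n := fun n => by positivity
  have hLp : ∀ n : ℕ, 1 ≤ L ^ n := fun n => one_le_pow₀ hL1
  have hLmono : ∀ m n : ℕ, m ≤ n → L ^ m ≤ L ^ n := fun m n h => pow_le_pow_right₀ hL1 h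
  have hHr : (1:ℝ) ≤ H := by exact_mod_cast hHn
  have hH0' : (0:ℝ) < H := by linarith
  have hK0 : (0:ℝ) < K := lt_of_lt_of_le (Real.rpow_pos_of_pos hH0' _) hK
  set M := ⌈(H:ℝ) / L ^ (U + 2)⌉₊ with hM
  have hMge : (H:ℝ) / L ^ (U + 2) ≤ M := Nat.le_ceil _
  have hMle : (M:ℝ) ≤ 2 * (H / L ^ (U + 2)) := by
    have h1 : (M:ℝ) < H / L ^ (U + 2) + 1 := Nat.ceil_lt_add_one (by positivity)
    have h2 : 1 ≤ (H:ℝ) / L ^ (U + 2) := by rw [le_div_iff₀ (hLp0 _), one_mul]; exact hLH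
    linarith
  have hM1 : 1 ≤ M := by
    have h2 : 0 < (H:ℝ) / L ^ (U + 2) := by positivity
    exact Nat.one_le_iff_ne_zero.mpr (by
      intro h0
      rw [h0] at hMge
      simp only [Nat.cast_zero] at hMge
      linarith)
  obtain ⟨hHx, hLx, hpow, hLx2, hxK, hp⟩ := hpar H hH1 K M hK hKH hMge (4 * H * K ^ j) rfl
  set x := 4 * H * K ^ j with hx
  set bc : ℝ := ((bx j (fun _ => H)).card : ℝ) with hbc
  have hbc0 : 0 ≤ bc := Nat.cast_nonneg _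
  have hAc : ((Ioc 0 (0 + (2 * H + 1))).card : ℝ) = ((2 * H + 1 : ℕ) : ℝ) := by
    rw [Nat.card_Ioc]; simp
  have hmain := dyad_box j H M hM1 (bx j (fun _ => H)) (Ioc 0 (0 + (2 * H + 1)))
    (fun r a d => sg g m c (FP j H r a d) K ^ 2)
    (fun r a d => sq_nonneg _) ((K:ℝ) ^ 2)
    (bc * ((2 * H + 1 : ℕ) : ℝ) * (K:ℝ) ^ 2 / L ^ (U + 2))
    (by
      intro r _ a _ d _
      have h2 := sg_le g h1 m c (FP j H r a d) K
      have h3 := sg_nonneg g m c (FP j H r a d) K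
      gcongr)
    (by positivity)
    (by
      intro D hMD hDH
      obtain ⟨p1, p2, p3, p4, p5, p6⟩ := hp D hMD hDH B1 le_rfl
      have h1 := hb x (hHx1.trans hHx) m c hm1 (hmL.trans (by gcongr)) K D (2 * H + 1) 0 (-(H:ℤ) - 1)
          (fun _ => H) p1 p2 hxK p3 (fun _ => le_rfl) p4 p5 p6
      refine h1.trans ?_
      have h2 : (0:ℝ) < Real.log x := by linarith
      calc bc * (((2 * H + 1 : ℕ) : ℝ) * D * (K:ℝ) ^ 2 / Real.log x ^ (U + 2))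
          ≤ bc * (((2 * H + 1 : ℕ) : ℝ) * D * (K:ℝ) ^ 2 / L ^ (U + 2)) := by gcongr
        _ = _ := by ring)
  refine hmain.trans ?_
  rw [hAc]
  set AH : ℝ := ((2 * H + 1 : ℕ) : ℝ) with hAH
  have hAH0 : 0 ≤ AH := Nat.cast_nonneg _
  calc bc * AH * M * (K:ℝ) ^ 2 + 2 * (bc * AH * (K:ℝ) ^ 2 / L ^ (U + 2)) * H
      ≤ bc * AH * (2 * (H / L ^ (U + 2))) * (K:ℝ) ^ 2 +
        2 * (bc * AH * (K:ℝ) ^ 2 / L ^ (U + 2)) * H := by
        gcongr
    _ = (bc * AH * H * (K:ℝ) ^ 2 / L ^ U) * (4 / L ^ 2) := by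
        rw [pow_add]
        field_simp
        ring
    _ ≤ (bc * AH * H * (K:ℝ) ^ 2 / L ^ U) * 1 := by
        apply mul_le_mul_of_nonneg_left _ (by positivity)
        rw [div_le_one (by positivity)]
        nlinarith
    _ = _ := mul_one _

/-- the mean square over all polynomials of height at most `H` -/
theorem mean_box (g : ℕ → ℂ) (h0 : g 0 = 0) (h1 : ∀ n, ‖g n‖ ≤ 1) (hsup : SupSmall g)
    (j : ℕ) (hj : 1 ≤ j) (ε : ℝ) (hε : 0 < ε) (E7 U : ℕ) :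
    ∃ B H0 : ℕ, ∀ H : ℕ, H0 ≤ H → ∀ (m c : ℕ), 1 ≤ m → (m : ℝ) ≤ Real.log H ^ E7 →
    ∀ K : ℕ, (H : ℝ) ^ ε ≤ K → (K : ℝ) * Real.log H ^ B ≤ H →
    ∑ v ∈ bo j H, sg g m c (po j v) K ^ 2 ≤
      ((bo j H).card : ℝ) * (K:ℝ) ^ 2 / Real.log H ^ U := by
  classical
  obtain ⟨n, rfl⟩ : ∃ n, j = n + 1 := ⟨j - 1, by omega⟩
  obtain ⟨B, H1, hmean⟩ := mean_pos g h0 h1 hsup (n + 1) hj ε hε E7 (U + 1)
  have hev : ∀ᶠ H : ℕ in atTop, H1 ≤ H ∧ 8 ≤ Real.log H ∧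
      Real.log H ^ (U + 2) ≤ (H:ℝ) ^ (1:ℝ) ∧ 1 ≤ H := by
    filter_upwards [eventually_ge_atTop H1, evt_log_ge 8,
      evt_log_pow (U + 2) 1 (by norm_num), eventually_ge_atTop 1] with H h1 h3 h4 h5
    exact ⟨h1, h3, h4, h5⟩
  obtain ⟨H0, hH0⟩ := eventually_atTop.mp hev
  refine ⟨B, H0, fun H hH m c hm1 hmL K hK hKH => ?_⟩
  obtain ⟨hH1, hL8, hLH, hHn⟩ := hH0 H hH
  rw [Real.rpow_one] at hLH
  have hm := hmean H hH1 m c hm1 hmL K hK hKH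
  set L := Real.log H with hLdef
  have hL0 : 0 < L := by linarith
  have hL1 : 1 ≤ L := by linarith
  have hLp0 : ∀ n : ℕ, 0 < L ^ n := fun n => by positivity
  have hHr : (1:ℝ) ≤ H := by exact_mod_cast hHn
  have hKn : (0:ℝ) ≤ K := Nat.cast_nonneg _
  have h2 := sum_box_le n H (fun v => sg g m c (po (n + 1) v) K ^ 2) (fun v => sq_nonneg _)
    (fun v => by rw [po_neg, sg_neg]) ((K:ℝ) ^ 2)
    (fun v _ => by
      have h3 := sg_le g h1 m c (po (n + 1) v) K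
      have h4 := sg_nonneg g m c (po (n + 1) v) K
      gcongr) (by positivity)
  refine h2.trans ?_
  rw [sum_pos_box n H (fun v => sg g m c (po (n + 1) v) K ^ 2)]
  simp only [po_eq]
  rw [bx_card] at hm
  rw [bo_card]
  push_cast at hm ⊢
  set W : ℝ := 2 * (H:ℝ) + 1 with hW
  have hW0 : 0 < W := by positivity
  calc _ ≤ 2 * (W ^ n * W * H * (K:ℝ) ^ 2 / L ^ (U + 1)) + W ^ (n + 1) * (K:ℝ) ^ 2 := by gcongr
    _ = (W ^ (n + 1 + 1) * (K:ℝ) ^ 2 / L ^ U) * ((2 * H) / W / L + L ^ U / W) := by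
        rw [pow_succ W (n + 1), pow_succ W n, pow_succ L U]
        field_simp
    _ ≤ (W ^ (n + 1 + 1) * (K:ℝ) ^ 2 / L ^ U) * 1 := by
        apply mul_le_mul_of_nonneg_left _ (by positivity)
        have h2 : (2 * (H:ℝ)) / W / L ≤ 1 / 8 := by
          have h3 : (2 * (H:ℝ)) / W ≤ 1 := by
            rw [div_le_one hW0]; linarith
          have h4 : 0 ≤ (2 * (H:ℝ)) / W := by positivity
          calc (2 * (H:ℝ)) / W / L ≤ 1 / L := by gcongr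
            _ ≤ 1 / 8 := by gcongr
        have h5 : L ^ U / W ≤ 3 / 8 := by
          rw [div_le_div_iff₀ hW0 (by norm_num)]
          have h6 : L ^ U * 8 ≤ L ^ (U + 2) := by
            rw [pow_add]
            have : (8:ℝ) ≤ L ^ 2 := by nlinarith
            gcongr
          have h7 : (H:ℝ) ≤ W := by linarith
          nlinarith
        linarith
    _ = _ := mul_one _

open Classical in
/-- the exceptional set, simultaneously for all `K` in `[H^ε, H / (log H)^B]` -/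
theorem exc_box (g : ℕ → ℂ) (h0 : g 0 = 0) (h1 : ∀ n, ‖g n‖ ≤ 1) (hsup : SupSmall g)
    (j : ℕ) (hj : 1 ≤ j) (ε : ℝ) (hε : 0 < ε) (U : ℕ) :
    ∃ B H0 : ℕ, ∀ H : ℕ, H0 ≤ H →
    (((bo j H).filter (fun v => ∃ K m c : ℕ, (H : ℝ) ^ ε ≤ K ∧ (K : ℝ) * Real.log H ^ B ≤ H ∧
        c < m ∧ (m : ℝ) ≤ Real.log H ^ U ∧
        K / Real.log H ^ U < sg g m c (po j v) K)).card : ℝ) ≤
      ((bo j H).card : ℝ) / Real.log H ^ (U + 1) := by
  obtain ⟨B, H1, hmean⟩ := mean_box g h0 h1 hsup j hj (ε / 2) (by positivity) U (6 * U + 8)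
  have hev : ∀ᶠ H : ℕ in atTop, H1 ≤ H ∧ 8 ≤ Real.log H ∧
      Real.log H ^ 1 ≤ (H:ℝ) ^ (ε / 2) ∧ 3 ≤ H := by
    filter_upwards [eventually_ge_atTop H1,
      evt_log_ge 8, evt_log_pow 1 (ε / 2) (by positivity), eventually_ge_atTop 3]
      with H h1 h3 h6 h7
    exact ⟨h1, h3, h6, h7⟩
  obtain ⟨H0, hH0⟩ := eventually_atTop.mp hev
  refine ⟨B, H0, fun H hH => ?_⟩
  obtain ⟨hH1, hL8, hLε, hH3⟩ := hH0 H hH
  rw [pow_one] at hLε
  set L := Real.log H with hLdef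
  have hL0 : 0 < L := by linarith
  have hL1 : 1 ≤ L := by linarith
  have hLp0 : ∀ n : ℕ, 0 < L ^ n := fun n => by positivity
  have hLp : ∀ n : ℕ, 1 ≤ L ^ n := fun n => one_le_pow₀ hL1
  have hLmono : ∀ m n : ℕ, m ≤ n → L ^ m ≤ L ^ n := fun m n h => pow_le_pow_right₀ hL1 h
  have hHr : (3:ℝ) ≤ H := by exact_mod_cast hH3
  have hH0' : (0:ℝ) < H := by linarith
  set T : ℝ := L ^ (U + 3) with hT
  have hT2 : 2 ≤ T := by
    calc (2:ℝ) ≤ L ^ 1 := by rw [pow_one]; linarith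
      _ ≤ T := hLmono _ _ (by omega)
  have hT0 : 0 < T := by linarith
  set N := ⌊L ^ (U + 4)⌋₊ with hN
  set M := ⌊L ^ U⌋₊ with hM
  have hMle : (M:ℝ) ≤ L ^ U := Nat.floor_le (by positivity)
  set S : ℕ × ℕ × ℕ → Finset (Fin (j + 1) → ℤ) := fun i =>
    if (H : ℝ) ^ (ε / 2) ≤ gr T i.1 ∧ (gr T i.1 : ℝ) * L ^ B ≤ H then
      (bo j H).filter (fun v => (gr T i.1 : ℝ) / L ^ (U + 1) ≤
        sg g (i.2.1 + 1) i.2.2 (po j v) (gr T i.1)) else ∅ with hS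
  set I : Finset (ℕ × ℕ × ℕ) := range (N + 1) ×ˢ (range M ×ˢ range M) with hI
  set P := (bo j H).filter (fun v => ∃ K m c : ℕ, (H : ℝ) ^ ε ≤ K ∧ (K : ℝ) * L ^ B ≤ H ∧
        c < m ∧ (m : ℝ) ≤ L ^ U ∧ K / L ^ U < sg g m c (po j v) K) with hP
  -- the covering
  have hcov : P ⊆ I.biUnion S := by
    intro f hf
    rw [hP, mem_filter] at hf
    obtain ⟨hfb, K, m, c, hK1, hK2, hcm, hmL, hK3⟩ := hf
    have hmM : m ≤ M := Nat.le_floor hmL
    -- size of `K`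
    have hHε : L ^ 2 ≤ (H:ℝ) ^ ε := by
      calc L ^ 2 = L * L := by ring
        _ ≤ (H:ℝ) ^ (ε / 2) * (H:ℝ) ^ (ε / 2) := by gcongr
        _ = (H:ℝ) ^ ε := by rw [← Real.rpow_add hH0']; congr 1; ring
    have hKL2 : L ^ 2 ≤ K := hHε.trans hK1
    have hKr1 : (1:ℝ) ≤ K := (hLp 2).trans hKL2
    have hK1n : 1 ≤ K := by exact_mod_cast hKr1
    have hK0 : (0:ℝ) < K := by linarith
    have hKH : (K:ℝ) ≤ H := by
      calc (K:ℝ) ≤ K * L ^ B := le_mul_of_one_le_right hK0.le (hLp _)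
        _ ≤ H := hK2
    -- the grid
    obtain ⟨g1, g2, g3⟩ := grid T hT2 K hK1n
    set i := ⌊T * Real.log K⌋₊ with hi
    have hiN : i ∈ range (N + 1) := by
      rw [mem_range]
      have h4 : T * Real.log K ≤ L ^ (U + 4) := by
        calc T * Real.log K ≤ T * L := by
              gcongr
              exact Real.log_le_log hK0 hKH
          _ = L ^ (U + 4) := by rw [hT]; ring
      have h5 : i ≤ N := Nat.floor_le_floor h4
      omega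
    have hgd := sg_diff g h1 m c (po j f) g1
    have hgd2 : ((K:ℝ) - gr T i) ≤ K / L ^ (U + 1) := by
      calc ((K:ℝ) - gr T i) ≤ 2 / T * K := g2
        _ = K / L ^ (U + 1) * (2 / L ^ 2) := by
            rw [hT, show U + 3 = (U + 1) + 2 by ring, pow_add L (U + 1) 2]
            field_simp
        _ ≤ K / L ^ (U + 1) * 1 := by
            apply mul_le_mul_of_nonneg_left _ (by positivity)
            rw [div_le_one (by positivity)]
            nlinarith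
        _ = _ := mul_one _
    have hgK : (gr T i : ℝ) ≤ K := by exact_mod_cast g1
    have hfin : (gr T i : ℝ) / L ^ (U + 1) ≤ sg g m c (po j f) (gr T i) := by
      have h4 : (gr T i : ℝ) / L ^ (U + 1) ≤ K / L ^ (U + 1) := by gcongr
      have h5 : 8 * ((K:ℝ) / L ^ (U + 1)) ≤ K / L ^ U := by
        calc 8 * ((K:ℝ) / L ^ (U + 1)) ≤ L * ((K:ℝ) / L ^ (U + 1)) := by gcongr
          _ = K / L ^ U := by
              rw [pow_succ]
              field_simp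
      have h6 : 0 ≤ (K:ℝ) / L ^ (U + 1) := by positivity
      linarith
    rw [mem_biUnion]
    refine ⟨(i, m - 1, c), ?_, ?_⟩
    · rw [hI, mem_product, mem_product]
      refine ⟨hiN, ?_, ?_⟩
      · change m - 1 ∈ range M
        rw [mem_range]
        omega
      · change c ∈ range M
        rw [mem_range]
        omega
    rw [hS]
    simp only
    rw [if_pos]
    · rw [mem_filter, show m - 1 + 1 = m by omega]
      exact ⟨hfb, hfin⟩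
    · constructor
      · have h4 : (H:ℝ) ^ ε = (H:ℝ) ^ (ε / 2) * (H:ℝ) ^ (ε / 2) := by
          rw [← Real.rpow_add hH0']; congr 1; ring
        have h5 : 2 * (H:ℝ) ^ (ε / 2) ≤ (H:ℝ) ^ ε := by
          rw [h4]
          have h6 : 0 < (H:ℝ) ^ (ε / 2) := Real.rpow_pos_of_pos hH0' _
          nlinarith
        linarith
      · refine le_trans ?_ hK2
        gcongr
  -- sizes
  have hScard : ∀ i ∈ I, ((S i).card : ℝ) ≤ ((bo j H).card : ℝ) / L ^ (4 * U + 6) := by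
    intro i hi
    rw [hI, mem_product, mem_product, mem_range, mem_range, mem_range] at hi
    have hi2 : ((i.2.1 + 1 : ℕ) : ℝ) ≤ L ^ U := by
      have h1 : ((i.2.1 + 1 : ℕ) : ℝ) ≤ M := by exact_mod_cast hi.2.1
      exact h1.trans hMle
    rw [hS]
    simp only
    split_ifs with h
    · have h1 := hmean H hH1 (i.2.1 + 1) i.2.2 (by omega) hi2 (gr T i.1) h.1 h.2
      have hg0 : (0:ℝ) < gr T i.1 := lt_of_lt_of_le (Real.rpow_pos_of_pos hH0' _) h.1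
      set Q := (bo j H).filter (fun c => (gr T i.1 : ℝ) / L ^ (U + 1) ≤ sg g (i.2.1 + 1) i.2.2 (po j c) (gr T i.1)) with hQ
      have h2 : (Q.card : ℝ) * ((gr T i.1 : ℝ) / L ^ (U + 1)) ^ 2 ≤
          ((bo j H).card : ℝ) * (gr T i.1 : ℝ) ^ 2 / L ^ (6 * U + 8) := by
        refine le_trans ?_ h1
        calc (Q.card : ℝ) * ((gr T i.1 : ℝ) / L ^ (U + 1)) ^ 2 =
              ∑ c ∈ Q, ((gr T i.1 : ℝ) / L ^ (U + 1)) ^ 2 := by rw [sum_const, nsmul_eq_mul]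
          _ ≤ ∑ c ∈ Q, sg g (i.2.1 + 1) i.2.2 (po j c) (gr T i.1) ^ 2 :=
              sum_le_sum fun c hc => by
                have h3 := (mem_filter.mp hc).2
                gcongr
          _ ≤ _ := sum_le_sum_of_subset_of_nonneg (filter_subset _ _)
              fun _ _ _ => sq_nonneg _
      have h3 : ((bo j H).card : ℝ) * (gr T i.1 : ℝ) ^ 2 / L ^ (6 * U + 8) =
          (((bo j H).card : ℝ) / L ^ (4 * U + 6)) * ((gr T i.1 : ℝ) / L ^ (U + 1)) ^ 2 := by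
        rw [show 6 * U + 8 = (4 * U + 6) + (U + 1) * 2 by ring, pow_add, pow_mul, div_pow]
        field_simp
      rw [h3] at h2
      exact le_of_mul_le_mul_right h2 (by positivity)
    · simp only [card_empty, Nat.cast_zero]
      positivity
  have hNle : ((N + 1 : ℕ) : ℝ) ≤ 2 * L ^ (U + 4) := by
    have h1 : (N:ℝ) ≤ L ^ (U + 4) := Nat.floor_le (by positivity)
    push_cast
    have := hLp (U + 4)
    linarith
  have hPc : (P.card : ℝ) ≤ ∑ i ∈ I, ((S i).card : ℝ) := by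
    have h1 : P.card ≤ ∑ i ∈ I, (S i).card := (card_le_card hcov).trans card_biUnion_le
    exact_mod_cast h1
  have hIc : (I.card : ℝ) = ((N + 1 : ℕ) : ℝ) * ((M : ℝ) * M) := by
    rw [hI, card_product, card_product, card_range, card_range]
    push_cast
    ring
  calc (P.card : ℝ) ≤ ∑ i ∈ I, ((S i).card : ℝ) := hPc
    _ ≤ ∑ i ∈ I, ((bo j H).card : ℝ) / L ^ (4 * U + 6) := sum_le_sum hScard
    _ = (((N + 1 : ℕ) : ℝ) * ((M : ℝ) * M)) * (((bo j H).card : ℝ) / L ^ (4 * U + 6)) := by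
        rw [sum_const, nsmul_eq_mul, hIc]
    _ ≤ ((2 * L ^ (U + 4)) * (L ^ U * L ^ U)) * (((bo j H).card : ℝ) / L ^ (4 * U + 6)) := by gcongr
    _ = ((bo j H).card : ℝ) / L ^ (U + 1) * (2 / L) := by
        rw [show 4 * U + 6 = (U + 4) + ((U + U) + ((U + 1) + 1)) by ring, pow_add L (U + 4) _,
          pow_add L (U + U) _, pow_succ L (U + 1), pow_add L U U]
        have e7 : L ^ (U + 4) ≠ 0 := (hLp0 _).ne'
        have e8 : L ^ U ≠ 0 := (hLp0 _).ne'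
        field_simp
    _ ≤ ((bo j H).card : ℝ) / L ^ (U + 1) * 1 := by
        apply mul_le_mul_of_nonneg_left _ (by positivity)
        rw [div_le_one hL0]
        linarith
    _ = _ := mul_one _

end Pool.Agent.H974R3.LA
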