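import Mathlib

set_option autoImplicit false

namespace Pool.Agent.H974R3.RC

open Finset

variable {V : Type} [Fintype V] [DecidableEq V] (G : SimpleGraph V) [DecidableRel G.Adj]

/-- vectors supported on `S` killed by the rows of `S` -/
def KS (S : Finset V) : Submodule ℝ (V → ℝ) where
  carrier := {x | (∀ u, u ∉ S → x u = 0) ∧ ∀ u ∈ S, ((G.adjMatrix ℝ).mulVec x) u = 0}
  add_mem' := by
    rintro x y ⟨hx1, hx2⟩ ⟨hy1, hy2⟩
    refine ⟨fun u hu => by simp [hx1 u hu, hy1 u hu], fun u hu => ?_⟩
    rw [Matrix.mulVec_add, Pi.add_apply, hx2 u hu, hy2 u hu, add_zero]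
  zero_mem' := by
    refine ⟨fun u _ => rfl, fun u _ => ?_⟩
    rw [Matrix.mulVec_zero]; rfl
  smul_mem' := by
    rintro c x ⟨hx1, hx2⟩
    refine ⟨fun u hu => by simp [hx1 u hu], fun u hu => ?_⟩
    rw [Matrix.mulVec_smul, Pi.smul_apply, hx2 u hu, smul_zero]

lemma mem_KS (S : Finset V) (x : V → ℝ) : x ∈ KS G S ↔
    (∀ u, u ∉ S → x u = 0) ∧ ∀ u ∈ S, ∑ v, (if G.Adj u v then x v else 0) = 0 := by
  have : ∀ u, ((G.adjMatrix ℝ).mulVec x) u = ∑ v, (if G.Adj u v then x v else 0) := by
    intro u
    simp only [Matrix.mulVec, dotProduct, SimpleGraph.adjMatrix_apply, ite_mul, one_mul, zero_mul]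
  constructor
  · rintro ⟨h1, h2⟩
    exact ⟨h1, fun u hu => by rw [← this]; exact h2 u hu⟩
  · rintro ⟨h1, h2⟩
    exact ⟨h1, fun u hu => by rw [this]; exact h2 u hu⟩

lemma fin_le {P Q : Submodule ℝ (V → ℝ)} (φ : (V → ℝ) →ₗ[ℝ] (V → ℝ))
    (h1 : ∀ x ∈ P, φ x ∈ Q) (h2 : ∀ x ∈ P, φ x = 0 → x = 0) :
    Module.finrank ℝ P ≤ Module.finrank ℝ Q := by
  let ψ : P →ₗ[ℝ] Q := (φ.restrict h1)
  apply LinearMap.finrank_le_finrank_of_injective (f := ψ)
  rw [← LinearMap.ker_eq_bot, LinearMap.ker_eq_bot']
  intro x hx
  have : φ x = 0 := by
    have := congrArg Subtype.val hx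
    simpa [ψ] using this
  exact Subtype.ext (h2 x x.2 this)

lemma fin_le_succ {P Q : Submodule ℝ (V → ℝ)} (f : (V → ℝ) →ₗ[ℝ] ℝ)
    (h : ∀ x ∈ P, f x = 0 → x ∈ Q) :
    Module.finrank ℝ P ≤ Module.finrank ℝ Q + 1 := by
  let g : P →ₗ[ℝ] ℝ := f.domRestrict P
  have h1 := LinearMap.finrank_range_add_finrank_ker g
  have h2 : Module.finrank ℝ (LinearMap.range g) ≤ 1 := by
    have := Submodule.finrank_le (LinearMap.range g)
    simpa using this
  have h3 : Module.finrank ℝ (LinearMap.ker g) ≤ Module.finrank ℝ Q := by
    let ψ : LinearMap.ker g →ₗ[ℝ] Q :=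
      { toFun := fun x => ⟨x.1.1, h x.1.1 x.1.2 (LinearMap.mem_ker.mp x.2)⟩
        map_add' := fun x y => rfl
        map_smul' := fun c x => rfl }
    apply LinearMap.finrank_le_finrank_of_injective (f := ψ)
    intro x y hxy
    have := congrArg Subtype.val hxy
    exact Subtype.ext (Subtype.ext this)
  omega

lemma d_insert (S : Finset V) (a : V) (ha : a ∉ S) :
    Module.finrank ℝ (KS G (insert a S)) ≤ Module.finrank ℝ (KS G S) + 1 := by
  apply fin_le_succ (LinearMap.proj a)
  intro x hx h0
  rw [mem_KS] at hx ⊢
  refine ⟨fun u hu => ?_, fun u hu => hx.2 u (Finset.mem_insert_of_mem hu)⟩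
  by_cases hua : u = a
  · subst hua; exact h0
  · exact hx.1 u (by simp [hua, hu])

lemma d_mono {S T : Finset V} (h : S ⊆ T) :
    Module.finrank ℝ (KS G T) + S.card ≤ Module.finrank ℝ (KS G S) + T.card := by
  induction T using Finset.induction_on generalizing S with
  | empty =>
    have : S = ∅ := Finset.subset_empty.mp h
    subst this; simp
  | insert a T ha ih =>
    by_cases haS : a ∈ S
    · -- S = insert a S'
      -- use chain through T ∪ ... : go S ⊆ insert a T
      have h1 : ∀ U : Finset V, S ⊆ U → ∀ W : Finset V, Disjoint U W →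
          Module.finrank ℝ (KS G (U ∪ W)) + U.card ≤ Module.finrank ℝ (KS G U) + (U ∪ W).card := by
        intro U _ W
        induction W using Finset.induction_on with
        | empty => intro _; rw [Finset.union_empty]
        | insert b W hb ihW =>
          intro hd
          rw [Finset.disjoint_insert_right] at hd
          have h2 := ihW hd.2
          have h3 : b ∉ U ∪ W := by
            rw [Finset.mem_union]; push Not; exact ⟨hd.1, hb⟩
          have h4 := d_insert G (U ∪ W) b h3
          rw [Finset.union_insert, Finset.card_insert_of_notMem h3]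
          omega
      have h2 := h1 S (Finset.Subset.refl S) (insert a T \ S) Finset.disjoint_sdiff
      rw [Finset.union_sdiff_of_subset h] at h2
      exact h2
    · have hST : S ⊆ T := by
        intro x hx
        have := h hx
        rw [Finset.mem_insert] at this
        rcases this with rfl | h'
        · exact absurd hx haS
        · exact h'
      have h1 := ih hST
      have h2 := d_insert G T a ha
      rw [Finset.card_insert_of_notMem ha]
      omega

/-- the rank drop by two -/
lemma d_drop {S T : Finset V} (h : S ⊆ T) (b y : V) (hb : b ∈ T) (hy : y ∈ T) (hby : G.Adj b y)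
    (hS : ∀ v ∈ S, ¬ G.Adj b v) :
    Module.finrank ℝ (KS G T) + S.card + 2 ≤ Module.finrank ℝ (KS G S) + T.card := by
  set S' := S.erase b with hS'
  have hyb : y ≠ b := fun hh => G.loopless.irrefl b (hh ▸ hby)
  have hyS : y ∉ S := fun hh => hS y hh hby
  have hyS' : y ∉ S' := fun hh => hyS (Finset.mem_of_mem_erase hh)
  have hbS' : b ∉ S' := Finset.notMem_erase b S
  have hb2 : b ∉ insert y S' := by
    rw [Finset.mem_insert]; push Not; exact ⟨fun hh => hyb hh.symm, hbS'⟩
  set T' := insert b (insert y S') with hT'
  have hT'c : T'.card = S'.card + 2 := by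
    rw [hT', Finset.card_insert_of_notMem hb2, Finset.card_insert_of_notMem hyS']
  have hT'T : T' ⊆ T := by
    intro v hv
    rw [hT', Finset.mem_insert, Finset.mem_insert] at hv
    rcases hv with rfl | rfl | hv
    · exact hb
    · exact hy
    · exact h (Finset.mem_of_mem_erase hv)
  have h1 := d_mono G hT'T
  -- claim A
  have hA : Module.finrank ℝ (KS G T') ≤ Module.finrank ℝ (KS G S') := by
    have rowb : ∀ x ∈ KS G T', x y = 0 := by
      intro x hx
      rw [mem_KS] at hx
      have h2 := hx.2 b (by rw [hT']; exact Finset.mem_insert_self _ _)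
      rw [Finset.sum_eq_single y] at h2
      · rwa [if_pos hby] at h2
      · intro v _ hvy
        split_ifs with hbv
        · apply hx.1
          rw [hT', Finset.mem_insert, Finset.mem_insert]
          push Not
          refine ⟨?_, hvy, ?_⟩
          · rintro rfl; exact G.loopless.irrefl _ hbv
          · intro hv; exact hS v (Finset.mem_of_mem_erase hv) hbv
        · rfl
      · intro hh; exact absurd (Finset.mem_univ y) hh
    let φ : (V → ℝ) →ₗ[ℝ] (V → ℝ) :=
      { toFun := fun x v => if v = b then 0 else x v
        map_add' := by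
          intro x z; funext v; simp only [Pi.add_apply]; split_ifs <;> simp
        map_smul' := by
          intro c x; funext v; simp only [Pi.smul_apply, RingHom.id_apply]; split_ifs <;> simp }
    apply fin_le φ
    · intro x hx
      have hxy := rowb x hx
      rw [mem_KS] at hx ⊢
      refine ⟨fun u hu => ?_, fun u hu => ?_⟩
      · show (if u = b then 0 else x u) = 0
        split_ifs with hub
        · rfl
        · by_cases huy : u = y
          · rw [huy]; exact hxy
          · apply hx.1
            rw [hT', Finset.mem_insert, Finset.mem_insert]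
            push Not
            exact ⟨hub, huy, hu⟩
      · have h2 := hx.2 u (by
          rw [hT']; exact Finset.mem_insert_of_mem (Finset.mem_insert_of_mem hu))
        have h5 : ∑ v, (if G.Adj u v then (φ x) v else 0) = ∑ v, (if G.Adj u v then x v else 0) := by
          apply Finset.sum_congr rfl
          intro v _
          change (if G.Adj u v then (if v = b then 0 else x v) else 0) = _
          split_ifs with h3 h4
          · exfalso
            rw [h4] at h3
            exact hS u (Finset.mem_of_mem_erase hu) h3.symm
          · rfl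
          · rfl
        rw [h5]; exact h2
    · intro x hx h0
      have hxy := rowb x hx
      have hx0 : ∀ v, v ≠ b → x v = 0 := by
        intro v hv
        have := congrFun h0 v
        change (if v = b then 0 else x v) = 0 at this
        rwa [if_neg hv] at this
      rw [mem_KS] at hx
      have h2 := hx.2 y (by
        rw [hT']; exact Finset.mem_insert_of_mem (Finset.mem_insert_self _ _))
      rw [Finset.sum_eq_single b] at h2
      · rw [if_pos hby.symm] at h2
        funext v
        by_cases hv : v = b
        · rw [hv]; exact h2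
        · exact hx0 v hv
      · intro v _ hvb
        rw [hx0 v hvb]; simp
      · intro hh; exact absurd (Finset.mem_univ b) hh
  -- claim B
  have hB : Module.finrank ℝ (KS G S') + S.card ≤ Module.finrank ℝ (KS G S) + S'.card := by
    by_cases hbS : b ∈ S
    · have hlt : KS G S' < KS G S := by
        refine lt_of_le_of_ne ?_ ?_
        · intro x hx
          rw [mem_KS] at hx ⊢
          refine ⟨fun u hu => hx.1 u (fun hh => hu (Finset.mem_of_mem_erase hh)), fun u hu => ?_⟩
          by_cases hub : u = b
          · rw [hub]
            apply Finset.sum_eq_zero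
            intro v _
            split_ifs with hv
            · apply hx.1
              intro hh
              exact hS v (Finset.mem_of_mem_erase hh) hv
            · rfl
          · exact hx.2 u (Finset.mem_erase.mpr ⟨hub, hu⟩)
        · intro heq
          have : (Pi.single b (1 : ℝ) : V → ℝ) ∈ KS G S := by
            rw [mem_KS]
            refine ⟨fun u hu => ?_, fun u hu => ?_⟩
            · apply Pi.single_eq_of_ne
              rintro rfl; exact hu hbS
            · apply Finset.sum_eq_zero
              intro v _
              split_ifs with hv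
              · apply Pi.single_eq_of_ne
                rintro rfl
                exact hS u hu hv.symm
              · rfl
          rw [← heq, mem_KS] at this
          have := this.1 b hbS'
          rw [Pi.single_eq_same] at this
          norm_num at this
      have h2 := Submodule.finrank_lt_finrank_of_lt hlt
      have h3 : S'.card + 1 = S.card := by
        rw [hS']; exact Finset.card_erase_add_one hbS
      omega
    · have : S' = S := Finset.erase_eq_of_notMem hbS
      rw [this]
  omega

/-- rank of the whole graph -/
lemma rank_univ : (G.adjMatrix ℝ).rank + Module.finrank ℝ (KS G univ) = Fintype.card V := by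
  have h1 := LinearMap.finrank_range_add_finrank_ker (G.adjMatrix ℝ).mulVecLin
  have h2 : KS G univ = LinearMap.ker (G.adjMatrix ℝ).mulVecLin := by
    ext x
    rw [LinearMap.mem_ker, Matrix.mulVecLin_apply]
    constructor
    · rintro ⟨_, h⟩
      funext u
      exact h u (Finset.mem_univ u)
    · intro h
      exact ⟨fun u hu => absurd (Finset.mem_univ u) hu, fun u _ => by rw [h]; rfl⟩
  rw [h2]
  rw [Module.finrank_fintype_fun_eq_card] at h1
  exact h1

lemma finrank_le_card (S : Finset V) : Module.finrank ℝ (KS G S) ≤ S.card := by
  have h := d_mono G (Finset.empty_subset S)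
  have h0 : Module.finrank ℝ (KS G ∅) = 0 := by
    have : KS G (∅ : Finset V) = ⊥ := by
      rw [eq_bot_iff]
      intro x hx
      rw [mem_KS] at hx
      rw [Submodule.mem_bot]
      funext u
      exact hx.1 u (by simp)
    rw [this]; simp
  simp only [Finset.card_empty] at h
  omega

/-- colourings of a set -/
def Col (S : Finset V) (N : ℕ) : Prop :=
  ∃ c : V → ℕ, (∀ v ∈ S, c v < N) ∧ ∀ u ∈ S, ∀ v ∈ S, G.Adj u v → c u ≠ c v

lemma Col.union {S1 S2 : Finset V} {N1 N2 : ℕ} (h1 : Col G S1 N1) (h2 : Col G S2 N2) :
    Col G (S1 ∪ S2) (N1 + N2) := by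
  obtain ⟨c1, a1, b1⟩ := h1
  obtain ⟨c2, a2, b2⟩ := h2
  have hm : ∀ v ∈ S1 ∪ S2, v ∉ S1 → v ∈ S2 := by
    intro v hv hv1
    exact (Finset.mem_union.mp hv).resolve_left hv1
  refine ⟨fun v => if v ∈ S1 then c1 v else N1 + c2 v, ?_, ?_⟩
  · intro v hv
    by_cases hv1 : v ∈ S1
    · simp only [hv1, if_true]
      have := a1 v hv1; omega
    · simp only [hv1, if_false]
      have := a2 v (hm v hv hv1); omega
  · intro u hu v hv huv
    by_cases hu1 : u ∈ S1 <;> by_cases hv1 : v ∈ S1
    · simp only [hu1, hv1, if_true]
      exact b1 u hu1 v hv1 huv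
    · simp only [hu1, hv1, if_true, if_false]
      have := a1 u hu1; omega
    · simp only [hu1, hv1, if_true, if_false]
      have := a1 v hv1; omega
    · simp only [hu1, hv1, if_false]
      have := b2 u (hm u hu hu1) v (hm v hv hv1) huv
      omega

lemma Col.mono {S : Finset V} {N M : ℕ} (h : Col G S N) (hNM : N ≤ M) : Col G S M := by
  obtain ⟨c, a, b⟩ := h
  exact ⟨c, fun v hv => lt_of_lt_of_le (a v hv) hNM, b⟩

/-- ladders inside `S` of length `m` -/
def Lad : ℕ → Finset V → Prop
  | 0, _ => True
  | m + 1, S => ∃ b ∈ S, ∃ y ∈ S, G.Adj b y ∧ Lad m (S.filter (fun v => ¬ G.Adj b v))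

lemma col_of (m : ℕ) : ∀ (k : ℕ) (S : Finset V), ¬ Lad G (m + 1) S →
    (∀ Q : Finset V, Q ⊆ S → G.IsClique (Q : Set V) → Q.card ≤ k + 1) →
    Col G S ((m + k).choose k) := by
  have triv : ∀ (S : Finset V) (N : ℕ), 1 ≤ N → (∀ u ∈ S, ∀ v ∈ S, ¬ G.Adj u v) → Col G S N := by
    intro S N hN h
    exact ⟨fun _ => 0, fun _ _ => Nat.lt_of_lt_of_le Nat.zero_lt_one hN,
      fun u hu v hv huv => absurd huv (h u hu v hv)⟩
  induction m with
  | zero =>
    intro k S hS _
    apply triv S _ (by simp)
    intro u hu v hv huv
    exact hS ⟨u, hu, v, hv, huv, trivial⟩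
  | succ m ihm =>
    intro k
    induction k with
    | zero =>
      intro S _ hk
      apply triv S _ (by simp)
      intro u hu v hv huv
      have hne : u ≠ v := fun h => G.loopless.irrefl u (h ▸ huv)
      have h1 := hk {u, v} (by
        intro w hw
        rw [Finset.mem_insert, Finset.mem_singleton] at hw
        rcases hw with rfl | rfl
        · exact hu
        · exact hv) (by
        intro a ha c hc hac
        simp only [Finset.coe_insert, Finset.coe_singleton, Set.mem_insert_iff,
          Set.mem_singleton_iff] at ha hc
        rcases ha with rfl | rfl <;> rcases hc with rfl | rfl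
        · exact absurd rfl hac
        · exact huv
        · exact huv.symm
        · exact absurd rfl hac)
      rw [Finset.card_pair hne] at h1
      omega
    | succ k ihk =>
      intro S hS hk
      by_cases hE : ∃ b ∈ S, ∃ y ∈ S, G.Adj b y
      · obtain ⟨b, hb, y, hy, hby⟩ := hE
        have hC : Col G (S.filter (fun v => ¬ G.Adj b v)) ((m + (k + 1)).choose (k + 1)) := by
          apply ihm (k + 1)
          · intro hL
            exact hS ⟨b, hb, y, hy, hby, hL⟩
          · intro Q hQ hcl
            exact hk Q (hQ.trans (Finset.filter_subset _ _)) hcl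
        have hN : Col G (S.filter (fun v => G.Adj b v)) ((m + 1 + k).choose k) := by
          apply ihk
          · intro hL
            apply hS
            -- monotonicity of ladders
            have mono : ∀ (j : ℕ) (A B : Finset V), A ⊆ B → Lad G j A → Lad G j B := by
              intro j
              induction j with
              | zero => intro A B _ _; trivial
              | succ j ih =>
                rintro A B hAB ⟨b', hb', y', hy', hadj, hl⟩
                exact ⟨b', hAB hb', y', hAB hy', hadj, ih _ _ (Finset.filter_subset_filter _ hAB) hl⟩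
            exact mono _ _ _ (Finset.filter_subset _ _) hL
          · intro Q hQ hcl
            have hbQ : b ∉ Q := by
              intro h
              have := hQ h
              rw [Finset.mem_filter] at this
              exact G.loopless.irrefl b this.2
            have h1 := hk (insert b Q) (by
              intro v hv
              rw [Finset.mem_insert] at hv
              rcases hv with rfl | hv
              · exact hb
              · exact (Finset.mem_filter.mp (hQ hv)).1) (by
              rw [Finset.coe_insert, SimpleGraph.isClique_insert]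
              refine ⟨hcl, fun v hv _ => ?_⟩
              exact (Finset.mem_filter.mp (hQ hv)).2)
            rw [Finset.card_insert_of_notMem hbQ] at h1
            omega
        have hU := Col.union G hN hC
        have hS2 : S.filter (fun v => G.Adj b v) ∪ S.filter (fun v => ¬ G.Adj b v) = S :=
          Finset.filter_union_filter_not_eq _ _
        rw [hS2] at hU
        apply Col.mono G hU
        have e1 : m + 1 + (k + 1) = (m + 1 + k) + 1 := by ring
        rw [e1, Nat.choose_succ_succ]
        have e2 : m + (k + 1) = m + 1 + k := by ring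
        rw [e2]
      · push Not at hE
        apply triv S _ _ hE
        exact Nat.choose_pos (by omega)

lemma lad_rank (m : ℕ) : ∀ S : Finset V, Lad G m S → Module.finrank ℝ (KS G S) + 2 * m ≤ S.card := by
  induction m with
  | zero => intro S _; simpa using finrank_le_card G S
  | succ m ih =>
    rintro S ⟨b, hb, y, hy, hby, hl⟩
    have h1 := ih _ hl
    have h2 := d_drop G (Finset.filter_subset (fun v => ¬ G.Adj b v) S) b y hb hy hby (by
      intro v hv
      exact (Finset.mem_filter.mp hv).2)
    omega

lemma clique_rank (Q : Finset V) (hQ : G.IsClique (Q : Set V)) (h2 : 2 ≤ Q.card) :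
    Q.card ≤ (G.adjMatrix ℝ).rank := by
  have h0 : Module.finrank ℝ (KS G Q) = 0 := by
    have : KS G Q = ⊥ := by
      rw [eq_bot_iff]
      intro x hx
      rw [mem_KS] at hx
      rw [Submodule.mem_bot]
      have hrow : ∀ u ∈ Q, (∑ v ∈ Q, x v) - x u = 0 := by
        intro u hu
        rw [← hx.2 u hu, ← Finset.sum_erase_eq_sub hu]
        rw [← Finset.sum_filter]
        symm
        apply Finset.sum_subset_zero_on_sdiff (s₁ := Q.erase u)
          (s₂ := univ.filter (fun v => G.Adj u v)) ?_ ?_ ?_ |>.symm
        · intro v hv
          rw [Finset.mem_erase] at hv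
          rw [Finset.mem_filter]
          exact ⟨Finset.mem_univ v, hQ hu hv.2 hv.1.symm⟩
        · intro v hv
          rw [Finset.mem_sdiff, Finset.mem_filter, Finset.mem_erase] at hv
          apply hx.1
          intro hvQ
          apply hv.2
          exact ⟨fun h => G.loopless.irrefl u (by rw [h] at hv; exact hv.1.2), hvQ⟩
        · intro v _; rfl
      set s := ∑ v ∈ Q, x v with hs
      have hxu : ∀ u ∈ Q, x u = s := by
        intro u hu
        have := hrow u hu
        linarith
      have h3 : s = Q.card * s := by
        conv_lhs => rw [hs, Finset.sum_congr rfl hxu]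
        rw [Finset.sum_const, nsmul_eq_mul]
      have h4 : (2 : ℝ) ≤ Q.card := by exact_mod_cast h2
      have h5 : s = 0 := by
        have : s * ((Q.card : ℝ) - 1) = 0 := by linarith
        rcases mul_eq_zero.mp this with h | h
        · exact h
        · linarith
      funext u
      by_cases hu : u ∈ Q
      · rw [hxu u hu, h5]; rfl
      · exact hx.1 u hu
    rw [this]; simp
  have h1 := d_mono G (Finset.subset_univ Q)
  have h3 := rank_univ G
  rw [Finset.card_univ] at h1
  omega

lemma choose_le (m t : ℕ) : (m + t).choose t ≤ (m + 1) ^ t := by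
  induction t with
  | zero => simp
  | succ t ih =>
    have h1 := Nat.add_one_mul_choose_eq (m + t) t
    have h2 : (m + t + 1) * (m + t).choose t ≤ (m + 1) ^ (t + 1) * (t + 1) := by
      have h3 : m + t + 1 ≤ (m + 1) * (t + 1) := by nlinarith
      calc (m + t + 1) * (m + t).choose t ≤ ((m + 1) * (t + 1)) * (m + 1) ^ t :=
            Nat.mul_le_mul h3 ih
        _ = _ := by rw [pow_succ]; ring
    rw [h1] at h2
    have e : m + (t + 1) = m + t + 1 := by ring
    rw [e]
    exact Nat.le_of_mul_le_mul_right h2 (Nat.succ_pos t)

end Pool.Agent.H974R3.RC
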