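import Pool.Agent.H974R3.RankCol

set_option autoImplicit false
set_option linter.unusedSectionVars false

namespace Pool.Agent.H974R3.RC

open Finset

variable {V : Type} [Fintype V] [DecidableEq V] (G : SimpleGraph V) [DecidableRel G.Adj]

/-- embedding lemma: an induced copy of `H` or a large very sparse / very dense pair -/
lemma embed (R s : ℕ) (hR : 1 ≤ R) (hs : 4 * R ≤ s) : ∀ (k : ℕ) (H : SimpleGraph (Fin k))
    (C : Fin k → Finset V), (∀ j, s * k * (4 * R) ^ k ≤ (C j).card) →
    (∃ f : Fin k → V, Function.Injective f ∧ (∀ j, f j ∈ C j) ∧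
      ∀ i j, i ≠ j → (G.Adj (f i) (f j) ↔ H.Adj i j)) ∨
    (∃ X Y : Finset V, s ≤ X.card ∧ s ≤ Y.card ∧ (∃ i, X ⊆ C i) ∧ (∃ j, Y ⊆ C j) ∧
      ((∀ x ∈ X, (Y.filter (fun y => G.Adj x y)).card * (2 * R) ≤ Y.card) ∨
       (∀ x ∈ X, (Y.filter (fun y => ¬ G.Adj x y)).card * (2 * R) ≤ Y.card))) := by
  intro k
  induction k with
  | zero =>
    intro H C _
    left
    exact ⟨fun j => j.elim0, fun j => j.elim0, fun j => j.elim0, fun j => j.elim0⟩
  | succ k ih =>
    intro H C hC
    classical
    set C' : V → Fin k → Finset V := fun v j =>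
      if H.Adj 0 j.succ then (C j.succ).filter (fun u => G.Adj v u)
      else (C j.succ).filter (fun u => ¬ G.Adj v u ∧ u ≠ v) with hC'
    have hsub : ∀ v j, C' v j ⊆ C j.succ := by
      intro v j
      simp only [hC']
      split_ifs
      · exact Finset.filter_subset _ _
      · exact Finset.filter_subset _ _
    have hRp : 0 < 4 * R := by omega
    by_cases hgood : ∃ v ∈ C 0, ∀ j, (C j.succ).card ≤ (C' v j).card * (4 * R)
    · obtain ⟨v, hv, hg⟩ := hgood
      have hsize : ∀ j, s * k * (4 * R) ^ k ≤ (C' v j).card := by
        intro j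
        have h1 := hC j.succ
        have h2 := hg j
        have h3 : s * (k + 1) * (4 * R) ^ k * (4 * R) ≤ (C' v j).card * (4 * R) := by
          calc s * (k + 1) * (4 * R) ^ k * (4 * R) = s * (k + 1) * (4 * R) ^ (k + 1) := by
                rw [pow_succ]; ring
            _ ≤ _ := le_trans h1 h2
        have h4 := Nat.le_of_mul_le_mul_right h3 hRp
        refine le_trans ?_ h4
        apply Nat.mul_le_mul_right
        apply Nat.mul_le_mul_left
        omega
      rcases ih (H.comap Fin.succ) (C' v) hsize with ⟨f, hinj, hf, hadj⟩ | ⟨X, Y, hX, hY, hXi, hYj, hXY⟩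
      · left
        have hfv : ∀ j, f j ≠ v := by
          intro j hj
          have h1 := hf j
          rw [hj] at h1
          simp only [hC'] at h1
          split_ifs at h1
          · rw [Finset.mem_filter] at h1
            exact G.loopless.irrefl v h1.2
          · rw [Finset.mem_filter] at h1
            exact h1.2.2 rfl
        have hva : ∀ j, G.Adj v (f j) ↔ H.Adj 0 j.succ := by
          intro j
          have h1 := hf j
          simp only [hC'] at h1
          split_ifs at h1 with hH
          · rw [Finset.mem_filter] at h1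
            exact ⟨fun _ => hH, fun _ => h1.2⟩
          · rw [Finset.mem_filter] at h1
            exact ⟨fun h => absurd h h1.2.1, fun h => absurd h hH⟩
        refine ⟨Fin.cons v f, ?_, ?_, ?_⟩
        · intro i j hij
          induction i using Fin.cases with
          | zero =>
            induction j using Fin.cases with
            | zero => rfl
            | succ j => simp only [Fin.cons_zero, Fin.cons_succ] at hij; exact absurd hij.symm (hfv j)
          | succ i =>
            induction j using Fin.cases with
            | zero => simp only [Fin.cons_zero, Fin.cons_succ] at hij; exact absurd hij (hfv i)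
            | succ j => simp only [Fin.cons_succ] at hij; rw [hinj hij]
        · intro j
          induction j using Fin.cases with
          | zero => simpa using hv
          | succ j => simp only [Fin.cons_succ]; exact hsub v j (hf j)
        · intro i j hij
          induction i using Fin.cases with
          | zero =>
            induction j using Fin.cases with
            | zero => exact absurd rfl hij
            | succ j => simp only [Fin.cons_zero, Fin.cons_succ]; exact hva j
          | succ i =>
            induction j using Fin.cases with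
            | zero =>
              simp only [Fin.cons_zero, Fin.cons_succ]
              rw [G.adj_comm, H.adj_comm]; exact hva i
            | succ j =>
              simp only [Fin.cons_succ]
              have := hadj i j (fun h => hij (by rw [h]))
              rw [this, SimpleGraph.comap_adj]
      · right
        obtain ⟨i, hi⟩ := hXi
        obtain ⟨j, hj⟩ := hYj
        exact ⟨X, Y, hX, hY, ⟨i.succ, hi.trans (hsub v i)⟩, ⟨j.succ, hj.trans (hsub v j)⟩, hXY⟩
    · right
      push Not at hgood
      set Xj : Fin k → Finset V := fun j => (C 0).filter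
        (fun v => (C' v j).card * (4 * R) < (C j.succ).card) with hXj
      have hcover : C 0 ⊆ univ.biUnion Xj := by
        intro v hv
        obtain ⟨j, hj⟩ := hgood v hv
        rw [Finset.mem_biUnion]
        exact ⟨j, Finset.mem_univ j, Finset.mem_filter.mpr ⟨hv, hj⟩⟩
      have hC0 := hC 0
      have hpow : 1 ≤ (4 * R) ^ (k + 1) := Nat.one_le_pow _ _ hRp
      have hex : ∃ j, s ≤ (Xj j).card := by
        by_contra hcon
        push Not at hcon
        have h1 := le_trans (Finset.card_le_card hcover) Finset.card_biUnion_le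
        have h2 : ∑ j, (Xj j).card ≤ ∑ _j : Fin k, s := Finset.sum_le_sum (fun j _ => (hcon j).le)
        rw [Finset.sum_const, Finset.card_univ, Fintype.card_fin, smul_eq_mul] at h2
        have h3 : s * (k + 1) * 1 ≤ s * (k + 1) * (4 * R) ^ (k + 1) := Nat.mul_le_mul_left _ hpow
        have h4 : s * (k + 1) ≤ k * s := by
          calc s * (k + 1) = s * (k + 1) * 1 := by ring
            _ ≤ k * s := le_trans h3 (le_trans hC0 (le_trans h1 h2))
        nlinarith
      obtain ⟨j, hj⟩ := hex
      have hY : s ≤ (C j.succ).card := by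
        refine le_trans ?_ (hC j.succ)
        calc s = s * 1 * 1 := by ring
          _ ≤ s * (k + 1) * (4 * R) ^ (k + 1) :=
            Nat.mul_le_mul (Nat.mul_le_mul_left _ (by omega)) hpow
      refine ⟨Xj j, C j.succ, hj, hY, ⟨0, Finset.filter_subset _ _⟩, ⟨j.succ, Finset.Subset.refl _⟩, ?_⟩
      by_cases hH : H.Adj 0 j.succ
      · left
        intro x hx
        simp only [hXj, Finset.mem_filter] at hx
        have h1 := hx.2
        simp only [hC', if_pos hH] at h1
        nlinarith
      · right
        intro x hx
        simp only [hXj, Finset.mem_filter] at hx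
        have h1 := hx.2
        simp only [hC', if_neg hH] at h1
        have h2 : (C j.succ).filter (fun y => ¬ G.Adj x y) ⊆
            insert x ((C j.succ).filter (fun u => ¬ G.Adj x u ∧ u ≠ x)) := by
          intro y hy
          rw [Finset.mem_filter] at hy
          rw [Finset.mem_insert, Finset.mem_filter]
          by_cases hyx : y = x
          · left; exact hyx
          · right; exact ⟨hy.1, hy.2, hyx⟩
        have h3 := le_trans (Finset.card_le_card h2) (Finset.card_insert_le _ _)
        have h4 : 4 * R ≤ (C j.succ).card := le_trans hs hY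
        nlinarith

/-- the rank lemma -/
lemma pure_of (W : Submodule ℝ (V → ℝ)) (R : ℕ) (hR : 1 ≤ R) (hW : Module.finrank ℝ W ≤ R)
    (w : V → V → ℝ) (X Y : Finset V) (hw : ∀ x ∈ X, w x ∈ W)
    (hc : ∀ x ∈ X, (Y.filter (fun y => w x y ≠ 0)).card * (2 * R) ≤ Y.card) :
    ∃ Y' ⊆ Y, Y.card ≤ 2 * Y'.card ∧ ∀ x ∈ X, ∀ y ∈ Y', w x y = 0 := by
  classical
  obtain ⟨b, hbs, hspan, hli⟩ := exists_linearIndependent ℝ (w '' (X : Set V))
  have hfin : b.Finite := (X.finite_toSet.image w).subset hbs
  set B : Finset (V → ℝ) := hfin.toFinset with hB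
  have hBmem : ∀ β, β ∈ B ↔ β ∈ b := fun β => by rw [hB, Set.Finite.mem_toFinset]
  have hbW : Submodule.span ℝ b ≤ W := by
    rw [Submodule.span_le]
    intro β hβ
    obtain ⟨x, hx, rfl⟩ := hbs hβ
    exact hw x hx
  have hBcard : B.card ≤ R := by
    have h1 : Module.finrank ℝ (Submodule.span ℝ b) = B.card := by
      haveI : Fintype b := hfin.fintype
      rw [finrank_span_set_eq_card hli]
      rw [hB, Set.Finite.card_toFinset, Set.toFinset_card]
    rw [← h1]
    exact le_trans (Submodule.finrank_mono hbW) hW
  set Y' := Y.filter (fun y => ∀ β ∈ B, β y = 0) with hY'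
  refine ⟨Y', Finset.filter_subset _ _, ?_, ?_⟩
  · have h1 : Y \ Y' ⊆ B.biUnion (fun β => Y.filter (fun y => β y ≠ 0)) := by
      intro y hy
      rw [Finset.mem_sdiff, hY', Finset.mem_filter] at hy
      have h2 := hy.2
      push Not at h2
      obtain ⟨β, hβ, hβy⟩ := h2 hy.1
      rw [Finset.mem_biUnion]
      exact ⟨β, hβ, Finset.mem_filter.mpr ⟨hy.1, hβy⟩⟩
    have h2 := le_trans (Finset.card_le_card h1) Finset.card_biUnion_le
    have h3 : ∀ β ∈ B, (Y.filter (fun y => β y ≠ 0)).card * (2 * R) ≤ Y.card := by
      intro β hβ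
      rw [hBmem] at hβ
      obtain ⟨x, hx, rfl⟩ := hbs hβ
      exact hc x hx
    have h4 : (∑ β ∈ B, (Y.filter (fun y => β y ≠ 0)).card) * (2 * R) ≤ R * Y.card := by
      rw [Finset.sum_mul]
      refine le_trans (Finset.sum_le_sum h3) ?_
      rw [Finset.sum_const, smul_eq_mul]
      exact Nat.mul_le_mul_right _ hBcard
    have h5 : (Y \ Y').card * (2 * R) ≤ R * Y.card := le_trans (Nat.mul_le_mul_right _ h2) h4
    have h6 : (Y \ Y').card * 2 ≤ Y.card := by
      have : R * ((Y \ Y').card * 2) ≤ R * Y.card := by
        calc R * ((Y \ Y').card * 2) = (Y \ Y').card * (2 * R) := by ring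
          _ ≤ _ := h5
      exact Nat.le_of_mul_le_mul_left this (by omega)
    have h7 : (Y \ Y').card + Y'.card = Y.card :=
      Finset.card_sdiff_add_card_eq_card (Finset.filter_subset _ _)
    omega
  · intro x hx y hy
    have h1 : w x ∈ Submodule.span ℝ b := by
      rw [hspan]
      exact Submodule.subset_span ⟨x, hx, rfl⟩
    have h2 : Submodule.span ℝ b ≤ LinearMap.ker (LinearMap.proj (R := ℝ) (φ := fun _ : V => ℝ) y) := by
      rw [Submodule.span_le]
      intro β hβ
      rw [SetLike.mem_coe, LinearMap.mem_ker]
      rw [hY', Finset.mem_filter] at hy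
      exact hy.2 β ((hBmem β).mpr hβ)
    exact h2 h1

/-- row space together with the constants -/
noncomputable def RW : Submodule ℝ (V → ℝ) :=
  Submodule.span ℝ (Set.range (fun x : V => (G.adjMatrix ℝ) x)) ⊔ Submodule.span ℝ {(fun _ => 1 : V → ℝ)}

lemma finrank_rows : Module.finrank ℝ (Submodule.span ℝ (Set.range (fun x : V => (G.adjMatrix ℝ) x)))
    = (G.adjMatrix ℝ).rank := by
  rw [Matrix.rank_eq_finrank_span_row]
  rfl

lemma finrank_RW : Module.finrank ℝ (RW G) ≤ (G.adjMatrix ℝ).rank + 1 := by
  unfold RW
  refine le_trans (Submodule.finrank_add_le_finrank_add_finrank _ _) ?_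
  rw [finrank_rows]
  have := finrank_span_le_card (R := ℝ) ({(fun _ => 1 : V → ℝ)} : Set (V → ℝ))
  simp only [Set.toFinset_singleton, Finset.card_singleton] at this
  omega

lemma row_mem (x : V) : (G.adjMatrix ℝ) x ∈ RW G :=
  Submodule.mem_sup_left (Submodule.subset_span ⟨x, rfl⟩)

lemma co_row_mem (x : V) : (fun y => 1 - (G.adjMatrix ℝ) x y) ∈ RW G := by
  have : (fun y => 1 - (G.adjMatrix ℝ) x y) = (fun _ => 1 : V → ℝ) - (G.adjMatrix ℝ) x := rfl
  rw [this]
  exact Submodule.sub_mem _ (Submodule.mem_sup_right (Submodule.mem_span_singleton_self _)) (row_mem G x)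

end Pool.Agent.H974R3.RC
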