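import Pool.Agent.H974R3.RankEmb

set_option autoImplicit false
set_option linter.unusedSectionVars false

namespace Pool.Agent.H974R3.RC

open Finset

variable {V : Type} [Fintype V] [DecidableEq V] (G : SimpleGraph V) [DecidableRel G.Adj]

/-- rank of the submatrix on `S` -/
noncomputable def rho (S : Finset V) : ℕ := S.card - Module.finrank ℝ (KS G S)

lemma rho_add (S : Finset V) : rho G S + Module.finrank ℝ (KS G S) = S.card := by
  unfold rho
  have := finrank_le_card G S
  omega

lemma rho_mono {S T : Finset V} (h : S ⊆ T) : rho G S ≤ rho G T := by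
  have h1 := rho_add G S
  have h2 := rho_add G T
  have h3 := d_mono G h
  omega

lemma rho_univ : rho G univ = (G.adjMatrix ℝ).rank := by
  have h1 := rho_add G univ
  have h2 := rank_univ G
  rw [Finset.card_univ] at h1
  omega

lemma fin_union {X Y : Finset V} (hd : Disjoint X Y)
    (h : (∀ x ∈ X, ∀ y ∈ Y, ¬ G.Adj x y) ∨ (∀ x ∈ X, ∀ y ∈ Y, G.Adj x y)) :
    Module.finrank ℝ (KS G (X ∪ Y)) ≤ Module.finrank ℝ (KS G X) + Module.finrank ℝ (KS G Y) + 2 := by
  classical
  let f1 : (V → ℝ) →ₗ[ℝ] ℝ := ∑ v ∈ X, LinearMap.proj v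
  let f2 : (V → ℝ) →ₗ[ℝ] ℝ := ∑ v ∈ Y, LinearMap.proj v
  have e1 : ∀ x : V → ℝ, f1 x = ∑ v ∈ X, x v := by
    intro x; simp [f1, LinearMap.sum_apply]
  have e2 : ∀ x : V → ℝ, f2 x = ∑ v ∈ Y, x v := by
    intro x; simp [f2, LinearMap.sum_apply]
  have a1 : Module.finrank ℝ (KS G (X ∪ Y)) ≤
      Module.finrank ℝ (KS G (X ∪ Y) ⊓ LinearMap.ker f1 : Submodule ℝ (V → ℝ)) + 1 :=
    fin_le_succ f1 (fun x hx h0 => ⟨hx, h0⟩)
  have a2 : Module.finrank ℝ (KS G (X ∪ Y) ⊓ LinearMap.ker f1 : Submodule ℝ (V → ℝ)) ≤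
      Module.finrank ℝ (KS G X ⊔ KS G Y : Submodule ℝ (V → ℝ)) + 1 := by
    apply fin_le_succ f2
    intro x hx h2
    obtain ⟨hx, h1⟩ := hx
    have h1' : f1 x = 0 := h1
    rw [e1] at h1'
    rw [e2] at h2
    rw [SetLike.mem_coe, mem_KS] at hx
    have key : ∀ (A B : Finset V), Disjoint A B → (∀ u, u ∉ A ∪ B → x u = 0) →
        (∀ u ∈ A ∪ B, ∑ v, (if G.Adj u v then x v else 0) = 0) → (∑ v ∈ B, x v = 0) →
        ((∀ a ∈ A, ∀ b ∈ B, ¬ G.Adj a b) ∨ (∀ a ∈ A, ∀ b ∈ B, G.Adj a b)) →
        (fun v => if v ∈ A then x v else 0) ∈ KS G A := by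
      intro A B hAB hs hr hB hpure
      rw [mem_KS]
      refine ⟨fun u hu => by simp [hu], fun u hu => ?_⟩
      have h3 := hr u (Finset.mem_union_left _ hu)
      have h4 : ∑ v, (if G.Adj u v then x v else 0) =
          ∑ v, (if G.Adj u v then (if v ∈ A then x v else 0) else 0) +
          ∑ v, (if G.Adj u v then (if v ∈ B then x v else 0) else 0) := by
        rw [← Finset.sum_add_distrib]
        apply Finset.sum_congr rfl
        intro v _
        by_cases hv : G.Adj u v
        · simp only [hv, if_true]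
          by_cases hvA : v ∈ A
          · have : v ∉ B := Finset.disjoint_left.mp hAB hvA
            simp [hvA, this]
          · by_cases hvB : v ∈ B
            · simp [hvA, hvB]
            · simp only [hvA, hvB, if_false, add_zero]
              apply hs
              rw [Finset.mem_union]; push Not; exact ⟨hvA, hvB⟩
        · simp [hv]
      have h5 : ∑ v, (if G.Adj u v then (if v ∈ B then x v else 0) else 0) = 0 := by
        rcases hpure with hp | hp
        · apply Finset.sum_eq_zero
          intro v _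
          split_ifs with h6 h7
          · exact absurd h6 (hp u hu v h7)
          · rfl
          · rfl
        · have : ∑ v, (if G.Adj u v then (if v ∈ B then x v else 0) else 0) = ∑ v, (if v ∈ B then x v else 0) := by
            apply Finset.sum_congr rfl
            intro v _
            split_ifs with h6 h7 h7
            · rfl
            · rfl
            · exact absurd (hp u hu v h7) h6
            · rfl
          rw [this, Finset.sum_ite_mem, Finset.univ_inter]
          exact hB
      rw [h4, h5, add_zero] at h3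
      exact h3
    have hX := key X Y hd hx.1 hx.2 h2 h
    have hY := key Y X hd.symm (by rw [Finset.union_comm]; exact hx.1) (by rw [Finset.union_comm]; exact hx.2)
      h1' (by
        rcases h with h | h
        · left; intro a ha b hb hab; exact h b hb a ha hab.symm
        · right; intro a ha b hb; exact (h b hb a ha).symm)
    have hsum : x = (fun v => if v ∈ X then x v else 0) + (fun v => if v ∈ Y then x v else 0) := by
      funext v
      simp only [Pi.add_apply]
      by_cases hvA : v ∈ X
      · have : v ∉ Y := Finset.disjoint_left.mp hd hvA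
        simp [hvA, this]
      · by_cases hvB : v ∈ Y
        · simp [hvA, hvB]
        · simp only [hvA, hvB, if_false, add_zero]
          apply hx.1
          rw [Finset.mem_union]; push Not; exact ⟨hvA, hvB⟩
    rw [hsum]
    exact Submodule.add_mem_sup hX hY
  have a3 := Submodule.finrank_add_le_finrank_add_finrank (KS G X) (KS G Y)
  omega

lemma rho_halve {X Y S : Finset V} (hd : Disjoint X Y) (hX : X ⊆ S) (hY : Y ⊆ S)
    (h : (∀ x ∈ X, ∀ y ∈ Y, ¬ G.Adj x y) ∨ (∀ x ∈ X, ∀ y ∈ Y, G.Adj x y)) :
    rho G X + rho G Y ≤ rho G S + 2 := by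
  have h1 := fin_union G hd h
  have h2 := rho_add G X
  have h3 := rho_add G Y
  have h4 := rho_add G (X ∪ Y)
  have h5 := rho_mono G (Finset.union_subset hX hY)
  have h6 := Finset.card_union_of_disjoint hd
  omega

/-- a large subset of half the rank -/
lemma find (R k : ℕ) (H : SimpleGraph (Fin k)) (hR : (G.adjMatrix ℝ).rank + 1 ≤ R)
    (hH : ¬ ∃ f : Fin k → V, Function.Injective f ∧ ∀ i j, i ≠ j → (G.Adj (f i) (f j) ↔ H.Adj i j))
    (S : Finset V) (hS : 4 * R * (k * (4 * R) ^ k) ≤ S.card) :
    ∃ Z ⊆ S, S.card ≤ (8 * (k * (4 * R) ^ k)) * Z.card ∧ 2 * rho G Z ≤ rho G S + 2 := by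
  classical
  have hR1 : 1 ≤ R := by omega
  have hk : 0 < k := by
    rcases Nat.eq_zero_or_pos k with rfl | h
    · exfalso
      exact hH ⟨fun j => j.elim0, fun j => j.elim0, fun j => j.elim0⟩
    · exact h
  have hpow : 0 < (4 * R) ^ k := pow_pos (by omega) k
  set Q := k * (4 * R) ^ k with hQ
  have hQ0 : 0 < Q := Nat.mul_pos hk hpow
  set s := S.card / Q with hs
  have hs1 : 4 * R ≤ s := by
    rw [hs, Nat.le_div_iff_mul_le hQ0]; exact hS
  have hs2 : s * Q ≤ S.card := Nat.div_mul_le_self _ _
  have hs3 : S.card < (s + 1) * Q := by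
    have := Nat.lt_mul_div_succ S.card hQ0
    rw [mul_comm]; exact this
  rcases embed G R s hR1 hs1 k H (fun _ => S) (by
    intro j
    calc s * k * (4 * R) ^ k = s * Q := by rw [hQ]; ring
      _ ≤ _ := hs2) with ⟨f, hf, _, hadj⟩ | ⟨X, Y, hX, hY, ⟨i, hXS⟩, ⟨j, hYS⟩, hXY⟩
  · exact absurd ⟨f, hf, hadj⟩ hH
  have hW : Module.finrank ℝ (RW G) ≤ R := le_trans (finrank_RW G) hR
  have hpure : ∃ Y' ⊆ Y, Y.card ≤ 2 * Y'.card ∧
      ((∀ x ∈ X, ∀ y ∈ Y', ¬ G.Adj x y) ∨ (∀ x ∈ X, ∀ y ∈ Y', G.Adj x y)) := by
    rcases hXY with h | h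
    · obtain ⟨Y', h1, h2, h3⟩ := pure_of (RW G) R hR1 hW (fun x => (G.adjMatrix ℝ) x) X Y
        (fun x _ => row_mem G x) (by
          intro x hx
          have := h x hx
          refine le_trans (Nat.mul_le_mul_right _ (Finset.card_le_card ?_)) this
          intro y hy
          rw [Finset.mem_filter] at hy ⊢
          refine ⟨hy.1, ?_⟩
          by_contra hn
          apply hy.2
          rw [SimpleGraph.adjMatrix_apply, if_neg hn])
      refine ⟨Y', h1, h2, Or.inl ?_⟩
      intro x hx y hy hadj
      have := h3 x hx y hy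
      simp only [SimpleGraph.adjMatrix_apply, if_pos hadj] at this
      norm_num at this
    · obtain ⟨Y', h1, h2, h3⟩ := pure_of (RW G) R hR1 hW (fun x y => 1 - (G.adjMatrix ℝ) x y) X Y
        (fun x _ => co_row_mem G x) (by
          intro x hx
          have := h x hx
          refine le_trans (Nat.mul_le_mul_right _ (Finset.card_le_card ?_)) this
          intro y hy
          rw [Finset.mem_filter] at hy ⊢
          refine ⟨hy.1, ?_⟩
          intro hn
          apply hy.2
          rw [SimpleGraph.adjMatrix_apply, if_pos hn]; norm_num)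
      refine ⟨Y', h1, h2, Or.inr ?_⟩
      intro x hx y hy
      by_contra hadj
      have := h3 x hx y hy
      simp only [SimpleGraph.adjMatrix_apply, if_neg hadj] at this
      norm_num at this
  obtain ⟨Y', hY'Y, hY'c, hp⟩ := hpure
  obtain ⟨X1, hX1X, hX1c⟩ := Finset.exists_subset_card_eq (s := X) (n := s / 4) (by omega)
  set Y1 := Y' \ X1 with hY1
  have hY1c : s / 4 ≤ Y1.card := by
    have h1 := Finset.le_card_sdiff X1 Y'
    rw [← hY1] at h1
    omega
  have hd : Disjoint X1 Y1 := Finset.disjoint_sdiff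
  have hXS1 : X1 ⊆ S := hX1X.trans hXS
  have hYS1 : Y1 ⊆ S := Finset.sdiff_subset.trans (hY'Y.trans hYS)
  have hh := rho_halve G hd hXS1 hYS1 (by
    rcases hp with hp | hp
    · left; intro x hx y hy; exact hp x (hX1X hx) y (Finset.sdiff_subset hy)
    · right; intro x hx y hy; exact hp x (hX1X hx) y (Finset.sdiff_subset hy))
  have hbig : ∀ Z : Finset V, s / 4 ≤ Z.card → S.card ≤ (8 * Q) * Z.card := by
    intro Z hZ
    have h1 : s + 1 ≤ 8 * Z.card := by omega
    calc S.card ≤ (s + 1) * Q := hs3.le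
      _ ≤ (8 * Z.card) * Q := Nat.mul_le_mul_right _ h1
      _ = _ := by ring
  rcases le_total (rho G X1) (rho G Y1) with hle | hle
  · exact ⟨X1, hXS1, hbig X1 (by omega), by omega⟩
  · exact ⟨Y1, hYS1, hbig Y1 hY1c, by omega⟩

lemma col_triv (S : Finset V) : Col G S S.card := by
  classical
  obtain ⟨e⟩ : Nonempty (S ≃ Fin S.card) := ⟨S.equivFin⟩
  refine ⟨fun v => if h : v ∈ S then (e ⟨v, h⟩).val else 0, ?_, ?_⟩
  · intro v hv
    simp only [hv, dif_pos]
    exact (e ⟨v, hv⟩).isLt
  · intro u hu v hv huv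
    simp only [hu, hv, dif_pos]
    intro h
    have h1 := e.injective (Fin.ext h)
    have h2 : u = v := congrArg Subtype.val h1
    exact G.loopless.irrefl u (by rw [← h2] at huv; exact huv)

lemma clique_ker (Q : Finset V) (hQ : G.IsClique (Q : Set V)) (h2 : 2 ≤ Q.card) :
    Module.finrank ℝ (KS G Q) = 0 := by
  have : KS G Q = ⊥ := by
    rw [eq_bot_iff]
    intro x hx
    rw [mem_KS] at hx
    rw [Submodule.mem_bot]
    have hrow : ∀ u ∈ Q, (∑ v ∈ Q, x v) - x u = 0 := by
      intro u hu
      rw [← hx.2 u hu, ← Finset.sum_erase_eq_sub hu]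
      rw [← Finset.sum_filter]
      symm
      apply Finset.sum_subset_zero_on_sdiff (s₁ := Q.erase u)
        (s₂ := univ.filter (fun v => G.Adj u v)) ?_ ?_ ?_ |>.symm
      · intro v hv
        rw [Finset.mem_erase] at hv
        rw [Finset.mem_filter]
        exact ⟨Finset.mem_univ v, hQ hu hv.2 hv.1.symm⟩
      · intro v hv
        rw [Finset.mem_sdiff, Finset.mem_filter, Finset.mem_erase] at hv
        apply hx.1
        intro hvQ
        apply hv.2
        exact ⟨fun h => G.loopless.irrefl u (by rw [h] at hv; exact hv.1.2), hvQ⟩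
      · intro v _; rfl
    set s := ∑ v ∈ Q, x v with hs
    have hxu : ∀ u ∈ Q, x u = s := by
      intro u hu
      have := hrow u hu
      linarith
    have h3 : s = Q.card * s := by
      conv_lhs => rw [hs, Finset.sum_congr rfl hxu]
      rw [Finset.sum_const, nsmul_eq_mul]
    have h4 : (2 : ℝ) ≤ Q.card := by exact_mod_cast h2
    have h5 : s = 0 := by
      have : s * ((Q.card : ℝ) - 1) = 0 := by linarith
      rcases mul_eq_zero.mp this with h | h
      · exact h
      · linarith
    funext u
    by_cases hu : u ∈ Q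
    · rw [hxu u hu, h5]; rfl
    · exact hx.1 u hu
  rw [this]; simp

lemma col_base (S : Finset V) (h : rho G S ≤ 3) : Col G S 3 := by
  have h1 : Col G S ((1 + 2).choose 2) := by
    apply col_of
    · intro hl
      have h2 := lad_rank G 2 S hl
      have h3 := rho_add G S
      omega
    · intro Q hQ hcl
      by_cases hc : 2 ≤ Q.card
      · have h2 := clique_ker G Q hcl hc
        have h3 := rho_add G Q
        have h4 := rho_mono G hQ
        omega
      · omega
  simpa using h1

/-- peeling -/
lemma peel (T q M : ℝ) (ρ ρ' : ℕ) (hT : 0 ≤ T) (hq : 1 ≤ q) (hM : 0 ≤ M)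
    (hcol : ∀ Z : Finset V, rho G Z ≤ ρ' → ∃ N : ℕ, (N : ℝ) ≤ T ∧ Col G Z N)
    (hfind : ∀ S : Finset V, M ≤ S.card → rho G S ≤ ρ → ∃ Z ⊆ S, (S.card : ℝ) ≤ q * Z.card ∧ rho G Z ≤ ρ') :
    ∀ (n : ℕ) (S : Finset V), S.card ≤ n → rho G S ≤ ρ →
      ∃ N : ℕ, (N : ℝ) ≤ T * (q * Real.log S.card + 1) + M ∧ Col G S N := by
  intro n
  induction n with
  | zero =>
    intro S hS _
    refine ⟨S.card, ?_, col_triv G S⟩
    have h0 : S.card = 0 := by omega
    rw [h0]
    simp only [Nat.cast_zero, Real.log_zero, mul_zero, zero_add, mul_one]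
    positivity
  | succ n ih =>
    intro S hS hρ
    have hlog : 0 ≤ Real.log S.card := Real.log_natCast_nonneg _
    by_cases hc : M ≤ S.card
    · by_cases h0 : S.card = 0
      · refine ⟨S.card, ?_, col_triv G S⟩
        rw [h0]
        simp only [Nat.cast_zero, Real.log_zero, mul_zero, zero_add, mul_one]
        positivity
      obtain ⟨Z, hZS, hZc, hZρ⟩ := hfind S hc hρ
      have hSpos : (0 : ℝ) < S.card := by
        have : 0 < S.card := Nat.pos_of_ne_zero h0
        exact_mod_cast this
      have hZpos : (0 : ℝ) < Z.card := by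
        by_contra hcon
        push Not at hcon
        have : q * (Z.card : ℝ) ≤ 0 := mul_nonpos_of_nonneg_of_nonpos (by linarith) hcon
        linarith
      have hZpos' : 0 < Z.card := by exact_mod_cast hZpos
      obtain ⟨N1, hN1, hC1⟩ := hcol Z hZρ
      have hcard : (S \ Z).card + Z.card = S.card := Finset.card_sdiff_add_card_eq_card hZS
      obtain ⟨N2, hN2, hC2⟩ := ih (S \ Z) (by omega) (le_trans (rho_mono G Finset.sdiff_subset) hρ)
      by_cases hz : (S \ Z).card = 0
      · have hSZ : S = Z := by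
          apply Finset.Subset.antisymm _ hZS
          rw [← Finset.sdiff_eq_empty_iff_subset]
          exact Finset.card_eq_zero.mp hz
        refine ⟨N1, ?_, by rw [hSZ]; exact hC1⟩
        have : T * 1 ≤ T * (q * Real.log S.card + 1) := by
          apply mul_le_mul_of_nonneg_left _ hT
          have : 0 ≤ q * Real.log S.card := mul_nonneg (by linarith) hlog
          linarith
        linarith
      refine ⟨N1 + N2, ?_, ?_⟩
      · have hpos : (0 : ℝ) < (S \ Z).card := by
          have : 0 < (S \ Z).card := Nat.pos_of_ne_zero hz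
          exact_mod_cast this
        have h1 : ((S \ Z).card : ℝ) ≤ S.card * (1 - 1 / q) := by
          have h2 : ((S \ Z).card : ℝ) + Z.card = S.card := by exact_mod_cast hcard
          have h3 : (S.card : ℝ) / q ≤ Z.card := by
            rw [div_le_iff₀ (by linarith)]; linarith
          have h4 : (S.card : ℝ) * (1 - 1 / q) = S.card - S.card / q := by ring
          rw [h4]; linarith
        have h5 : 0 < 1 - 1 / q := by
          by_contra hcon
          push Not at hcon
          have : (S.card : ℝ) * (1 - 1 / q) ≤ 0 := mul_nonpos_of_nonneg_of_nonpos hSpos.le hcon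
          linarith
        have h6 : Real.log (S \ Z).card ≤ Real.log S.card - 1 / q := by
          calc Real.log (S \ Z).card ≤ Real.log (S.card * (1 - 1 / q)) := Real.log_le_log hpos h1
            _ = Real.log S.card + Real.log (1 - 1 / q) := Real.log_mul hSpos.ne' h5.ne'
            _ ≤ Real.log S.card + ((1 - 1 / q) - 1) := by
              have := Real.log_le_sub_one_of_pos h5
              linarith
            _ = _ := by ring
        have h7 : q * Real.log (S \ Z).card ≤ q * Real.log S.card - 1 := by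
          have := mul_le_mul_of_nonneg_left h6 (by linarith : (0 : ℝ) ≤ q)
          have e : q * (Real.log S.card - 1 / q) = q * Real.log S.card - 1 := by
            field_simp
          linarith
        have h8 : T * (q * Real.log (S \ Z).card + 1) ≤ T * (q * Real.log S.card) := by
          apply mul_le_mul_of_nonneg_left _ hT
          linarith
        push_cast
        nlinarith
      · have := Col.union G hC1 hC2
        rwa [Finset.union_sdiff_of_subset hZS] at this
    · push Not at hc
      refine ⟨S.card, ?_, col_triv G S⟩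
      have : 0 ≤ T * (q * Real.log S.card + 1) := by positivity
      linarith

/-- level induction -/
lemma level (q M B : ℝ) (hq : 1 ≤ q) (hM : 0 ≤ M)
    (hfind : ∀ S : Finset V, M ≤ S.card → ∃ Z ⊆ S, (S.card : ℝ) ≤ q * Z.card ∧
      2 * rho G Z ≤ rho G S + 2)
    (hB : q * Real.log (Fintype.card V) + 1 + M ≤ B) :
    ∀ (j : ℕ) (S : Finset V), rho G S ≤ 2 ^ j + 2 → ∃ N : ℕ, (N : ℝ) ≤ 3 * B ^ j ∧ Col G S N := by
  have hlogV : 0 ≤ Real.log (Fintype.card V) := Real.log_natCast_nonneg _
  have hB1 : 1 ≤ B := by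
    have : 0 ≤ q * Real.log (Fintype.card V) := mul_nonneg (by linarith) hlogV
    linarith
  intro j
  induction j with
  | zero =>
    intro S hS
    exact ⟨3, by norm_num, col_base G S (by simpa using hS)⟩
  | succ j ih =>
    intro S hS
    have hT : (1 : ℝ) ≤ 3 * B ^ j := by
      have := one_le_pow₀ hB1 (n := j)
      linarith
    obtain ⟨N, hN, hC⟩ := peel G (3 * B ^ j) q M (2 ^ (j + 1) + 2) (2 ^ j + 2) (by linarith) hq hM
      (fun Z hZ => ih Z hZ) (by
        intro S hMS hρ
        obtain ⟨Z, h1, h2, h3⟩ := hfind S hMS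
        refine ⟨Z, h1, h2, ?_⟩
        rw [pow_succ] at hρ
        omega) S.card S le_rfl hS
    refine ⟨N, ?_, hC⟩
    have hlog : Real.log S.card ≤ Real.log (Fintype.card V) := by
      by_cases h0 : S.card = 0
      · rw [h0]; simpa using hlogV
      · apply Real.log_le_log
        · have : 0 < S.card := Nat.pos_of_ne_zero h0
          exact_mod_cast this
        · exact_mod_cast Finset.card_le_univ S
    have h1 : q * Real.log S.card + 1 ≤ q * Real.log (Fintype.card V) + 1 := by
      have := mul_le_mul_of_nonneg_left hlog (by linarith : (0 : ℝ) ≤ q)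
      linarith
    calc (N : ℝ) ≤ 3 * B ^ j * (q * Real.log S.card + 1) + M := hN
      _ ≤ 3 * B ^ j * (q * Real.log (Fintype.card V) + 1) + 3 * B ^ j * M := by
        have h2 := mul_le_mul_of_nonneg_left h1 (by linarith : (0 : ℝ) ≤ 3 * B ^ j)
        have h3 := mul_le_mul_of_nonneg_right hT hM
        linarith
      _ = 3 * B ^ j * (q * Real.log (Fintype.card V) + 1 + M) := by ring
      _ ≤ 3 * B ^ j * B := mul_le_mul_of_nonneg_left hB (by linarith)
      _ = 3 * B ^ (j + 1) := by rw [pow_succ]; ring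

/-- twin-free graphs of rank `r` have at most `2 ^ r` vertices -/
lemma card_le_two_pow (htw : ∀ u v : V, (∀ x, G.Adj x u ↔ G.Adj x v) → u = v) :
    Fintype.card V ≤ 2 ^ (G.adjMatrix ℝ).rank := by
  classical
  obtain ⟨b, hbs, hspan, hli⟩ := exists_linearIndependent ℝ (Set.range (fun x : V => (G.adjMatrix ℝ) x))
  have hfin : b.Finite := (Set.finite_range _).subset hbs
  set B : Finset (V → ℝ) := hfin.toFinset with hB
  have hBmem : ∀ β, β ∈ B ↔ β ∈ b := fun β => by rw [hB, Set.Finite.mem_toFinset]
  have hBcard : B.card = (G.adjMatrix ℝ).rank := by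
    have h1 : Module.finrank ℝ (Submodule.span ℝ b) = B.card := by
      let _ : Fintype b := hfin.fintype
      rw [finrank_span_set_eq_card hli]
      rw [hB, Set.Finite.card_toFinset, Set.toFinset_card]
    rw [← h1, hspan]
    exact finrank_rows G
  have hinj : Function.Injective (fun v : V => B.filter (fun β => β v = 1)) := by
    intro u v huv
    apply htw
    have h01 : ∀ β ∈ B, β u = β v := by
      intro β hβ
      have hβ' := (hBmem β).mp hβ
      obtain ⟨x, hx⟩ := hbs hβ'
      have h1 : β ∈ B.filter (fun β => β u = 1) ↔ β ∈ B.filter (fun β => β v = 1) := by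
        have : B.filter (fun β => β u = 1) = B.filter (fun β => β v = 1) := huv
        rw [this]
      rw [Finset.mem_filter, Finset.mem_filter] at h1
      simp only [hβ, true_and] at h1
      have hxu : β u = 0 ∨ β u = 1 := by
        rw [← hx]; simp only [SimpleGraph.adjMatrix_apply]; split_ifs <;> simp
      have hxv : β v = 0 ∨ β v = 1 := by
        rw [← hx]; simp only [SimpleGraph.adjMatrix_apply]; split_ifs <;> simp
      rcases hxu with hu | hu <;> rcases hxv with hv | hv
      · rw [hu, hv]
      · exfalso; have := h1.mpr hv; rw [hu] at this; norm_num at this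
      · exfalso; have := h1.mp hu; rw [hv] at this; norm_num at this
      · rw [hu, hv]
    have hall : ∀ x : V, (G.adjMatrix ℝ) x u = (G.adjMatrix ℝ) x v := by
      intro x
      have h1 : (G.adjMatrix ℝ) x ∈ Submodule.span ℝ b := by
        rw [hspan]
        exact Submodule.subset_span ⟨x, rfl⟩
      have h2 : Submodule.span ℝ b ≤ LinearMap.ker
          (LinearMap.proj (R := ℝ) (φ := fun _ : V => ℝ) u - LinearMap.proj (R := ℝ) (φ := fun _ : V => ℝ) v) := by
        rw [Submodule.span_le]
        intro β hβ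
        rw [SetLike.mem_coe, LinearMap.mem_ker, LinearMap.sub_apply]
        simp only [LinearMap.proj_apply]
        rw [h01 β ((hBmem β).mpr hβ), sub_self]
      have h3 := h2 h1
      rw [LinearMap.mem_ker, LinearMap.sub_apply] at h3
      simp only [LinearMap.proj_apply] at h3
      linarith
    intro x
    have := hall x
    rw [SimpleGraph.adjMatrix_apply, SimpleGraph.adjMatrix_apply] at this
    by_cases h1 : G.Adj x u <;> by_cases h2 : G.Adj x v
    · simp [h1, h2]
    · rw [if_pos h1, if_neg h2] at this; norm_num at this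
    · rw [if_neg h1, if_pos h2] at this; norm_num at this
    · simp [h1, h2]
  have h1 : Fintype.card V ≤ (B.powerset).card := by
    rw [← Finset.card_univ]
    apply Finset.card_le_card_of_injOn (fun v : V => B.filter (fun β => β v = 1))
    · intro v _
      rw [Finset.mem_coe, Finset.mem_powerset]
      exact Finset.filter_subset _ _
    · exact hinj.injOn
  rw [Finset.card_powerset, hBcard] at h1
  exact h1

/-- the bound on the chromatic number -/
lemma main (htw : ∀ u v : V, (∀ x, G.Adj x u ↔ G.Adj x v) → u = v)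
    (hr : 1 < (G.adjMatrix ℝ).rank) (k : ℕ) (H : SimpleGraph (Fin k))
    (hH : ¬ ∃ f : Fin k → V, Function.Injective f ∧ ∀ i j, i ≠ j → (G.Adj (f i) (f j) ↔ H.Adj i j)) :
    ∃ N : ℕ, 0 < N ∧ G.Colorable N ∧
      Real.log N ≤ 40 * k * (Real.log (G.adjMatrix ℝ).rank) ^ 2 := by
  classical
  set r := (G.adjMatrix ℝ).rank with hrdef
  have hk : 0 < k := by
    rcases Nat.eq_zero_or_pos k with rfl | h
    · exfalso
      exact hH ⟨fun j => j.elim0, fun j => j.elim0, fun j => j.elim0⟩
    · exact h
  have hk1 : (1 : ℝ) ≤ k := by exact_mod_cast hk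
  set Q : ℕ := k * (4 * (r + 1)) ^ k with hQ
  have hQ1 : 1 ≤ Q := Nat.mul_pos hk (pow_pos (by omega) k)
  have hQ1r : (1 : ℝ) ≤ Q := by exact_mod_cast hQ1
  set M : ℕ := 4 * (r + 1) * Q with hM
  have hfind : ∀ S : Finset V, (M : ℝ) ≤ S.card → ∃ Z ⊆ S, (S.card : ℝ) ≤ ((8 * Q : ℕ) : ℝ) * Z.card ∧
      2 * rho G Z ≤ rho G S + 2 := by
    intro S hS
    obtain ⟨Z, h1, h2, h3⟩ := find G (r + 1) k H le_rfl hH S (by
      have : M ≤ S.card := by exact_mod_cast hS
      exact this)
    exact ⟨Z, h1, by exact_mod_cast h2, h3⟩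
  set B : ℝ := (r : ℝ) ^ (12 * k) with hBdef
  have hr2 : (2 : ℝ) ≤ r := by exact_mod_cast hr
  have hlogV : Real.log (Fintype.card V) ≤ r := by
    have h1 := card_le_two_pow G htw
    by_cases h0 : Fintype.card V = 0
    · rw [h0]; simp
    · have h2 : Real.log (Fintype.card V) ≤ Real.log ((2 : ℝ) ^ r) := by
        apply Real.log_le_log
        · have : 0 < Fintype.card V := Nat.pos_of_ne_zero h0
          exact_mod_cast this
        · exact_mod_cast h1
      rw [Real.log_pow] at h2
      have h3 := Real.log_two_lt_d9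
      have h4 : (r : ℝ) * Real.log 2 ≤ r * 1 := by
        apply mul_le_mul_of_nonneg_left _ (by linarith)
        linarith
      linarith
  have h4R : (4 * ((r : ℝ) + 1)) ≤ (r : ℝ) ^ 4 := by
    have h1 : (r : ℝ) ^ 3 ≥ 8 := by
      have := pow_le_pow_left₀ (by norm_num : (0 : ℝ) ≤ 2) hr2 3
      norm_num at this
      linarith
    have h2 : (r : ℝ) ^ 4 = r * r ^ 3 := by ring
    rw [h2]
    nlinarith
  have hB : ((8 * Q : ℕ) : ℝ) * Real.log (Fintype.card V) + 1 + M ≤ B := by
    have h1 : ((8 * Q : ℕ) : ℝ) * Real.log (Fintype.card V) ≤ ((8 * Q : ℕ) : ℝ) * r :=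
      mul_le_mul_of_nonneg_left hlogV (by positivity)
    have h2 : ((8 * Q : ℕ) : ℝ) * r + 1 + M ≤ 8 * (4 * ((r : ℝ) + 1)) * Q := by
      rw [hM]; push_cast
      nlinarith
    have h3 : 8 * (4 * ((r : ℝ) + 1)) * Q ≤ (r : ℝ) ^ 3 * (r : ℝ) ^ 4 * ((r : ℝ) ^ k * ((r : ℝ) ^ 4) ^ k) := by
      have e1 : (8 : ℝ) ≤ (r : ℝ) ^ 3 := by
        have := pow_le_pow_left₀ (by norm_num : (0 : ℝ) ≤ 2) hr2 3
        norm_num at this
        linarith
      have e2 : (k : ℝ) ≤ (r : ℝ) ^ k := by
        have h5 : (k : ℝ) ≤ (2 : ℝ) ^ k := by exact_mod_cast (Nat.lt_two_pow_self (n := k)).le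
        exact le_trans h5 (pow_le_pow_left₀ (by norm_num) hr2 k)
      have e3 : (4 * ((r : ℝ) + 1)) ^ k ≤ ((r : ℝ) ^ 4) ^ k := pow_le_pow_left₀ (by positivity) h4R k
      rw [hQ]; push_cast
      gcongr
    have h4 : (r : ℝ) ^ 3 * (r : ℝ) ^ 4 * ((r : ℝ) ^ k * ((r : ℝ) ^ 4) ^ k) = (r : ℝ) ^ (5 * k + 7) := by
      rw [← pow_mul, ← pow_add, ← pow_add, ← pow_add]
      congr 1; ring
    have h5 : (r : ℝ) ^ (5 * k + 7) ≤ B := by
      rw [hBdef]
      apply pow_le_pow_right₀ (by linarith)
      omega
    linarith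
  obtain ⟨N, hN, hC⟩ := level G ((8 * Q : ℕ) : ℝ) M B (by push_cast; linarith) (by positivity) hfind hB
    (Nat.clog 2 r) univ (by
      rw [rho_univ, ← hrdef]
      have hcl : r ≤ 2 ^ Nat.clog 2 r := Nat.le_pow_clog (by norm_num) r
      omega)
  have hVne : 0 < Fintype.card V := by
    by_contra hcon
    have h0 : Fintype.card V = 0 := by omega
    have h1 : r ≤ Fintype.card V := by
      have := rank_univ G
      omega
    omega
  have hN0 : 0 < N := by
    obtain ⟨v⟩ : Nonempty V := Fintype.card_pos_iff.mp hVne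
    obtain ⟨c, hc, _⟩ := hC
    have := hc v (Finset.mem_univ v)
    omega
  refine ⟨N, hN0, ?_, ?_⟩
  · obtain ⟨c, hc, hc2⟩ := hC
    refine ⟨SimpleGraph.Coloring.mk (fun v => (⟨c v, hc v (Finset.mem_univ v)⟩ : Fin N)) ?_⟩
    intro u v huv h
    exact hc2 u (Finset.mem_univ u) v (Finset.mem_univ v) huv (by simpa using congrArg Fin.val h)
  · have hN0r : (0 : ℝ) < N := by exact_mod_cast hN0
    have hlr : Real.log 2 ≤ Real.log r := Real.log_le_log (by norm_num) hr2
    have hl2 := Real.log_two_gt_d9
    have hBpos : 0 < B := by rw [hBdef]; positivity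
    have h1 : Real.log N ≤ Real.log 3 + (Nat.clog 2 r) * (12 * k * Real.log r) := by
      calc Real.log N ≤ Real.log (3 * B ^ (Nat.clog 2 r)) := Real.log_le_log hN0r hN
        _ = Real.log 3 + (Nat.clog 2 r) * Real.log B := by
          rw [Real.log_mul (by norm_num) (pow_pos hBpos _).ne', Real.log_pow]
        _ = _ := by rw [hBdef, Real.log_pow]; push_cast; ring
    have h2 : ((Nat.clog 2 r : ℕ) : ℝ) ≤ 3 * Real.log r := by
      have h3 : 2 ^ (Nat.clog 2 r - 1) < r := Nat.pow_pred_clog_lt_self (by norm_num) hr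
      have h4 : 0 < Nat.clog 2 r := Nat.clog_pos (by norm_num) hr
      have h5 : (((Nat.clog 2 r - 1 : ℕ)) : ℝ) * Real.log 2 ≤ Real.log r := by
        rw [← Real.log_pow]
        apply Real.log_le_log (by positivity)
        exact_mod_cast h3.le
      rw [Nat.cast_sub (by omega)] at h5
      push_cast at h5
      nlinarith
    have h6 : Real.log 3 ≤ 4 * k * (Real.log r) ^ 2 := by
      have h7 : Real.log 3 ≤ 1.12 := by
        have : Real.log 3 ≤ Real.log (2 ^ (8/5 : ℝ)) := by
          apply Real.log_le_log (by norm_num)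
          have h8 : (3 : ℝ) ^ (5 : ℕ) ≤ (2 ^ (8/5 : ℝ)) ^ (5 : ℕ) := by
            rw [← Real.rpow_natCast (2 ^ (8/5 : ℝ)) 5, ← Real.rpow_mul (by norm_num)]
            norm_num
          exact le_of_pow_le_pow_left₀ (by norm_num) (by positivity) h8
        rw [Real.log_rpow (by norm_num)] at this
        have := Real.log_two_lt_d9
        linarith
      have h9 : (Real.log r) ^ 2 ≥ 0.48 := by nlinarith
      nlinarith
    have h10 : ((Nat.clog 2 r : ℕ) : ℝ) * (12 * k * Real.log r) ≤ 3 * Real.log r * (12 * k * Real.log r) := by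
      apply mul_le_mul_of_nonneg_right h2
      have : 0 ≤ Real.log r := by linarith
      positivity
    calc Real.log N ≤ Real.log 3 + (Nat.clog 2 r) * (12 * k * Real.log r) := h1
      _ ≤ 4 * k * (Real.log r) ^ 2 + 3 * Real.log r * (12 * k * Real.log r) := by linarith
      _ = _ := by ring

end Pool.Agent.H974R3.RC
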