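import Pool.Agent.H974R3.RankFin

set_option autoImplicit false
set_option linter.unusedSectionVars false

namespace Pool.Agent.H974R3.RC

open Finset

variable {V : Type} [Fintype V] [DecidableEq V] (G : SimpleGraph V) [DecidableRel G.Adj]

lemma lad_seq (m : ℕ) : ∀ S : Finset V, Lad G m S → ∃ b y : Fin m → V, (∀ j, b j ∈ S ∧ y j ∈ S) ∧
    (∀ j, G.Adj (b j) (y j)) ∧ ∀ i j, i < j → ¬ G.Adj (b i) (b j) ∧ ¬ G.Adj (b i) (y j) := by
  induction m with
  | zero =>
    intro S _
    exact ⟨fun j => j.elim0, fun j => j.elim0, fun j => j.elim0, fun j => j.elim0, fun i => i.elim0⟩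
  | succ m ih =>
    rintro S ⟨b0, hb0, y0, hy0, hadj, hl⟩
    obtain ⟨b, y, h1, h2, h3⟩ := ih _ hl
    refine ⟨Fin.cons b0 b, Fin.cons y0 y, ?_, ?_, ?_⟩
    · intro j
      induction j using Fin.cases with
      | zero => exact ⟨hb0, hy0⟩
      | succ j =>
        simp only [Fin.cons_succ]
        exact ⟨(Finset.mem_filter.mp (h1 j).1).1, (Finset.mem_filter.mp (h1 j).2).1⟩
    · intro j
      induction j using Fin.cases with
      | zero => exact hadj
      | succ j => simp only [Fin.cons_succ]; exact h2 j
    · intro i j hij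
      induction i using Fin.cases with
      | zero =>
        induction j using Fin.cases with
        | zero => exact absurd hij (lt_irrefl _)
        | succ j =>
          simp only [Fin.cons_zero, Fin.cons_succ]
          exact ⟨(Finset.mem_filter.mp (h1 j).1).2, (Finset.mem_filter.mp (h1 j).2).2⟩
      | succ i =>
        induction j using Fin.cases with
        | zero => exact absurd hij (by simp)
        | succ j =>
          simp only [Fin.cons_succ]
          exact h3 i j (by simpa using hij)

lemma lad_bound (m : ℕ) (h : Lad G m univ) : 2 * m ≤ (G.adjMatrix ℝ).rank := by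
  have h1 := lad_rank G m univ h
  have h2 := rank_univ G
  rw [Finset.card_univ] at h1
  omega

lemma colorable_of_col (N : ℕ) (h : Col G univ N) : G.Colorable N := by
  obtain ⟨c, hc, hc2⟩ := h
  refine ⟨SimpleGraph.Coloring.mk (fun v => (⟨c v, hc v (Finset.mem_univ v)⟩ : Fin N)) ?_⟩
  intro u v huv h
  exact hc2 u (Finset.mem_univ u) v (Finset.mem_univ v) huv (by simpa using congrArg Fin.val h)

/-- colouring by clique number and ladder length -/
lemma color_choose (m k : ℕ) (hl : ¬ Lad G (m + 1) univ)
    (hk : ∀ Q : Finset V, G.IsClique (Q : Set V) → Q.card ≤ k + 1) : G.Colorable ((m + k).choose k) :=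
  colorable_of_col G _ (col_of G m k univ hl (fun Q _ hQ => hk Q hQ))

end Pool.Agent.H974R3.RC
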