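import Pool.Agent.H300R2.BH.Chow
import Pool.Agent.H974R3.LBoxAP

/-!
Maximal exceptional set bound for bounded functions with small exponential sums along the
polynomials `a + R(k) + σ d k^j` in thin two parameter boxes.
-/

set_option autoImplicit false

namespace Pool.Agent.H974R3.Thin

open Finset Polynomial Filter
open Pool.Agent.H300R2.BH
open Pool.Agent.H469R2.NK (e)
open Pool.Agent.H442R2.EHI (evt_log_pow evt_log_ge)
open Pool.Agent.H373R2.T7 (SupSmall)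

/-- the sum of `g (|F(k)|)` over `1 ≤ k ≤ M` -/
noncomputable def ss (g : ℕ → ℂ) (F : ℤ[X]) (M : ℕ) : ℂ :=
  ∑ k ∈ Icc 1 M, g (F.eval (k : ℤ)).natAbs

/-- the sum of `g (F(k))` over `1 ≤ k ≤ M` with `F(k) ≥ 1` -/
noncomputable def sp (g : ℕ → ℂ) (F : ℤ[X]) (M : ℕ) : ℂ :=
  ∑ k ∈ Icc 1 M, (if 1 ≤ F.eval (k : ℤ) then g (F.eval (k : ℤ)).toNat else 0)

lemma ss_diff (g : ℕ → ℂ) (h1 : ∀ n, ‖g n‖ ≤ 1) (F : ℤ[X]) {K K' : ℕ} (h : K' ≤ K) :
    ‖ss g F K‖ ≤ ‖ss g F K'‖ + ((K:ℝ) - K') := by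
  unfold ss
  have hIcc : Icc 1 K = Icc 1 K' ∪ Ioc K' K := by
    ext k
    simp only [mem_union, mem_Icc, mem_Ioc]
    omega
  have hdis : Disjoint (Icc 1 K') (Ioc K' K) := by
    rw [disjoint_left]
    intro k h2 h3
    rw [mem_Icc] at h2
    rw [mem_Ioc] at h3
    omega
  rw [hIcc, sum_union hdis]
  refine (norm_add_le _ _).trans ?_
  have h2 : ‖∑ k ∈ Ioc K' K, g (F.eval (k : ℤ)).natAbs‖ ≤ (K:ℝ) - K' := by
    calc _ ≤ ∑ k ∈ Ioc K' K, ‖g (F.eval (k : ℤ)).natAbs‖ := norm_sum_le _ _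
      _ ≤ ∑ k ∈ Ioc K' K, (1:ℝ) := sum_le_sum fun k _ => h1 _
      _ = (K:ℝ) - K' := by
          rw [sum_const, Nat.card_Ioc, nsmul_eq_mul, mul_one, Nat.cast_sub h]
  linarith

lemma ss_sp (g : ℕ → ℂ) (h1 : ∀ n, ‖g n‖ ≤ 1) (F : ℤ[X]) (M : ℕ) (T : ℝ) (hT : 0 ≤ T)
    (h : ∀ k ∈ Icc 1 M, F.eval (k : ℤ) ≤ 0 → (k : ℝ) ≤ T) :
    ‖ss g F M‖ ≤ ‖sp g F M‖ + T := by
  classical
  have h2 : ss g F M = sp g F M + ∑ k ∈ (Icc 1 M).filter (fun k : ℕ => F.eval (k : ℤ) ≤ 0),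
      g (F.eval (k : ℤ)).natAbs := by
    unfold ss sp
    rw [sum_filter, ← sum_add_distrib]
    refine sum_congr rfl fun k _ => ?_
    by_cases h3 : 1 ≤ F.eval (k : ℤ)
    · rw [if_pos h3, if_neg (by omega), add_zero]
      congr 1
      omega
    · rw [if_neg h3, if_pos (by omega), zero_add]
  rw [h2]
  refine (norm_add_le _ _).trans ?_
  have h3 : ‖∑ k ∈ (Icc 1 M).filter (fun k : ℕ => F.eval (k : ℤ) ≤ 0), g (F.eval (k : ℤ)).natAbs‖ ≤
      T := by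
    calc _ ≤ ∑ k ∈ (Icc 1 M).filter (fun k : ℕ => F.eval (k : ℤ) ≤ 0),
          ‖g (F.eval (k : ℤ)).natAbs‖ := norm_sum_le _ _
      _ ≤ ∑ k ∈ (Icc 1 M).filter (fun k : ℕ => F.eval (k : ℤ) ≤ 0), (1:ℝ) :=
          sum_le_sum fun k _ => h1 _
      _ = (((Icc 1 M).filter (fun k : ℕ => F.eval (k : ℤ) ≤ 0)).card : ℝ) := by simp
      _ ≤ ((Icc 1 ⌊T⌋₊).card : ℝ) := by
          have : (Icc 1 M).filter (fun k : ℕ => F.eval (k : ℤ) ≤ 0) ⊆ Icc 1 ⌊T⌋₊ := by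
            intro k hk
            rw [mem_filter] at hk
            have h4 := h k hk.1 hk.2
            rw [mem_Icc] at hk ⊢
            exact ⟨hk.1.1, Nat.le_floor h4⟩
          exact_mod_cast card_le_card this
      _ = (⌊T⌋₊ : ℝ) := by rw [Nat.card_Icc, Nat.add_sub_cancel]
      _ ≤ T := Nat.floor_le hT
  linarith

lemma box_mono {j x K M D A a0 : ℕ} {σ : ℤ} (h : Box j x K D A a0 σ) (hM : M ≤ K) :
    Box j x M D A a0 σ := by
  have h1 : M ^ j ≤ K ^ j := Nat.pow_le_pow_left hM j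
  have h2 : 2 * D * M ^ j ≤ 2 * D * K ^ j := Nat.mul_le_mul_left _ h1
  rcases h with ⟨h, h3⟩ | ⟨h, h3, h4⟩
  · left; exact ⟨h, by omega⟩
  · right; exact ⟨h, by omega, by omega⟩

/-- values are positive except for small `k` -/
lemma low {j : ℕ} (hj : 1 ≤ j) {x K D A a0 : ℕ} {σ : ℤ} (h : Box j x K D A a0 σ) (R : ℤ[X])
    (L : ℝ) (hL : 1 ≤ L) (V B : ℕ) (hB : j * V ≤ B)
    (hR : ∀ k ∈ Icc 1 K, |((R.eval (k : ℤ) : ℤ) : ℝ)| ≤ (K : ℝ) ^ j / L ^ B)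
    {a d : ℕ} (ha : a ∈ Ioc a0 (a0 + A)) (hd : d ∈ Ioc D (2 * D)) (k : ℕ) (hk : k ∈ Icc 1 K)
    (hF : (FF R j σ a d).eval (k : ℤ) ≤ 0) : (k : ℝ) ≤ K / L ^ V := by
  have hL0 : 0 < L := by linarith
  have hRk : |R.eval (k : ℤ)| ≤ ((K ^ j : ℕ) : ℤ) := by
    have h1 := hR k hk
    have h2 : (K : ℝ) ^ j / L ^ B ≤ ((K ^ j : ℕ) : ℝ) := by
      push_cast
      exact div_le_self (by positivity) (one_le_pow₀ hL)
    exact_mod_cast h1.trans h2
  by_contra hcon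
  push Not at hcon
  have h3 : σ = 1 → |R.eval (k : ℤ)| < d * (k:ℤ) ^ j := by
    intro _
    have h4 := hR k hk
    have h5 : ((K:ℝ) / L ^ V) ^ j < (k:ℝ) ^ j :=
      pow_lt_pow_left₀ hcon (by positivity) (by omega)
    have h6 : (K:ℝ) ^ j / L ^ B ≤ ((K:ℝ) / L ^ V) ^ j := by
      rw [div_pow, ← pow_mul]
      apply div_le_div_of_nonneg_left (by positivity) (by positivity)
      apply pow_le_pow_right₀ hL
      rw [mul_comm]; exact hB
    have h7 : (k:ℝ) ^ j ≤ d * (k:ℝ) ^ j := by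
      rw [mem_Ioc] at hd
      have : (1:ℝ) ≤ d := by exact_mod_cast (by omega : 1 ≤ d)
      exact le_mul_of_one_le_left (by positivity) this
    have h8 : |((R.eval (k : ℤ) : ℤ) : ℝ)| < d * (k:ℝ) ^ j := by linarith
    exact_mod_cast h8
  have := (box_val h R ha hd hk hRk h3).1
  omega

/-- the hypothesis of `mean_small` -/
lemma hyp (g : ℕ → ℂ) (hsup : SupSmall g) (E1 E3 : ℕ) : ∃ x0 : ℕ, ∀ x : ℕ, x0 ≤ x →
    ∀ q : ℕ, 1 ≤ q → (q : ℝ) ≤ Real.log x ^ E1 →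
      ∀ b : ℤ, ∀ β : ℝ, |β - (b : ℝ) / (q : ℝ)| ≤ Real.log x ^ E3 / x →
      ‖∑ n ∈ Icc 1 x, g n * e (n * β)‖ ≤ x / Real.log x ^ (2 * E3) := by
  obtain ⟨N0, hN⟩ := hsup (2 * E3)
  refine ⟨N0, fun x hx q _ _ b β _ => ?_⟩
  refine le_trans (le_of_eq ?_) (hN x hx β)
  congr 1
  refine sum_congr rfl fun n hn => ?_
  rw [Pool.Agent.H807R2.Dav.ee_eq]
  rfl

open Classical in
theorem exc (g : ℕ → ℂ) (h1 : ∀ n, ‖g n‖ ≤ 1) (hsup : SupSmall g)
    (j : ℕ) (hj : 1 ≤ j) (ε : ℝ) (hε : 0 < ε) (E0 U : ℕ) :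
    ∃ B x0 : ℕ, ∀ x : ℕ, x0 ≤ x → ∀ (K D A a0 : ℕ) (R : ℤ[X]) (σ : ℤ), Box j x K D A a0 σ →
    (x : ℝ) ≤ D * (K : ℝ) ^ j * Real.log x ^ E0 → (x : ℝ) ^ ε ≤ K →
    x * Real.log x ^ B ≤ (A : ℝ) * D →
    (∀ k ∈ Icc 1 K, |((R.eval (k : ℤ) : ℤ) : ℝ)| ≤ (K : ℝ) ^ j / Real.log x ^ B) →
    ((((Ioc a0 (a0 + A)) ×ˢ (Ioc D (2 * D))).filter (fun ad : ℕ × ℕ =>
      ∃ M : ℕ, M ≤ K ∧ K / Real.log x ^ U < ‖ss g (FF R j σ ad.1 ad.2) M‖)).card : ℝ) ≤
      A * D / Real.log x ^ U := by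
  set V := U + 2 with hV
  obtain ⟨B1, x1, hmean⟩ := mean_small j hj (ε / 2) (by positivity) (E0 + j * (V + 1))
    (4 * U + 5) g h1 (hyp g hsup)
  have hev : ∀ᶠ x : ℕ in atTop, x1 ≤ x ∧ 3 ≤ x ∧ 8 ≤ Real.log x ∧
      Real.log x ^ (V + 1) ≤ (x : ℝ) ^ (ε / 2) := by
    filter_upwards [eventually_ge_atTop x1, eventually_ge_atTop 3,
      evt_log_ge 8, evt_log_pow (V + 1) (ε / 2) (by positivity)] with x h1 h3 h4 h5
    exact ⟨h1, h3, h4, h5⟩
  obtain ⟨x0, hx0⟩ := eventually_atTop.mp hev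
  refine ⟨B1 + j * (V + 1), x0, fun x hx K D A a0 R σ hbox hxDK hxK hAD hR => ?_⟩
  obtain ⟨hx1, hx3, hL, hLε⟩ := hx0 x hx
  set L := Real.log x with hLdef
  have hL0 : 0 < L := by linarith
  have hL1 : 1 ≤ L := by linarith
  have hLp0 : ∀ n : ℕ, 0 < L ^ n := fun n => by positivity
  have hLp : ∀ n : ℕ, 1 ≤ L ^ n := fun n => one_le_pow₀ hL1
  have hLmono : ∀ m n : ℕ, m ≤ n → L ^ m ≤ L ^ n := fun m n h => pow_le_pow_right₀ hL1 h
  have hxr : (3:ℝ) ≤ x := by exact_mod_cast hx3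
  have hx0' : (0:ℝ) < x := by linarith
  have hsplit : (x:ℝ) ^ ε = (x:ℝ) ^ (ε / 2) * (x:ℝ) ^ (ε / 2) := by
    rw [← Real.rpow_add hx0']
    congr 1; ring
  have hKbig : (x:ℝ) ^ (ε / 2) * L ^ (V + 1) ≤ K := by
    refine le_trans ?_ hxK
    rw [hsplit]
    gcongr
  have hxe1 : (1:ℝ) ≤ (x:ℝ) ^ (ε / 2) := (hLp _).trans hLε
  have hK0 : (0:ℝ) < K := lt_of_lt_of_le (by positivity) hKbig
  -- the grid
  set S := ⌊(K:ℝ) / L ^ V⌋₊ with hS
  have hSle : (S:ℝ) ≤ K / L ^ V := Nat.floor_le (by positivity)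
  have hKL : L ≤ (K:ℝ) / L ^ V := by
    rw [le_div_iff₀ (hLp0 _)]
    calc L * L ^ V = 1 * L ^ (V + 1) := by ring
      _ ≤ (x:ℝ) ^ (ε / 2) * L ^ (V + 1) := by gcongr
      _ ≤ K := hKbig
  have hSge : (K:ℝ) / L ^ (V + 1) ≤ S := by
    have h2 : (K:ℝ) / L ^ V < S + 1 := Nat.lt_floor_add_one _
    have h3 : (K:ℝ) / L ^ V ≤ S * L := by nlinarith
    rw [div_le_iff₀ (hLp0 _)]
    calc (K:ℝ) = (K / L ^ V) * L ^ V := by field_simp
      _ ≤ (S * L) * L ^ V := by gcongr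
      _ = _ := by ring
  have hSpos : 1 ≤ S := by
    have h2 : 0 < (K:ℝ) / L ^ (V + 1) := by positivity
    have h3 : (0:ℝ) < S := h2.trans_le hSge
    exact_mod_cast h3
  have hSr : (0:ℝ) < S := by exact_mod_cast hSpos
  set P := (Ioc a0 (a0 + A)) ×ˢ (Ioc D (2 * D)) with hP
  set N := K / S with hN
  -- each grid point
  have hgrid : ∀ i ∈ Icc 1 N, ((P.filter (fun ad : ℕ × ℕ =>
      K / L ^ (U + 1) < ‖sp g (FF R j σ ad.1 ad.2) (S * i)‖)).card : ℝ) ≤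
      A * D / L ^ (2 * U + 3) := by
    intro i hi
    rw [mem_Icc] at hi
    have hMK : S * i ≤ K := by
      calc S * i ≤ S * N := Nat.mul_le_mul_left _ hi.2
        _ ≤ K := Nat.mul_div_le K S
    set M := S * i with hM
    have hMr : (M:ℝ) ≤ K := by exact_mod_cast hMK
    have hSM : (S:ℝ) ≤ M := by
      have : S ≤ M := Nat.le_mul_of_pos_right S hi.1
      exact_mod_cast this
    have hM0 : (0:ℝ) < M := hSr.trans_le hSM
    have hKM : (K:ℝ) ≤ M * L ^ (V + 1) := by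
      have := hSge.trans hSM
      rwa [div_le_iff₀ (hLp0 _)] at this
    have hb := hmean x hx1 M D A a0 R σ (box_mono hbox hMK) (by
        calc (x:ℝ) ≤ D * (K:ℝ) ^ j * L ^ E0 := hxDK
          _ ≤ D * (M * L ^ (V + 1)) ^ j * L ^ E0 := by gcongr
          _ = D * (M:ℝ) ^ j * L ^ (E0 + j * (V + 1)) := by
              rw [mul_pow, ← pow_mul, pow_add L E0, mul_comm (V + 1) j]
              ring) (by
        have h2 : (x:ℝ) ^ (ε / 2) * L ^ (V + 1) ≤ M * L ^ (V + 1) := hKbig.trans hKM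
        exact le_of_mul_le_mul_right h2 (hLp0 _)) (by
        refine le_trans ?_ hAD
        gcongr
        omega) (by
        intro k hk
        rw [mem_Icc] at hk
        refine (hR k (by rw [mem_Icc]; omega)).trans ?_
        rw [div_le_div_iff₀ (hLp0 _) (hLp0 _)]
        calc (K:ℝ) ^ j * L ^ B1 ≤ (M * L ^ (V + 1)) ^ j * L ^ B1 := by gcongr
          _ = (M:ℝ) ^ j * L ^ (B1 + j * (V + 1)) := by
              rw [mul_pow, ← pow_mul, pow_add L B1, mul_comm (V + 1) j]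
              ring)
    have hsum : ∑ ad ∈ P, ‖sp g (FF R j σ ad.1 ad.2) M‖ ^ 2 ≤
        A * D * (K:ℝ) ^ 2 / L ^ (4 * U + 5) := by
      rw [hP, sum_product]
      refine hb.trans ?_
      gcongr
    set G := P.filter (fun ad : ℕ × ℕ => K / L ^ (U + 1) < ‖sp g (FF R j σ ad.1 ad.2) M‖) with hG
    have h3 : (G.card : ℝ) * (K / L ^ (U + 1)) ^ 2 ≤ A * D * (K:ℝ) ^ 2 / L ^ (4 * U + 5) := by
      calc (G.card : ℝ) * (K / L ^ (U + 1)) ^ 2 = ∑ ad ∈ G, ((K:ℝ) / L ^ (U + 1)) ^ 2 := by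
            rw [sum_const, nsmul_eq_mul]
        _ ≤ ∑ ad ∈ G, ‖sp g (FF R j σ ad.1 ad.2) M‖ ^ 2 := by
            refine sum_le_sum fun ad had => ?_
            have h4 := (mem_filter.mp had).2
            gcongr
        _ ≤ ∑ ad ∈ P, ‖sp g (FF R j σ ad.1 ad.2) M‖ ^ 2 :=
            sum_le_sum_of_subset_of_nonneg (filter_subset _ _) fun _ _ _ => by positivity
        _ ≤ _ := hsum
    have h4 : (0:ℝ) < (K / L ^ (U + 1)) ^ 2 := by positivity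
    rw [← le_div_iff₀ h4] at h3
    refine h3.trans (le_of_eq ?_)
    rw [show 4 * U + 5 = (2 * U + 3) + ((U + 1) + (U + 1)) by ring, pow_add L (2 * U + 3),
      pow_add L (U + 1) (U + 1)]
    field_simp
  -- covering
  have hcov : P.filter (fun ad : ℕ × ℕ =>
      ∃ M : ℕ, M ≤ K ∧ K / L ^ U < ‖ss g (FF R j σ ad.1 ad.2) M‖) ⊆
      (Icc 1 N).biUnion (fun i => P.filter (fun ad : ℕ × ℕ =>
        K / L ^ (U + 1) < ‖sp g (FF R j σ ad.1 ad.2) (S * i)‖)) := by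
    intro ad had
    rw [mem_filter] at had
    obtain ⟨hadP, M, hMK, hM⟩ := had
    have hadP' := hadP
    rw [hP, mem_product] at hadP'
    set F := FF R j σ ad.1 ad.2 with hF
    set i := M / S with hi
    have hSi : S * i ≤ M := Nat.mul_div_le M S
    have hSi2 : M < S * i + S := by
      have := Nat.lt_mul_div_succ M (show 0 < S by omega)
      rw [← hi] at this
      calc M < S * (i + 1) := this
        _ = S * i + S := by ring
    have hd := ss_diff g h1 F hSi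
    have hd2 : (M:ℝ) - ((S * i : ℕ) : ℝ) ≤ S := by
      have : (M:ℝ) < ((S * i : ℕ) : ℝ) + S := by exact_mod_cast hSi2
      linarith
    have hd3 := ss_sp g h1 F (S * i) (K / L ^ V) (by positivity) (by
      intro k hk hFk
      rw [mem_Icc] at hk
      exact low hj hbox R L hL1 V (B1 + j * (V + 1)) (by
        calc j * V ≤ j * (V + 1) := Nat.mul_le_mul_left _ (by omega)
          _ ≤ _ := by omega) hR hadP'.1 hadP'.2 k (by rw [mem_Icc]; omega) hFk)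
    have hbig : (K:ℝ) / L ^ (U + 1) < ‖sp g F (S * i)‖ := by
      have h5 : (K:ℝ) / L ^ (U + 1) + 2 * (K / L ^ V) ≤ K / L ^ U := by
        have e1 : (K:ℝ) / L ^ (U + 1) = (K / L ^ U) * (1 / L) := by
          rw [pow_succ]; field_simp
        have e2 : (K:ℝ) / L ^ V = (K / L ^ U) * (1 / L) * (1 / L) := by
          rw [hV, pow_add]; field_simp
        have e3 : (1:ℝ) / L ≤ 1 / 8 := one_div_le_one_div_of_le (by norm_num) hL
        have e4 : (0:ℝ) ≤ 1 / L := by positivity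
        have e5 : (0:ℝ) ≤ K / L ^ U := by positivity
        rw [e1, e2]
        have e6 : (1:ℝ) / L + 2 * (1 / L * (1 / L)) ≤ 1 := by nlinarith
        calc (K:ℝ) / L ^ U * (1 / L) + 2 * (K / L ^ U * (1 / L) * (1 / L))
            = (K / L ^ U) * (1 / L + 2 * (1 / L * (1 / L))) := by ring
          _ ≤ (K / L ^ U) * 1 := by gcongr
          _ = _ := mul_one _
      linarith
    have hi1 : 1 ≤ i := by
      by_contra hc
      have h6 : i = 0 := Nat.lt_one_iff.mp (not_le.mp hc)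
      rw [h6, mul_zero] at hbig
      unfold sp at hbig
      simp only [show Icc 1 0 = (∅ : Finset ℕ) by rfl, sum_empty, norm_zero] at hbig
      have : (0:ℝ) ≤ K / L ^ (U + 1) := by positivity
      linarith
    rw [mem_biUnion]
    refine ⟨i, ?_, ?_⟩
    · rw [mem_Icc]
      exact ⟨hi1, Nat.div_le_div_right hMK⟩
    · rw [mem_filter]
      exact ⟨hadP, hbig⟩
  have hNle : (N:ℝ) ≤ L ^ (V + 1) := by
    have h2 : (N:ℝ) ≤ (K:ℝ) / S := Nat.cast_div_le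
    refine h2.trans ?_
    rw [div_le_iff₀ hSr]
    have := hSge
    rw [div_le_iff₀ (hLp0 _)] at this
    linarith
  calc ((P.filter (fun ad : ℕ × ℕ =>
      ∃ M : ℕ, M ≤ K ∧ K / L ^ U < ‖ss g (FF R j σ ad.1 ad.2) M‖)).card : ℝ)
      ≤ (((Icc 1 N).biUnion (fun i => P.filter (fun ad : ℕ × ℕ =>
        K / L ^ (U + 1) < ‖sp g (FF R j σ ad.1 ad.2) (S * i)‖))).card : ℝ) := by
        exact_mod_cast card_le_card hcov
    _ ≤ ∑ i ∈ Icc 1 N, ((P.filter (fun ad : ℕ × ℕ =>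
        K / L ^ (U + 1) < ‖sp g (FF R j σ ad.1 ad.2) (S * i)‖)).card : ℝ) := by
        exact_mod_cast card_biUnion_le
    _ ≤ ∑ i ∈ Icc 1 N, (A * D / L ^ (2 * U + 3) : ℝ) := sum_le_sum hgrid
    _ = N * (A * D / L ^ (2 * U + 3)) := by
        rw [sum_const, Nat.card_Icc, Nat.add_sub_cancel, nsmul_eq_mul]
    _ ≤ L ^ (V + 1) * (A * D / L ^ (2 * U + 3)) := by gcongr
    _ = A * D / L ^ U := by
        rw [hV, show 2 * U + 3 = U + (U + 2 + 1) by ring, pow_add L U (U + 2 + 1)]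
        field_simp

end Pool.Agent.H974R3.Thin
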